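import Pool.Agent.Work.MP_2f0ece_A.B_GAM

/-! Block CUB of the project MP_2f0ece_A (helper78). -/

set_option autoImplicit false

namespace Pool.Agent.Work.CubicOdd.DA

open MvPolynomial Pool.Agent.Work.CubicOdd

universe u

/-- `r^3 + 1` is squarefree -/
theorem CUB_sqf {K : Type u} [Field K] (h3 : (3 : K) ≠ 0) :
    Squarefree ((X 0 : MvPolynomial (Fin 3) K) ^ 3 + 1) := by
  rintro a ⟨c, hc⟩
  have hd := congrArg (MvPolynomial.pderiv (0 : Fin 3)) hc
  have h1 : (MvPolynomial.pderiv (0 : Fin 3)) ((X 0 : MvPolynomial (Fin 3) K) ^ 3 + 1) =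
      3 * X 0 ^ 2 := by
    simp [Derivation.leibniz_pow]
  have h2 : (MvPolynomial.pderiv (0 : Fin 3)) (a * a * c) =
      a * (2 * (MvPolynomial.pderiv (0 : Fin 3)) a * c +
        a * (MvPolynomial.pderiv (0 : Fin 3)) c) := by
    simp only [Derivation.leibniz, smul_eq_mul]
    ring
  rw [h1, h2] at hd
  have hda : a ∣ (X 0 : MvPolynomial (Fin 3) K) ^ 2 := by
    have h : a ∣ 3 * (X 0 : MvPolynomial (Fin 3) K) ^ 2 := ⟨_, hd⟩
    have e : (X 0 : MvPolynomial (Fin 3) K) ^ 2 =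
        C ((3 : K)⁻¹) * (3 * (X 0 : MvPolynomial (Fin 3) K) ^ 2) := by
      have : (3 : MvPolynomial (Fin 3) K) = C 3 := (map_ofNat C 3).symm
      rw [this, ← mul_assoc, ← C_mul, inv_mul_cancel₀ h3, C_1, one_mul]
    rw [e]
    exact Dvd.dvd.mul_left h _
  have hdb : a ∣ (X 0 : MvPolynomial (Fin 3) K) ^ 3 + 1 := ⟨a * c, by rw [hc, mul_assoc]⟩
  refine isUnit_of_dvd_one ?_
  have : (1 : MvPolynomial (Fin 3) K) = (X 0 ^ 3 + 1) - X 0 * X 0 ^ 2 := by ring
  rw [this]
  exact dvd_sub hdb (Dvd.dvd.mul_left hda _)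

theorem p_CUB : Stmt_CUB.{u} := by
  intro K _ h3 w _ b c d z hz
  have hinj : Function.Injective (algebraMap (MvPolynomial (Fin 3) K) (L3 K)) :=
    IsFractionRing.injective _ _
  have hgam := GAM_image b c d (K := K)
  set G : MvPolynomial (Fin 3) K :=
    (C b * X 0 + C c + C d * X 1) ^ 3 + (X 0 ^ 3 + 1) + X 1 ^ 3 with hG
  have hG0 : G ≠ 0 := by
    intro h
    refine p_GAM K h3 b c d ?_
    rw [hgam, h, map_zero]
  have himg : Gam b c d (xv K 0) (xv K 1) * (xv K 0 ^ 3 + 1) =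
      algebraMap (MvPolynomial (Fin 3) K) (L3 K) (G * (X 0 ^ 3 + 1)) := by
    rw [hgam]
    simp only [xv, map_mul, map_add, map_pow, map_one]
  have hint : IsIntegral (MvPolynomial (Fin 3) K) z := by
    refine IsIntegral.of_pow (n := 3) (by norm_num) ?_
    rw [hz, himg]
    exact isIntegral_algebraMap
  obtain ⟨y, hy⟩ := IsIntegrallyClosed.isIntegral_iff.1 hint
  have hpoly : y ^ 3 = G * (X 0 ^ 3 + 1) := by
    apply hinj
    rw [map_pow, hy, hz, himg]
  have hdvd : (X 0 ^ 3 + 1 : MvPolynomial (Fin 3) K) ∣ y :=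
    ((CUB_sqf h3).dvd_pow_iff_dvd (by norm_num : (3 : ℕ) ≠ 0)).1 ⟨G, by rw [hpoly, mul_comm]⟩
  obtain ⟨u, hu⟩ := hdvd
  have hF : ∀ f : MvPolynomial (Fin 3) K, f ≠ 0 → MvPolynomial.finSuccEquiv K 2 f ≠ 0 := by
    intro f hf h
    exact hf ((MvPolynomial.finSuccEquiv K 2).injective (by rw [h, map_zero]))
  have hFX : MvPolynomial.finSuccEquiv K 2 (X 0 : MvPolynomial (Fin 3) K) = Polynomial.X :=
    MvPolynomial.finSuccEquiv_X_zero
  have hFr : MvPolynomial.finSuccEquiv K 2 (X 0 ^ 3 + 1 : MvPolynomial (Fin 3) K) =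
      Polynomial.X ^ 3 + Polynomial.C 1 := by
    rw [map_add, map_pow, hFX, map_one, map_one]
  have hrdeg : (MvPolynomial.finSuccEquiv K 2 (X 0 ^ 3 + 1 : MvPolynomial (Fin 3) K)).natDegree
      = 3 := by
    rw [hFr]
    exact Polynomial.natDegree_X_pow_add_C
  have hr0 : (X 0 ^ 3 + 1 : MvPolynomial (Fin 3) K) ≠ 0 := by
    intro h
    rw [h, map_zero, Polynomial.natDegree_zero] at hrdeg
    exact absurd hrdeg (by norm_num)
  have hG2 : G = (X 0 ^ 3 + 1) ^ 2 * u ^ 3 := by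
    refine mul_right_cancel₀ hr0 ?_
    rw [← hpoly, hu]
    ring
  have hu0 : u ≠ 0 := by
    rintro rfl
    apply hG0
    rw [hG2]
    ring
  have hdeg : (MvPolynomial.finSuccEquiv K 2 G).natDegree =
      6 + 3 * (MvPolynomial.finSuccEquiv K 2 u).natDegree := by
    rw [hG2, map_mul, map_pow, map_pow, Polynomial.natDegree_mul
      (pow_ne_zero _ (hF _ hr0)) (pow_ne_zero _ (hF _ hu0)), Polynomial.natDegree_pow,
      Polynomial.natDegree_pow, hrdeg]
  have hle : (MvPolynomial.finSuccEquiv K 2 G).natDegree ≤ 3 := by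
    have e : MvPolynomial.finSuccEquiv K 2 G =
        (Polynomial.C (C b) * Polynomial.X + Polynomial.C (C c + C d * X 0)) ^ 3 +
          (Polynomial.X ^ 3 + 1) + Polynomial.C (X 0) ^ 3 := by
      have hC : ∀ a : K, MvPolynomial.finSuccEquiv K 2 (C a) = Polynomial.C (C a) := by
        intro a
        exact (MvPolynomial.finSuccEquiv K 2).commutes a
      have hX1 : MvPolynomial.finSuccEquiv K 2 (X 1 : MvPolynomial (Fin 3) K) =
          Polynomial.C (X 0) := MvPolynomial.finSuccEquiv_X_succ (j := (0 : Fin 2))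
      rw [hG]
      simp only [map_add, map_mul, map_pow, map_one, hFX, hC, hX1]
      ring
    rw [e]
    compute_degree!
  omega

end Pool.Agent.Work.CubicOdd.DA
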