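import Pool.Agent.Work.MP_2f0ece_A.Interface

/-!
# Block DEG (helper87)
-/

set_option autoImplicit false

namespace Pool.Agent.Work.CubicOdd.DA

open MvPolynomial Pool.Agent.Work.CubicOdd

universe u

section Abstract

variable {K L : Type u} [Field K] [Field L] [Algebra K L]

theorem DEG_quad (N M : IntermediateField K L) (S : Set L) (Q h g : L)
    (hM : M = IntermediateField.adjoin K S) (hS : ∀ s ∈ S, s ∈ N ∨ s = Q)
    (hh : h ∈ N) (hg : g ∈ N) (hQ : Q ^ 2 - h * Q + g = 0) (hQN : Q ∉ N) :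
    ∀ z ∈ M, ∃ x ∈ N, ∃ y ∈ N, z = x + y * Q := by
  intro z hz
  rw [hM] at hz
  induction hz using IntermediateField.adjoin_induction with
  | mem x hx =>
    rcases hS x hx with hx | hx
    · exact ⟨x, hx, 0, zero_mem _, by ring⟩
    · exact ⟨0, zero_mem _, 1, one_mem _, by rw [hx]; ring⟩
  | algebraMap x => exact ⟨_, N.algebraMap_mem x, 0, zero_mem _, by ring⟩
  | add a b _ _ ha hb =>
    obtain ⟨x, hx, y, hy, rfl⟩ := ha
    obtain ⟨x', hx', y', hy', rfl⟩ := hb
    exact ⟨x + x', add_mem hx hx', y + y', add_mem hy hy', by ring⟩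
  | inv a _ ha =>
    obtain ⟨x, hx, y, hy, rfl⟩ := ha
    by_cases h0 : x + y * Q = 0
    · exact ⟨0, zero_mem _, 0, zero_mem _, by rw [h0]; simp⟩
    · obtain ⟨n, hn⟩ : ∃ n, n = x ^ 2 + x * y * h + y ^ 2 * g := ⟨_, rfl⟩
      have hnN : n ∈ N := by
        rw [hn]
        exact add_mem (add_mem (pow_mem hx 2) (mul_mem (mul_mem hx hy) hh)) (mul_mem (pow_mem hy 2) hg)
      have hprod : (x + y * Q) * ((x + y * h) - y * Q) = n := by
        rw [hn]
        linear_combination (-(y ^ 2)) * hQ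
      have hn0 : n ≠ 0 := by
        intro hn0
        rw [hn0] at hprod
        rcases mul_eq_zero.mp hprod with h1 | h1
        · exact h0 h1
        · by_cases hy0 : y = 0
          · rw [hy0] at h1 h0
            apply h0
            linear_combination h1
          · apply hQN
            have : Q = (x + y * h) / y := by
              field_simp
              linear_combination - h1
            rw [this]
            exact div_mem (add_mem hx (mul_mem hy hh)) hy
      refine ⟨(x + y * h) / n, div_mem (add_mem hx (mul_mem hy hh)) hnN, - y / n,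
        div_mem (neg_mem hy) hnN, ?_⟩
      rw [inv_eq_iff_eq_inv, eq_comm, inv_eq_iff_eq_inv, eq_comm]
      have e : (x + y * h) / n + - y / n * Q = ((x + y * h) - y * Q) / n := by
        field_simp
        ring
      rw [e, inv_eq_one_div, div_eq_div_iff h0 hn0]
      linear_combination - hprod
  | mul a b _ _ ha hb =>
    obtain ⟨x, hx, y, hy, rfl⟩ := ha
    obtain ⟨x', hx', y', hy', rfl⟩ := hb
    refine ⟨x * x' - y * y' * g, sub_mem (mul_mem hx hx') (mul_mem (mul_mem hy hy') hg),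
      x * y' + x' * y + y * y' * h, add_mem (add_mem (mul_mem hx hy') (mul_mem hx' hy))
        (mul_mem (mul_mem hy hy') hh), ?_⟩
    linear_combination (y * y') * hQ

theorem DEG_notin (N M : IntermediateField K L) (A P Q h g rho G : L)
    (hM : ∀ z ∈ M, ∃ x ∈ N, ∃ y ∈ N, z = x + y * Q)
    (hP : P ∈ N) (hrho : rho ∈ N) (hP0 : P ≠ 0) (hrho0 : rho ≠ 0)
    (hh : h ∈ N) (hg : g ∈ N) (hQ : Q ^ 2 - h * Q + g = 0) (hQN : Q ∉ N)
    (hgG : g = G / P) (hA : A ^ 3 = P ^ 2 / rho * Q)
    (hc : ∀ z ∈ N, z ^ 3 ≠ G * rho) : A ∉ M := by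
  intro hAM
  obtain ⟨x, hx, y, hy, hxy⟩ := hM A hAM
  obtain ⟨U, hU⟩ : ∃ U, U = x ^ 3 - 3 * x * y ^ 2 * g - y ^ 3 * h * g := ⟨_, rfl⟩
  obtain ⟨V, hV⟩ : ∃ V, V = 3 * x ^ 2 * y + 3 * x * y ^ 2 * h + y ^ 3 * (h ^ 2 - g) := ⟨_, rfl⟩
  have h3N : (3 : L) ∈ N := by
    exact_mod_cast N.natCast_mem 3
  have hUN : U ∈ N := by
    rw [hU]
    exact sub_mem (sub_mem (pow_mem hx 3) (mul_mem (mul_mem (mul_mem h3N hx) (pow_mem hy 2)) hg))
      (mul_mem (mul_mem (pow_mem hy 3) hh) hg)
  have hVN : V ∈ N := by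
    rw [hV]
    exact add_mem (add_mem (mul_mem (mul_mem h3N (pow_mem hx 2)) hy)
      (mul_mem (mul_mem (mul_mem h3N hx) (pow_mem hy 2)) hh))
      (mul_mem (pow_mem hy 3) (sub_mem (pow_mem hh 2) hg))
  have e1 : A ^ 3 = U + V * Q := by
    rw [hxy, hU, hV]
    linear_combination (3 * x * y ^ 2 + y ^ 3 * (Q + h)) * hQ
  have e2 : U + (V - P ^ 2 / rho) * Q = 0 := by
    linear_combination hA - e1
  have hV' : V = P ^ 2 / rho := by
    by_contra hne
    have hne' : V - P ^ 2 / rho ≠ 0 := sub_ne_zero.mpr hne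
    apply hQN
    have : Q = - U / (V - P ^ 2 / rho) := by
      rw [eq_div_iff hne']
      linear_combination e2
    rw [this]
    exact div_mem (neg_mem hUN) (sub_mem hVN (div_mem (pow_mem hP 2) hrho))
  have hU' : U = 0 := by
    rw [hV', sub_self, zero_mul, add_zero] at e2
    exact e2
  obtain ⟨n, hn⟩ : ∃ n, n = x ^ 2 + x * y * h + y ^ 2 * g := ⟨_, rfl⟩
  have hnN : n ∈ N := by
    rw [hn]
    exact add_mem (add_mem (pow_mem hx 2) (mul_mem (mul_mem hx hy) hh)) (mul_mem (pow_mem hy 2) hg)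
  have e3 : U ^ 2 + U * V * h + V ^ 2 * g = n ^ 3 := by
    rw [hU, hV, hn]; ring
  have e4 : n ^ 3 = (P ^ 2 / rho) ^ 2 * (G / P) := by
    rw [← e3, hU', hV', hgG]; ring
  refine hc (n * rho / P) (div_mem (mul_mem hnN hrho) hP) ?_
  rw [div_pow, mul_pow, e4]
  field_simp

/-- degree of an extension generated by one cube root -/
theorem DEG_finrank (w : K) (hw : w ^ 2 + w + 1 = 0) (M : IntermediateField K L) (T : L)
    (h1 : T ^ 3 ∈ M) (h2 : T ∉ M)
    (h3 : IntermediateField.adjoin M {T} = ⊤) : Module.finrank M L = 3 := by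
  have hw3 : w ^ 3 = 1 := by linear_combination (w - 1) * hw
  have hirr : Irreducible (Polynomial.X ^ 3 - Polynomial.C (⟨T ^ 3, h1⟩ : M)) := by
    apply X_pow_sub_C_irreducible_of_prime Nat.prime_three
    intro b hb
    apply h2
    have hb' : (b : L) ^ 3 = T ^ 3 := congrArg (algebraMap M L) hb
    set W : L := algebraMap K L w with hW
    have hWM : W ∈ M := M.algebraMap_mem w
    have hWq : W ^ 2 + W + 1 = 0 := by
      have := congrArg (algebraMap K L) hw
      simpa using this
    have hf : ((b : L) - T) * (((b : L) - W * T) * ((b : L) - W ^ 2 * T)) = 0 := by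
      linear_combination hb' + ((b : L) - T) * (T ^ 2 * (W - 1) - (b : L) * T) * hWq
    have hWW : W ^ 3 = 1 := by linear_combination (W - 1) * hWq
    rcases mul_eq_zero.mp hf with h | h
    · have : T = b := by linear_combination - h
      rw [this]; exact b.2
    · rcases mul_eq_zero.mp h with h | h
      · have : T = W ^ 2 * b := by linear_combination (- W ^ 2) * h - T * hWW
        rw [this]; exact mul_mem (pow_mem hWM 2) b.2
      · have : T = W * b := by linear_combination (- W) * h - T * hWW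
        rw [this]; exact mul_mem hWM b.2
  have hmonic : (Polynomial.X ^ 3 - Polynomial.C (⟨T ^ 3, h1⟩ : M)).Monic :=
    Polynomial.monic_X_pow_sub_C _ (by norm_num)
  have hroot : Polynomial.aeval T (Polynomial.X ^ 3 - Polynomial.C (⟨T ^ 3, h1⟩ : M)) = 0 := by
    simp only [map_sub, map_pow, Polynomial.aeval_X, Polynomial.aeval_C]
    exact sub_eq_zero.2 rfl
  have hmin := minpoly.eq_of_irreducible_of_monic hirr hroot hmonic
  have hint : IsIntegral M T := ⟨_, hmonic, hroot⟩
  have hf := IntermediateField.adjoin.finrank hint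
  rw [← hmin, Polynomial.natDegree_X_pow_sub_C, h3, IntermediateField.finrank_top'] at hf
  exact hf

end Abstract

theorem DEG_mm_mem {K : Type u} [Field K] (N : IntermediateField K (L3 K)) (b c d : K) (r t : L3 K)
    (hr : r ∈ N) (ht : t ∈ N) : mm b c d r t ∈ N :=
  add_mem (add_mem (mul_mem (N.algebraMap_mem b) hr) (N.algebraMap_mem c))
    (mul_mem (N.algebraMap_mem d) ht)

theorem DEG_Gam_mem {K : Type u} [Field K] (N : IntermediateField K (L3 K)) (b c d : K) (r t : L3 K)
    (hr : r ∈ N) (ht : t ∈ N) : Gam b c d r t ∈ N :=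
  add_mem (add_mem (pow_mem (DEG_mm_mem N b c d r t hr ht) 3) (add_mem (pow_mem hr 3) (one_mem _)))
    (pow_mem ht 3)

theorem p_DEG (hQUA : Stmt_QUA.{u}) (hCUB : Stmt_CUB.{u}) (hIND : Stmt_IND.{u}) : Stmt_DEG.{u} := by
  intro K _ h3 w hw b c d r t A B hrho hA0 hB0 hG htop
  obtain ⟨P, hPd⟩ : ∃ P, P = A ^ 2 / B := ⟨_, rfl⟩
  obtain ⟨Q, hQd⟩ : ∃ Q, Q = (r ^ 3 + 1) * B ^ 2 / A := ⟨_, rfl⟩
  obtain ⟨rho, hrd⟩ : ∃ rho, rho = r ^ 3 + 1 := ⟨_, rfl⟩
  obtain ⟨m, hm⟩ : ∃ m, m = mm b c d r t := ⟨_, rfl⟩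
  obtain ⟨G, hGd⟩ : ∃ G, G = Gam b c d r t := ⟨_, rfl⟩
  rw [← hrd, ← hm, ← hGd] at hG
  rw [← hrd] at hrho hQd ⊢
  rw [← hPd, ← hQd]
  obtain ⟨h, hhd⟩ : ∃ h, h = 3 * m - P := ⟨_, rfl⟩
  obtain ⟨g, hgd⟩ : ∃ g, g = G / P := ⟨_, rfl⟩
  have hP0 : P ≠ 0 := by rw [hPd]; exact div_ne_zero (pow_ne_zero 2 hA0) hB0
  have hPB : P * B = A ^ 2 := by rw [hPd]; field_simp
  have hQA : Q * A = rho * B ^ 2 := by rw [hQd]; field_simp
  have hPQ : P * Q = rho * A * B := by rw [hPd, hQd]; field_simp
  have hP2Q : P ^ 2 * Q = rho * A ^ 3 := by rw [hPd, hQd]; field_simp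
  have hPQ2 : P * Q ^ 2 = rho ^ 2 * B ^ 3 := by rw [hPd, hQd]; field_simp
  have hgP : P * g = G := by rw [hgd]; field_simp
  have hQ : Q ^ 2 - h * Q + g = 0 := by
    have : P * (Q ^ 2 - h * Q + g) = 0 := by
      rw [hhd]
      linear_combination hPQ2 + hP2Q - 3 * m * hPQ + hgP + hG
    rcases mul_eq_zero.mp this with h | h
    · exact absurd h hP0
    · exact h
  have hA3 : A ^ 3 = P ^ 2 / rho * Q := by
    field_simp
    linear_combination - hP2Q
  set N : IntermediateField K (L3 K) := IntermediateField.adjoin K ({r, t, P} : Set (L3 K)) with hN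
  set M : IntermediateField K (L3 K) := IntermediateField.adjoin K ({r, t, P, Q} : Set (L3 K)) with hM
  have hrN : r ∈ N := IntermediateField.subset_adjoin _ _ (by simp)
  have htN : t ∈ N := IntermediateField.subset_adjoin _ _ (by simp)
  have hPN : P ∈ N := IntermediateField.subset_adjoin _ _ (by simp)
  have hmN : m ∈ N := by rw [hm]; exact DEG_mm_mem N b c d r t hrN htN
  have hGN : G ∈ N := by rw [hGd]; exact DEG_Gam_mem N b c d r t hrN htN
  have hrhoN : rho ∈ N := by rw [hrd]; exact add_mem (pow_mem hrN 3) (one_mem _)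
  have h3N : (3 : L3 K) ∈ N := by
    exact_mod_cast N.natCast_mem 3
  have hhN : h ∈ N := by rw [hhd]; exact sub_mem (mul_mem h3N hmN) hPN
  have hgN : g ∈ N := by rw [hgd]; exact div_mem hGN hPN
  have halg : Algebra.IsAlgebraic N (L3 K) := by
    let Ω : IntermediateField N (L3 K) := algebraicClosure N (L3 K)
    have hΩN : ∀ x ∈ N, x ∈ Ω := fun x hx => Ω.algebraMap_mem ⟨x, hx⟩
    have hΩcl : ∀ x : L3 K, IsAlgebraic Ω x → x ∈ Ω := by
      intro x hx
      rw [mem_algebraicClosure_iff]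
      exact hx.restrictScalars N
    have hQΩ : Q ∈ Ω := by
      rw [mem_algebraicClosure_iff]
      refine ⟨Polynomial.X ^ 2 - Polynomial.C (⟨h, hhN⟩ : N) * Polynomial.X + Polynomial.C (⟨g, hgN⟩ : N), ?_, ?_⟩
      · have hm : (Polynomial.X ^ 2 - Polynomial.C (⟨h, hhN⟩ : N) * Polynomial.X +
          Polynomial.C (⟨g, hgN⟩ : N)).Monic := by monicity!
        exact hm.ne_zero
      · simp only [map_sub, map_add, map_mul, map_pow, Polynomial.aeval_X, Polynomial.aeval_C]
        exact hQ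
    have hAΩ : A ∈ Ω := by
      apply hΩcl
      have h1 : A ^ 3 ∈ Ω := by
        rw [hA3]
        exact mul_mem (div_mem (pow_mem (hΩN _ hPN) 2) (hΩN _ hrhoN)) hQΩ
      refine ⟨Polynomial.X ^ 3 - Polynomial.C (⟨A ^ 3, h1⟩ : Ω), ?_, ?_⟩
      · exact (Polynomial.monic_X_pow_sub_C _ (by norm_num)).ne_zero
      · simp only [map_sub, map_pow, Polynomial.aeval_X, Polynomial.aeval_C]
        exact sub_eq_zero.2 rfl
    have hBΩ : B ∈ Ω := by
      have : B = A ^ 2 / P := by field_simp; linear_combination hPB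
      rw [this]
      exact div_mem (pow_mem hAΩ 2) (hΩN _ hPN)
    have hall : ∀ x ∈ IntermediateField.adjoin K ({r, t, A, B} : Set (L3 K)), x ∈ Ω := by
      intro x hx
      induction hx using IntermediateField.adjoin_induction with
      | mem x hx =>
        simp only [Set.mem_insert_iff, Set.mem_singleton_iff] at hx
        rcases hx with rfl | rfl | rfl | rfl
        · exact hΩN _ hrN
        · exact hΩN _ htN
        · exact hAΩ
        · exact hBΩ
      | algebraMap x =>
        rw [IsScalarTower.algebraMap_apply K N (L3 K)]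
        exact Ω.algebraMap_mem _
      | add x y _ _ hx hy => exact add_mem hx hy
      | inv x _ hx => exact inv_mem hx
      | mul x y _ _ hx hy => exact mul_mem hx hy
    refine ⟨fun x => ?_⟩
    have := hall x (by rw [htop]; trivial)
    rwa [mem_algebraicClosure_iff] at this
  obtain ⟨f, hf0, hf1, hf2, hfN⟩ := hIND K r t P halg
  have hfc : ∀ a : K, f (cv a) = cv a := fun a => f.commutes a
  have hfm : f (mm b c d (xv K 0) (xv K 1)) = m := by
    rw [hm, mm, mm, map_add, map_add, map_mul, map_mul, hfc, hfc, hfc, hf0, hf1]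
  have hfG : f (Gam b c d (xv K 0) (xv K 1)) = G := by
    rw [hGd, Gam, Gam, map_add, map_add, map_add, map_pow, map_pow, map_pow, hfm, hf0, hf1, map_one, hm]
  have hQN : Q ∉ N := by
    intro hQN
    obtain ⟨z, hz⟩ := (hfN Q).mp hQN
    apply hQUA K h3 b c d z
    apply f.toRingHom.injective
    change f _ = f _
    rw [map_zero, map_add, map_sub, map_mul, map_pow, map_sub, map_mul, map_div₀, hfm, hfG, hf2, hz]
    have : f 3 = 3 := map_ofNat f 3
    rw [this]
    rw [hhd, hgd] at hQ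
    exact hQ
  have hcube : ∀ z ∈ N, z ^ 3 ≠ G * rho := by
    intro z hz he
    obtain ⟨y, hy⟩ := (hfN z).mp hz
    apply hCUB K h3 w hw b c d y
    apply f.toRingHom.injective
    change f _ = f _
    rw [map_pow, map_mul, map_add, map_pow, map_one, hfG, hf0, hy, ← hrd]
    exact he
  have hMx : ∀ z ∈ M, ∃ x ∈ N, ∃ y ∈ N, z = x + y * Q := by
    apply DEG_quad N M ({r, t, P, Q} : Set (L3 K)) Q h g hM ?_ hhN hgN hQ hQN
    intro s hs
    simp only [Set.mem_insert_iff, Set.mem_singleton_iff] at hs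
    rcases hs with rfl | rfl | rfl | rfl
    · exact Or.inl hrN
    · exact Or.inl htN
    · exact Or.inl hPN
    · exact Or.inr rfl
  have hAM : A ∉ M := DEG_notin N M A P Q h g rho G hMx hPN hrhoN hP0 hrho hhN hgN hQ hQN hgd hA3 hcube
  have hrM : r ∈ M := IntermediateField.subset_adjoin _ _ (by simp)
  have htM : t ∈ M := IntermediateField.subset_adjoin _ _ (by simp)
  have hPM : P ∈ M := IntermediateField.subset_adjoin _ _ (by simp)
  have hQM : Q ∈ M := IntermediateField.subset_adjoin _ _ (by simp)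
  have hrhoM : rho ∈ M := by rw [hrd]; exact add_mem (pow_mem hrM 3) (one_mem _)
  have hA3M : A ^ 3 ∈ M := by
    rw [hA3]
    exact mul_mem (div_mem (pow_mem hPM 2) hrhoM) hQM
  refine DEG_finrank w hw M A hA3M hAM ?_
  rw [eq_top_iff]
  intro x _
  have hx : x ∈ IntermediateField.adjoin K ({r, t, A, B} : Set (L3 K)) := by rw [htop]; trivial
  set E := IntermediateField.adjoin M ({A} : Set (L3 K)) with hE
  have hEM : ∀ x ∈ M, x ∈ E := fun x hx => E.algebraMap_mem ⟨x, hx⟩
  have hAE : A ∈ E := IntermediateField.subset_adjoin _ _ (by simp)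
  have hBE : B ∈ E := by
    have : B = A ^ 2 / P := by field_simp; linear_combination hPB
    rw [this]
    exact div_mem (pow_mem hAE 2) (hEM _ hPM)
  induction hx using IntermediateField.adjoin_induction with
  | mem x hx =>
    simp only [Set.mem_insert_iff, Set.mem_singleton_iff] at hx
    rcases hx with rfl | rfl | rfl | rfl
    · exact hEM _ hrM
    · exact hEM _ htM
    · exact hAE
    · exact hBE
  | algebraMap x => exact hEM _ (M.algebraMap_mem x)
  | add x y _ _ hx hy => exact add_mem (hx trivial) (hy trivial)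
  | inv x _ hx => exact inv_mem (hx trivial)
  | mul x y _ _ hx hy => exact mul_mem (hx trivial) (hy trivial)

end Pool.Agent.Work.CubicOdd.DA
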