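import Pool.Agent.Work.MP_2f0ece_A.Interface

/-! Block GAM of the project MP_2f0ece_A (helper12). -/

set_option autoImplicit false

namespace Pool.Agent.Work.CubicOdd.DA

open MvPolynomial Pool.Agent.Work.CubicOdd

universe u

theorem GAM_poly {K : Type u} [Field K] (h3 : (3 : K) ≠ 0) (b c : K)
    (h : (Polynomial.C b * Polynomial.X + Polynomial.C c) ^ 3 +
      ((Polynomial.X : Polynomial K) ^ 3 + 1) = 0) : False := by
  have e : (Polynomial.C b * Polynomial.X + Polynomial.C c) ^ 3 +
      ((Polynomial.X : Polynomial K) ^ 3 + 1) =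
      Polynomial.C (b ^ 3 + 1) * Polynomial.X ^ 3 + Polynomial.C (3 * b ^ 2 * c) * Polynomial.X ^ 2
        + Polynomial.C (3 * b * c ^ 2) * Polynomial.X + Polynomial.C (c ^ 3 + 1) := by
    have t3 : (Polynomial.C (3 : K)) = 3 := by
      have := Polynomial.C_ofNat (R := K) 3
      simpa using this
    simp only [map_add, map_mul, map_pow, map_one, t3]
    ring
  rw [e] at h
  have c3 : b ^ 3 + 1 = 0 := by
    have := congrArg (fun q => Polynomial.coeff q 3) h
    simpa [Polynomial.coeff_X, Polynomial.coeff_C, Polynomial.coeff_X_pow,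
      -Polynomial.C_add, -Polynomial.C_mul, -map_add, -map_mul] using this
  have c2 : 3 * b ^ 2 * c = 0 := by
    have := congrArg (fun q => Polynomial.coeff q 2) h
    simpa only [Polynomial.coeff_add, Polynomial.coeff_C_mul, Polynomial.coeff_X, Polynomial.coeff_C,
      Polynomial.coeff_X_pow, Polynomial.coeff_zero, reduceIte, Nat.reduceEqDiff, mul_zero, mul_one,
      zero_add, add_zero, OfNat.one_ne_ofNat, OfNat.ofNat_ne_zero] using this
  have c0 : c ^ 3 + 1 = 0 := by
    have := congrArg (fun q => Polynomial.coeff q 0) h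
    simpa [Polynomial.coeff_X, Polynomial.coeff_C, Polynomial.coeff_X_pow,
      -Polynomial.C_add, -Polynomial.C_mul, -map_add, -map_mul] using this
  have hb : b ≠ 0 := by
    rintro rfl
    simp at c3
  have hc : c ≠ 0 := by
    rintro rfl
    simp at c0
  exact (mul_ne_zero (mul_ne_zero h3 (pow_ne_zero 2 hb)) hc) c2

theorem GAM_image {K : Type u} [Field K] (b c d : K) :
    Gam b c d (xv K 0) (xv K 1) = algebraMap (MvPolynomial (Fin 3) K) (L3 K)
      ((C b * X 0 + C c + C d * X 1) ^ 3 + (X 0 ^ 3 + 1) + X 1 ^ 3) := by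
  have hcv : ∀ a : K, cv a = algebraMap (MvPolynomial (Fin 3) K) (L3 K) (C a) := by
    intro a
    unfold cv
    rw [IsScalarTower.algebraMap_apply K (MvPolynomial (Fin 3) K) (L3 K)]
    rfl
  simp only [Gam, mm, hcv, xv, map_add, map_mul, map_pow, map_one]

theorem p_GAM : Stmt_GAM.{u} := by
  intro K _ h3 b c d h
  rw [GAM_image] at h
  have hinj : Function.Injective (algebraMap (MvPolynomial (Fin 3) K) (L3 K)) :=
    IsFractionRing.injective _ _
  have h0 : ((C b * X 0 + C c + C d * X 1) ^ 3 + (X 0 ^ 3 + 1) + X 1 ^ 3 :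
      MvPolynomial (Fin 3) K) = 0 := hinj (by rw [h, map_zero])
  have h1 := congrArg (MvPolynomial.aeval (![Polynomial.X, 0, 0] : Fin 3 → Polynomial K)) h0
  simp only [map_add, map_mul, map_pow, map_one, map_zero, MvPolynomial.aeval_X,
    MvPolynomial.algHom_C, Polynomial.algebraMap_eq] at h1
  refine GAM_poly h3 b c ?_
  simpa using h1

end Pool.Agent.Work.CubicOdd.DA
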