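import Pool.Agent.Work.MP_2f0ece_A.Interface

/-!
# Block IND: transfer to another transcendence basis
-/

set_option autoImplicit false

namespace Pool.Agent.Work.CubicOdd.DA

open MvPolynomial Pool.Agent.Work.CubicOdd

universe u

open scoped IntermediateField.algebraAdjoinAdjoin in
theorem IND_indep (K : Type u) [Field K] (v : Fin 3 → L3 K)
    (halg : Algebra.IsAlgebraic (IntermediateField.adjoin K (Set.range v)) (L3 K)) :
    AlgebraicIndependent K v := by
  have h2 : Algebra.IsAlgebraic (Algebra.adjoin K (Set.range v)) (L3 K) := by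
    rw [IsFractionRing.comap_isAlgebraic_iff
      (K := IntermediateField.adjoin K (Set.range v))]
    exact halg
  have h3 : Cardinal.lift.{u, 0} (Cardinal.mk (Fin 3)) ≤
      Cardinal.lift.{0, u} (Algebra.trdeg K (L3 K)) := by
    simpa using three_le_trdeg (K := K)
  exact (Algebra.IsAlgebraic.isTranscendenceBasis_of_lift_le_trdeg_of_finite K _ h3).1

theorem IND_aux (K : Type u) [Field K] (v : Fin 3 → L3 K)
    (halg : Algebra.IsAlgebraic (IntermediateField.adjoin K (Set.range v)) (L3 K)) :
    ∃ f : L3 K →ₐ[K] L3 K, (∀ i, f (xv K i) = v i) ∧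
      ∀ z : L3 K, z ∈ IntermediateField.adjoin K (Set.range v) ↔ ∃ y, f y = z := by
  have hind := IND_indep K v halg
  have hinj : Function.Injective (aeval v : MvPolynomial (Fin 3) K →ₐ[K] L3 K) := hind
  let f : L3 K →ₐ[K] L3 K := IsFractionRing.liftAlgHom (K := L3 K) hinj
  have hf : ∀ a : MvPolynomial (Fin 3) K, f (algebraMap _ (L3 K) a) = aeval v a := by
    intro a
    exact IsFractionRing.lift_algebraMap
      (g := (aeval v : MvPolynomial (Fin 3) K →ₐ[K] L3 K).toRingHom) hinj a
  have hmem : ∀ a : MvPolynomial (Fin 3) K,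
      (aeval v a : L3 K) ∈ IntermediateField.adjoin K (Set.range v) := by
    intro a
    apply IntermediateField.algebra_adjoin_le_adjoin
    rw [Algebra.adjoin_range_eq_range_aeval]
    exact ⟨a, rfl⟩
  refine ⟨f, ?_, ?_⟩
  · intro i
    unfold xv
    rw [hf, aeval_X]
  · intro z
    constructor
    · intro hz
      have hle : IntermediateField.adjoin K (Set.range v) ≤ f.fieldRange := by
        rw [IntermediateField.adjoin_le_iff]
        rintro _ ⟨i, rfl⟩
        refine ⟨xv K i, ?_⟩
        unfold xv
        show f _ = _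
        rw [hf, aeval_X]
      exact hle hz
    · rintro ⟨y, rfl⟩
      obtain ⟨a, b, hb, rfl⟩ := IsFractionRing.div_surjective (A := MvPolynomial (Fin 3) K) y
      rw [map_div₀, hf, hf]
      exact div_mem (hmem a) (hmem b)

theorem p_IND : Stmt_IND.{u} := by
  intro K _ r t P halg
  have hrange : Set.range (![r, t, P] : Fin 3 → L3 K) = {r, t, P} := by
    ext x
    simp only [Set.mem_range, Set.mem_insert_iff, Set.mem_singleton_iff]
    constructor
    · rintro ⟨i, rfl⟩
      fin_cases i
      · left; rfl
      · right; left; rfl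
      · right; right; rfl
    · rintro (rfl | rfl | rfl)
      · exact ⟨0, rfl⟩
      · exact ⟨1, rfl⟩
      · exact ⟨2, rfl⟩
  have halg' : Algebra.IsAlgebraic
      (IntermediateField.adjoin K (Set.range (![r, t, P] : Fin 3 → L3 K))) (L3 K) := by
    rw [hrange]
    exact halg
  obtain ⟨f, h1, h2⟩ := IND_aux K ![r, t, P] halg'
  rw [hrange] at h2
  exact ⟨f, h1 0, h1 1, h1 2, h2⟩

end Pool.Agent.Work.CubicOdd.DA
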