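import Pool.Agent.Work.MP_2f0ece_A.Interface
import Pool.Agent.Work.MP_2f0ece_helper84.Fermat

/-!
# Block IRR (helper87)
-/

set_option autoImplicit false

namespace Pool.Agent.Work.CubicOdd.DA

open MvPolynomial Pool.Agent.Work.CubicOdd

universe u

theorem IRR_cube {K : Type u} [Field K] (h3 : (3 : K) ≠ 0) (s : Polynomial K)
    (h : s ^ 3 = - (Polynomial.X ^ 3 + 1)) : False := by
  have hd := congrArg Polynomial.natDegree h
  have h4 : (Polynomial.X ^ 3 + 1 : Polynomial K).natDegree = 3 := by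
    compute_degree!
  rw [Polynomial.natDegree_pow, Polynomial.natDegree_neg, h4] at hd
  have hd1 : s.natDegree ≤ 1 := by omega
  obtain ⟨a, b, hab⟩ := Polynomial.exists_eq_X_add_C_of_natDegree_le_one hd1
  have e : Polynomial.C (a ^ 3 + 1) * Polynomial.X ^ 3 + Polynomial.C (3 * a ^ 2 * b) * Polynomial.X ^ 2
      + Polynomial.C (3 * a * b ^ 2) * Polynomial.X + Polynomial.C (b ^ 3 + 1) = (0 : Polynomial K) := by
    rw [hab] at h
    have h3' : (Polynomial.C (3 : K)) = 3 := by
      exact map_ofNat Polynomial.C 3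
    simp only [map_add, map_mul, map_pow, map_one, h3']
    linear_combination h
  have c3 := congrArg (fun p => Polynomial.coeff p 3) e
  have c2 := congrArg (fun p => Polynomial.coeff p 2) e
  have c0 := congrArg (fun p => Polynomial.coeff p 0) e
  simp [Polynomial.coeff_X, Polynomial.coeff_C, Polynomial.coeff_X_pow, -map_add, -map_mul, -map_pow, -map_ofNat] at c3 c2 c0
  rcases c2 with (c2 | c2) | c2
  · exact h3 c2
  · rw [c2] at c3
    simp at c3
  · rw [c2] at c0
    simp at c0

theorem IRR_hom {K : Type u} [Field K] (b c d : K) : (cub b c d).IsHomogeneous 3 := by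
  have hX : ∀ i : Fin 5, (X i : MvPolynomial (Fin 5) K).IsHomogeneous 1 := fun i => isHomogeneous_X _ _
  have hXp : ∀ (i : Fin 5) (n : ℕ), (X i ^ n : MvPolynomial (Fin 5) K).IsHomogeneous n :=
    fun i n => isHomogeneous_X_pow _ _
  have hCX : ∀ (a : K) (i : Fin 5), (C a * X i : MvPolynomial (Fin 5) K).IsHomogeneous 1 := by
    intro a i
    have := (isHomogeneous_C (Fin 5) a).mul (hX i)
    simpa using this
  have h1 := ((((hXp 0 3).add (hXp 1 3)).add (hXp 2 3)).add (hXp 3 3)).add (hXp 4 3)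
  have h2 := ((hX 0).mul (hX 1)).mul (((hCX b 2).add (hCX c 3)).add (hCX d 4))
  exact h1.sub h2

theorem IRR_irr {K : Type u} [Field K] (h3 : (3 : K) ≠ 0) (b c d : K) : Irreducible (cub b c d) := by
  rw [← MulEquiv.irreducible_iff (finSuccEquiv K 4)]
  have e2 : finSuccEquiv K 4 (cub b c d) =
      Polynomial.X ^ 3 + Polynomial.C (- (X 0 * (C b * X 1 + C c * X 2 + C d * X 3))) * Polynomial.X +
        Polynomial.C (X 0 ^ 3 + X 1 ^ 3 + X 2 ^ 3 + X 3 ^ 3) := by
    have h0 : (finSuccEquiv K 4) (X 0) = Polynomial.X := finSuccEquiv_X_zero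
    have h1 : (finSuccEquiv K 4) (X 1) = Polynomial.C (X 0) := finSuccEquiv_X_succ (j := 0)
    have h2 : (finSuccEquiv K 4) (X 2) = Polynomial.C (X 1) := finSuccEquiv_X_succ (j := 1)
    have h3 : (finSuccEquiv K 4) (X 3) = Polynomial.C (X 2) := finSuccEquiv_X_succ (j := 2)
    have h4 : (finSuccEquiv K 4) (X 4) = Polynomial.C (X 3) := finSuccEquiv_X_succ (j := 3)
    have hC : ∀ a : K, (finSuccEquiv K 4) (C a) = Polynomial.C (C a) := by
      intro a
      simp [finSuccEquiv_apply]
    rw [cub]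
    simp only [map_add, map_sub, map_mul, map_pow, map_neg, h0, h1, h2, h3, h4, hC]
    ring
  rw [e2]
  apply irreducible_cubic
  intro r hr
  let ψ : MvPolynomial (Fin 4) K →ₐ[K] Polynomial K := aeval ![0, Polynomial.X, 1, 0]
  have h := congrArg ψ hr
  simp only [map_add, map_mul, map_pow, map_zero, map_neg] at h
  have p0 : ψ (X 0) = 0 := by simp [ψ]
  have p1 : ψ (X 1) = Polynomial.X := by simp [ψ]
  have p2 : ψ (X 2) = 1 := by simp [ψ]
  have p3 : ψ (X 3) = 0 := by simp [ψ]
  rw [p0, p1, p2, p3] at h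
  exact IRR_cube h3 (ψ r) (by linear_combination h)

theorem p_IRR : Stmt_IRR.{u} := by
  intro K _ h3 b c d
  exact ⟨IRR_hom b c d, IRR_irr h3 b c d⟩

end Pool.Agent.Work.CubicOdd.DA
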