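import Pool.Agent.Work.MP_2f0ece_A.Interface

/-! # Cubic threefolds, block NZV: nonvanishing -/

set_option autoImplicit false

namespace Pool.Agent.Work.CubicOdd.DA

open MvPolynomial Pool.Agent.Work.CubicOdd

universe u

section

variable {R S : Type u} [CommRing R] [CommRing S]

theorem NZV_map_pA (φ : R →+* S) (w b c d r e f : R) :
    φ (pA w b c d r e f) = pA (φ w) (φ b) (φ c) (φ d) (φ r) (φ e) (φ f) := by
  simp [pA, det3, colB, colX, colT]

theorem NZV_map_pB (φ : R →+* S) (w b c d r e f : R) :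
    φ (pB w b c d r e f) = pB (φ w) (φ b) (φ c) (φ d) (φ r) (φ e) (φ f) := by
  simp [pB, det3, colA, colX, colT]

theorem NZV_map_pX (φ : R →+* S) (w b c d r e f : R) :
    φ (pX w b c d r e f) = pX (φ w) (φ b) (φ c) (φ d) (φ r) (φ e) (φ f) := by
  simp [pX, det3, colA, colB, colT]

theorem NZV_map_pT (φ : R →+* S) (w b c d r e f : R) :
    φ (pT w b c d r e f) = pT (φ w) (φ b) (φ c) (φ d) (φ r) (φ e) (φ f) := by
  simp [pT, det3, colA, colB, colX]

/-- the determinant -/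
def NZV_D (w b c d r e f : R) : R :=
  ((b * r + c) * pX w b c d r e f + d * pT w b c d r e f) ^ 2 -
    ((b * r + c) * pX w b c d r e f + d * pT w b c d r e f) * pT w b c d r e f +
    pT w b c d r e f ^ 2 -
    (r ^ 3 + 1) * pB w b c d r e f * (pA w b c d r e f + w ^ 2 * pX w b c d r e f)

theorem NZV_map_D (φ : R →+* S) (w b c d r e f : R) :
    φ (NZV_D w b c d r e f) = NZV_D (φ w) (φ b) (φ c) (φ d) (φ r) (φ e) (φ f) := by
  unfold NZV_D
  simp only [map_sub, map_add, map_mul, map_pow, map_one, NZV_map_pA, NZV_map_pB, NZV_map_pX,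
    NZV_map_pT]

/-- the norm of `eta` -/
def NZV_N (r e f : R) : R :=
  1 + (r ^ 3 + 1) * e ^ 3 + (r ^ 3 + 1) ^ 2 * f ^ 3 - 3 * (r ^ 3 + 1) * e * f

theorem NZV_map_N (φ : R →+* S) (r e f : R) :
    φ (NZV_N r e f) = NZV_N (φ r) (φ e) (φ f) := by
  unfold NZV_N
  simp only [map_sub, map_add, map_mul, map_pow, map_one, map_ofNat]

theorem NZV_eX (w b c d x : R) : pX w b c d 0 x 0 = w ^ 2 * (w * d + 1) * x ^ 3 + (d + 1) := by
  simp [pX, det3, colA, colB, colT]
  ring

theorem NZV_eA (w b c d x : R) :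
    pA w b c d 0 x 0 = -w * (w * d + 1) * x ^ 3 + c * (1 - w) * x - (d + 1) := by
  simp [pA, det3, colB, colX, colT]
  ring

theorem NZV_eB1 (w b c d x : R) : pB w b c d 0 x 0 = (w - 1) * x * (w * c * x + (d + 1)) := by
  simp [pB, det3, colA, colX, colT]
  ring

theorem NZV_eB2 (w b c d x : R) :
    pB w b c d x 1 0 = (w - 1) * (w * (b * x + c) + (d + 1)) := by
  simp [pB, det3, colA, colX, colT]
  ring

theorem NZV_eB3 (w x : R) : pB w 0 0 (-1) 0 0 x = (1 - w ^ 2) ^ 2 * x ^ 2 := by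
  simp [pB, det3, colA, colX, colT]
  ring

theorem NZV_eD1 (w b c d x : R) : NZV_D w b c d x 0 0 = 3 * (b * x + c) ^ 2 := by
  simp [NZV_D, pA, pB, pX, pT, det3, colA, colB, colX, colT]
  ring

theorem NZV_eD2 (w d x : R) (hw : w ^ 2 + w + 1 = 0) : NZV_D w 0 0 d 0 x 0 =
    -3 * (d ^ 2 - d + 1) * x ^ 4 - 3 * (d + 1) ^ 2 * x := by
  simp [NZV_D, pA, pB, pX, pT, det3, colA, colB, colX, colT]
  linear_combination (-1 * w ^ 4 * d ^ 2 * x ^ 4 - 1 * w ^ 4 * d * x ^ 4 +
    2 * w ^ 3 * d ^ 2 * x ^ 4 + w ^ 3 * d * x ^ 4 - 1 * w ^ 3 * x ^ 4 + 3 * w ^ 2 * x ^ 4 -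
    3 * w * d ^ 2 * x ^ 4 - 1 * w * d ^ 2 * x + 2 * w * d * x ^ 4 - 2 * w * d * x -
    4 * w * x ^ 4 - 1 * w * x + 3 * d ^ 2 * x ^ 4 + 2 * d ^ 2 * x - 3 * d * x ^ 4 +
    4 * d * x + 3 * x ^ 4 + 2 * x) * hw

end

theorem NZV_co {K : Type u} [Field K] (a0 a1 a2 a3 a4 : K)
    (h : Polynomial.C a4 * Polynomial.X ^ 4 + Polynomial.C a3 * Polynomial.X ^ 3 +
      Polynomial.C a2 * Polynomial.X ^ 2 + Polynomial.C a1 * Polynomial.X +
      Polynomial.C a0 = (0 : Polynomial K)) :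
    a0 = 0 ∧ a1 = 0 ∧ a2 = 0 ∧ a3 = 0 ∧ a4 = 0 := by
  refine ⟨?_, ?_, ?_, ?_, ?_⟩
  · have := congrArg (fun p => Polynomial.coeff p 0) h
    simpa [Polynomial.coeff_C, Polynomial.coeff_X, Polynomial.coeff_X_pow] using this
  · have := congrArg (fun p => Polynomial.coeff p 1) h
    simpa [Polynomial.coeff_C, Polynomial.coeff_X, Polynomial.coeff_X_pow] using this
  · have := congrArg (fun p => Polynomial.coeff p 2) h
    simpa [Polynomial.coeff_C, Polynomial.coeff_X, Polynomial.coeff_X_pow] using this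
  · have := congrArg (fun p => Polynomial.coeff p 3) h
    simpa [Polynomial.coeff_C, Polynomial.coeff_X, Polynomial.coeff_X_pow] using this
  · have := congrArg (fun p => Polynomial.coeff p 4) h
    simpa [Polynomial.coeff_C, Polynomial.coeff_X, Polynomial.coeff_X_pow] using this

section

variable {K : Type u} [Field K]

theorem NZV_sp (P : MvPolynomial (Fin 3) K)
    (h : algebraMap (MvPolynomial (Fin 3) K) (L3 K) P = 0) (v : Fin 3 → Polynomial K) :
    (aeval v : MvPolynomial (Fin 3) K →ₐ[K] Polynomial K).toRingHom P = 0 := by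
  have h1 : P = 0 := by
    apply IsFractionRing.injective (MvPolynomial (Fin 3) K) (L3 K)
    rw [h, map_zero]
  rw [h1, map_zero]

theorem NZV_cv (a : K) : (cv a : L3 K) = algebraMap (MvPolynomial (Fin 3) K) (L3 K) (C a) := by
  unfold cv
  rw [IsScalarTower.algebraMap_apply K (MvPolynomial (Fin 3) K) (L3 K)]
  rfl

theorem NZV_aC (v : Fin 3 → Polynomial K) (a : K) :
    (aeval v : MvPolynomial (Fin 3) K →ₐ[K] Polynomial K).toRingHom (C a) =
      Polynomial.C a := by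
  show aeval v (C a) = _
  rw [aeval_C]
  rfl

theorem NZV_aX (v : Fin 3 → Polynomial K) (i : Fin 3) :
    (aeval v : MvPolynomial (Fin 3) K →ₐ[K] Polynomial K).toRingHom (X i) = v i := by
  show aeval v (X i) = _
  rw [aeval_X]

theorem NZV_zA (w b c d : K) (h : pA (cv w) (cv b) (cv c) (cv d) (xv K 0) (xv K 1) (xv K 2) = 0)
    (v : Fin 3 → Polynomial K) : pA (Polynomial.C w) (Polynomial.C b) (Polynomial.C c)
      (Polynomial.C d) (v 0) (v 1) (v 2) = 0 := by
  simp only [NZV_cv, xv] at h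
  rw [← NZV_map_pA] at h
  have h2 := NZV_sp _ h v
  rw [NZV_map_pA, NZV_aC, NZV_aC, NZV_aC, NZV_aC, NZV_aX, NZV_aX, NZV_aX] at h2
  exact h2

theorem NZV_zB (w b c d : K) (h : pB (cv w) (cv b) (cv c) (cv d) (xv K 0) (xv K 1) (xv K 2) = 0)
    (v : Fin 3 → Polynomial K) : pB (Polynomial.C w) (Polynomial.C b) (Polynomial.C c)
      (Polynomial.C d) (v 0) (v 1) (v 2) = 0 := by
  simp only [NZV_cv, xv] at h
  rw [← NZV_map_pB] at h
  have h2 := NZV_sp _ h v
  rw [NZV_map_pB, NZV_aC, NZV_aC, NZV_aC, NZV_aC, NZV_aX, NZV_aX, NZV_aX] at h2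
  exact h2

theorem NZV_zX (w b c d : K) (h : pX (cv w) (cv b) (cv c) (cv d) (xv K 0) (xv K 1) (xv K 2) = 0)
    (v : Fin 3 → Polynomial K) : pX (Polynomial.C w) (Polynomial.C b) (Polynomial.C c)
      (Polynomial.C d) (v 0) (v 1) (v 2) = 0 := by
  simp only [NZV_cv, xv] at h
  rw [← NZV_map_pX] at h
  have h2 := NZV_sp _ h v
  rw [NZV_map_pX, NZV_aC, NZV_aC, NZV_aC, NZV_aC, NZV_aX, NZV_aX, NZV_aX] at h2
  exact h2

theorem NZV_zD (w b c d : K)
    (h : NZV_D (cv w) (cv b) (cv c) (cv d) (xv K 0) (xv K 1) (xv K 2) = 0)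
    (v : Fin 3 → Polynomial K) : NZV_D (Polynomial.C w) (Polynomial.C b) (Polynomial.C c)
      (Polynomial.C d) (v 0) (v 1) (v 2) = 0 := by
  simp only [NZV_cv, xv] at h
  rw [← NZV_map_D] at h
  have h2 := NZV_sp _ h v
  rw [NZV_map_D, NZV_aC, NZV_aC, NZV_aC, NZV_aC, NZV_aX, NZV_aX, NZV_aX] at h2
  exact h2

theorem NZV_zN (h : NZV_N (xv K 0) (xv K 1) (xv K 2) = 0)
    (v : Fin 3 → Polynomial K) : NZV_N (v 0) (v 1) (v 2) = 0 := by
  simp only [xv] at h
  rw [← NZV_map_N] at h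
  have h2 := NZV_sp _ h v
  rw [NZV_map_N, NZV_aX, NZV_aX, NZV_aX] at h2
  exact h2

end

theorem NZV_w {K : Type u} [Field K] (h3 : (3 : K) ≠ 0) (w : K) (hw : w ^ 2 + w + 1 = 0) :
    w ≠ 0 ∧ w ≠ 1 ∧ w ^ 2 ≠ 1 := by
  refine ⟨?_, ?_, ?_⟩
  · rintro rfl
    simp at hw
  · rintro rfl
    apply h3
    linear_combination hw
  · intro h
    apply h3
    have h1 : w = -2 := by linear_combination hw - h
    rw [h1] at h
    linear_combination h

theorem NZV_dw {K : Type u} [Field K] (h3 : (3 : K) ≠ 0) (w d : K) (hw : w ^ 2 + w + 1 = 0)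
    (h1 : d + 1 = 0) (h2 : w * d + 1 = 0) : False := by
  have hd : d = -1 := by linear_combination h1
  rw [hd] at h2
  exact (NZV_w h3 w hw).2.1 (by linear_combination -h2)

theorem p_NZV : Stmt_NZV.{u} := by
  intro K _ h3 w hw b c d r e f hr he hf
  subst hr he hf
  obtain ⟨hw0, hw1, hw2⟩ := NZV_w h3 w hw
  refine ⟨?_, ?_, ?_, ?_, ?_, ?_⟩
  · intro h
    have h1 : algebraMap (MvPolynomial (Fin 3) K) (L3 K) (X 0 ^ 3 + 1) = 0 := by
      rw [map_add, map_pow, map_one]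
      exact h
    have h2 := NZV_sp _ h1 ![0, 0, 0]
    rw [map_add, map_pow, map_one, NZV_aX] at h2
    simp at h2
  · intro h
    have h2 := NZV_zN h ![0, 0, 0]
    simp [NZV_N] at h2
  · intro h
    have h2 := NZV_zA w b c d h ![0, Polynomial.X, 0]
    have h4 : pA (Polynomial.C w) (Polynomial.C b) (Polynomial.C c) (Polynomial.C d) 0
      Polynomial.X 0 = 0 := h2
    rw [NZV_eA] at h4
    obtain ⟨e0, -, -, e3, -⟩ := NZV_co (-(d + 1)) (c * (1 - w)) 0 (-w * (w * d + 1)) 0 (by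
      simp only [map_neg, map_add, map_mul, map_sub, map_one, map_zero]
      linear_combination h4)
    have e3' : w * d + 1 = 0 := by
      rcases mul_eq_zero.1 e3 with h5 | h5
      · exact absurd (neg_eq_zero.1 h5) hw0
      · exact h5
    exact NZV_dw h3 w d hw (neg_eq_zero.1 e0) e3'
  · intro h
    have h4 : pB (Polynomial.C w) (Polynomial.C b) (Polynomial.C c) (Polynomial.C d) 0
      Polynomial.X 0 = 0 := NZV_zB w b c d h ![0, Polynomial.X, 0]
    have h5 : pB (Polynomial.C w) (Polynomial.C b) (Polynomial.C c) (Polynomial.C d)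
      Polynomial.X 1 0 = 0 := NZV_zB w b c d h ![Polynomial.X, 1, 0]
    rw [NZV_eB1] at h4
    rw [NZV_eB2] at h5
    obtain ⟨-, e1, e2, -, -⟩ := NZV_co 0 ((w - 1) * (d + 1)) ((w - 1) * (w * c)) 0 0 (by
      simp only [map_add, map_mul, map_sub, map_one, map_zero]
      linear_combination h4)
    obtain ⟨-, f1, -, -, -⟩ := NZV_co ((w - 1) * (w * c + (d + 1))) ((w - 1) * (w * b)) 0 0 0 (by
      simp only [map_add, map_mul, map_sub, map_one, map_zero]
      linear_combination h5)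
    have hw1' : w - 1 ≠ 0 := sub_ne_zero.2 hw1
    have hd : d = -1 := by
      have := (mul_eq_zero.1 e1).resolve_left hw1'
      linear_combination this
    have hc : c = 0 := by
      have := (mul_eq_zero.1 e2).resolve_left hw1'
      exact (mul_eq_zero.1 this).resolve_left hw0
    have hb : b = 0 := by
      have := (mul_eq_zero.1 f1).resolve_left hw1'
      exact (mul_eq_zero.1 this).resolve_left hw0
    have h6 : pB (Polynomial.C w) (Polynomial.C b) (Polynomial.C c) (Polynomial.C d) 0 0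
      Polynomial.X = 0 := NZV_zB w b c d h ![0, 0, Polynomial.X]
    rw [hb, hc, hd, map_zero, map_neg, map_one, NZV_eB3] at h6
    obtain ⟨-, -, g2, -, -⟩ := NZV_co 0 0 ((1 - w ^ 2) ^ 2) 0 0 (by
      simp only [map_mul, map_sub, map_one, map_zero, map_pow]
      linear_combination h6)
    have g3 := pow_eq_zero_iff (two_ne_zero) |>.1 g2
    exact hw2 (by linear_combination -g3)
  · intro h
    have h4 : pX (Polynomial.C w) (Polynomial.C b) (Polynomial.C c) (Polynomial.C d) 0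
      Polynomial.X 0 = 0 := NZV_zX w b c d h ![0, Polynomial.X, 0]
    rw [NZV_eX] at h4
    obtain ⟨e0, -, -, e3, -⟩ := NZV_co (d + 1) 0 0 (w ^ 2 * (w * d + 1)) 0 (by
      simp only [map_add, map_mul, map_one, map_zero, map_pow]
      linear_combination h4)
    exact NZV_dw h3 w d hw e0 ((mul_eq_zero.1 e3).resolve_left (pow_ne_zero 2 hw0))
  · intro h
    have h' : NZV_D (cv w) (cv b) (cv c) (cv d) (xv K 0) (xv K 1) (xv K 2) = 0 := h
    have h4 : NZV_D (Polynomial.C w) (Polynomial.C b) (Polynomial.C c) (Polynomial.C d)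
      Polynomial.X 0 0 = 0 := NZV_zD w b c d h' ![Polynomial.X, 0, 0]
    rw [NZV_eD1] at h4
    obtain ⟨e0, -, e2, -, -⟩ := NZV_co (3 * c ^ 2) (6 * (b * c)) (3 * b ^ 2) 0 0 (by
      simp only [map_mul, map_zero, map_pow, map_ofNat]
      linear_combination h4)
    have hc : c = 0 := pow_eq_zero_iff (two_ne_zero) |>.1 ((mul_eq_zero.1 e0).resolve_left h3)
    have hb : b = 0 := pow_eq_zero_iff (two_ne_zero) |>.1 ((mul_eq_zero.1 e2).resolve_left h3)
    have h5 : NZV_D (Polynomial.C w) (Polynomial.C b) (Polynomial.C c) (Polynomial.C d) 0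
      Polynomial.X 0 = 0 := NZV_zD w b c d h' ![0, Polynomial.X, 0]
    rw [hb, hc, map_zero, NZV_eD2 _ _ _ (by
      rw [← map_pow, ← map_add, ← Polynomial.C_1, ← map_add, hw, map_zero])] at h5
    obtain ⟨-, f1, -, -, f4⟩ := NZV_co 0 (3 * (d + 1) ^ 2) 0 0 (3 * (d ^ 2 - d + 1)) (by
      simp only [map_add, map_mul, map_sub, map_one, map_zero, map_pow, map_ofNat]
      linear_combination -h5)
    have hd : d + 1 = 0 := pow_eq_zero_iff (two_ne_zero) |>.1 ((mul_eq_zero.1 f1).resolve_left h3)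
    have hd' : d = -1 := by linear_combination hd
    have f5 := (mul_eq_zero.1 f4).resolve_left h3
    rw [hd'] at f5
    apply h3
    linear_combination f5

end Pool.Agent.Work.CubicOdd.DA
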