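import Pool.Agent.Work.MP_2f0ece_A.Interface

/-! # Block PAR (helper17) -/

set_option autoImplicit false

namespace Pool.Agent.Work.CubicOdd.DA

open MvPolynomial Pool.Agent.Work.CubicOdd

universe u

/-- Cramer -/
theorem PAR_cramer {R : Type u} [CommRing R] (a b x t : Fin 3 → R) (j : Fin 3) :
    a j * det3 b x t + b j * (-det3 a x t) + x j * det3 a b t + t j * (-det3 a b x) = 0 := by
  fin_cases j <;> simp only [det3] <;> ring_nf <;> simp <;> ring

theorem PAR_top {K : Type u} [Field K] (S : IntermediateField K (L3 K))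
    (h : ∀ i, xv K i ∈ S) : S = ⊤ := by
  have h1 : ∀ p : MvPolynomial (Fin 3) K, algebraMap (MvPolynomial (Fin 3) K) (L3 K) p ∈ S := by
    intro p
    induction p using MvPolynomial.induction_on with
    | C a =>
      have e1 : algebraMap (MvPolynomial (Fin 3) K) (L3 K) (C a) = algebraMap K (L3 K) a :=
        (IsScalarTower.algebraMap_apply K (MvPolynomial (Fin 3) K) (L3 K) a).symm
      rw [e1]
      exact S.algebraMap_mem a
    | add p q hp hq =>
      rw [map_add]
      exact add_mem hp hq
    | mul_X p i hp =>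
      rw [map_mul]
      exact mul_mem hp (h i)
  rw [eq_top_iff]
  intro z _
  obtain ⟨p, q, _, rfl⟩ := IsFractionRing.div_surjective (A := MvPolynomial (Fin 3) K) z
  exact div_mem (h1 p) (h1 q)

theorem p_PAR (hSOL : Stmt_SOL.{u}) (hNZV : Stmt_NZV.{u}) : Stmt_PAR.{u} := by
  intro K _ h3 w hw b c d
  obtain ⟨n1, n2, n3, n4, n5, n6⟩ := hNZV K h3 w hw b c d (xv K 0) (xv K 1) (xv K 2) rfl rfl rfl
  set r := xv K 0 with hr
  set e := xv K 1 with he
  set f := xv K 2 with hf
  have hwv : (cv w : L3 K) ^ 2 + cv w + 1 = 0 := by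
    unfold cv
    rw [← map_pow, ← map_add, ← map_one (algebraMap K (L3 K)), ← map_add, hw, map_zero]
  have sol := hSOL (L3 K) (cv w) (cv b) (cv c) (cv d) r e f hwv n2
  have row : ∀ j, colA (cv w) r e f j * pA (cv w) (cv b) (cv c) (cv d) r e f +
      colB (cv w) r e f j * pB (cv w) (cv b) (cv c) (cv d) r e f +
      colX (cv w) (cv b) (cv c) r e f j * pX (cv w) (cv b) (cv c) (cv d) r e f +
      colT (cv w) (cv d) e f j * pT (cv w) (cv b) (cv c) (cv d) r e f = 0 := by
    intro j
    exact PAR_cramer _ _ _ _ j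
  set W : L3 K := cv w with hW
  set b' : L3 K := cv b with hb
  set c' : L3 K := cv c with hc
  set d' : L3 K := cv d with hd
  set A := pA W b' c' d' r e f with hA
  set B := pB W b' c' d' r e f with hB
  set Y := pX W b' c' d' r e f with hY
  set T := pT W b' c' d' r e f with hT
  have r1 := row 1
  have r2 := row 2
  simp only [colA, colB, colX, colT, Matrix.cons_val_zero, Matrix.cons_val_one,
    Matrix.cons_val] at r1 r2
  have hW3 : W ^ 3 = 1 := by linear_combination (W - 1) * hwv
  refine ⟨r, T / Y, A / Y, B / Y, n1, div_ne_zero n3 n5, div_ne_zero n4 n5, ?_, ?_⟩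
  · unfold Gam mm
    rw [← hb, ← hc, ← hd]
    field_simp
    linear_combination sol
  · set S := IntermediateField.adjoin K ({r, T / Y, A / Y, B / Y} : Set (L3 K)) with hS
    have mr : r ∈ S := IntermediateField.subset_adjoin _ _ (by simp)
    have mt : T / Y ∈ S := IntermediateField.subset_adjoin _ _ (by simp)
    have mA : A / Y ∈ S := IntermediateField.subset_adjoin _ _ (by simp)
    have mB : B / Y ∈ S := IntermediateField.subset_adjoin _ _ (by simp)
    have mW : W ∈ S := S.algebraMap_mem w
    have mb : b' ∈ S := S.algebraMap_mem b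
    have mc : c' ∈ S := S.algebraMap_mem c
    have md : d' ∈ S := S.algebraMap_mem d
    have mρ : r ^ 3 + 1 ∈ S := add_mem (pow_mem mr 3) (one_mem S)
    set t := T / Y with ht
    set a := A / Y with ha
    set β := B / Y with hβ
    set m := b' * r + c' + d' * t with hm
    have mm' : m ∈ S := add_mem (add_mem (mul_mem mb mr) mc) (mul_mem md mt)
    set ρ := r ^ 3 + 1 with hρ
    have eT : T = t * Y := by rw [ht]; field_simp
    have eA : A = a * Y := by rw [ha]; field_simp
    have eB : B = β * Y := by rw [hβ]; field_simp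
    have s1 : (a + 1) + e * (W * m + t) + f * (W ^ 2 * ρ * β) = 0 := by
      have h1 : Y * ((a + 1) + e * (W * m + t) + f * (W ^ 2 * ρ * β)) = 0 := by
        rw [eA, eB, eT] at r1
        rw [hm]
        linear_combination r1
      exact (mul_eq_zero.mp h1).resolve_left n5
    have s2 : β + e * (W * a + 1) + f * (W ^ 2 * m + t) = 0 := by
      have h1 : Y * (β + e * (W * a + 1) + f * (W ^ 2 * m + t)) = 0 := by
        rw [eA, eB, eT] at r2
        rw [hm]
        linear_combination r2
      exact (mul_eq_zero.mp h1).resolve_left n5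
    set Δ := (W * m + t) * (W ^ 2 * m + t) - W ^ 2 * ρ * β * (W * a + 1) with hΔ
    have hΔ0 : Δ ≠ 0 := by
      intro h0
      apply n6
      have h1 : Δ = m ^ 2 - m * t + t ^ 2 - ρ * β * (a + W ^ 2) := by
        rw [hΔ]
        linear_combination (m ^ 2 - ρ * β * a) * hW3 + (m * t) * hwv
      rw [h1] at h0
      rw [eT, eA, eB]
      rw [hm] at h0
      linear_combination (Y ^ 2) * h0
    have mΔ : Δ ∈ S := sub_mem (mul_mem (add_mem (mul_mem mW mm') mt)
      (add_mem (mul_mem (pow_mem mW 2) mm') mt)) (mul_mem (mul_mem (mul_mem (pow_mem mW 2) mρ) mB)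
        (add_mem (mul_mem mW mA) (one_mem S)))
    have e1 : e = (-(a + 1) * (W ^ 2 * m + t) + β * (W ^ 2 * ρ * β)) / Δ := by
      rw [eq_div_iff hΔ0, hΔ]
      linear_combination (W ^ 2 * m + t) * s1 - (W ^ 2 * ρ * β) * s2
    have e2 : f = (-(W * m + t) * β + (W * a + 1) * (a + 1)) / Δ := by
      rw [eq_div_iff hΔ0, hΔ]
      linear_combination (W * m + t) * s2 - (W * a + 1) * s1
    have mwm : W ^ 2 * m + t ∈ S := add_mem (mul_mem (pow_mem mW 2) mm') mt
    have me : e ∈ S := by
      rw [e1]
      exact div_mem (add_mem (mul_mem (neg_mem (add_mem mA (one_mem S))) mwm)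
        (mul_mem mB (mul_mem (mul_mem (pow_mem mW 2) mρ) mB))) mΔ
    have mf : f ∈ S := by
      rw [e2]
      exact div_mem (add_mem (mul_mem (neg_mem (add_mem (mul_mem mW mm') mt)) mB)
        (mul_mem (add_mem (mul_mem mW mA) (one_mem S)) (add_mem mA (one_mem S)))) mΔ
    apply PAR_top
    intro i
    fin_cases i
    · exact mr
    · exact me
    · exact mf

end Pool.Agent.Work.CubicOdd.DA
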