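import Pool.Agent.Work.MP_2f0ece_A.B_GAM

/-! Block QUA of the project MP_2f0ece_A (helper78). -/

set_option autoImplicit false

namespace Pool.Agent.Work.CubicOdd.DA

open MvPolynomial Pool.Agent.Work.CubicOdd

universe u

theorem QUA_cv {K : Type u} [Field K] (a : K) :
    (cv a : L3 K) = algebraMap (MvPolynomial (Fin 3) K) (L3 K) (C a) := by
  unfold cv
  rw [IsScalarTower.algebraMap_apply K (MvPolynomial (Fin 3) K) (L3 K)]
  rfl

theorem QUA_mm {K : Type u} [Field K] (b c d : K) :
    mm b c d (xv K 0) (xv K 1) = algebraMap (MvPolynomial (Fin 3) K) (L3 K)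
      (C b * X 0 + C c + C d * X 1) := by
  simp only [mm, QUA_cv, xv, map_add, map_mul]

theorem p_QUA : Stmt_QUA.{u} := by
  intro K _ h3 b c d z hz
  have hinj : Function.Injective (algebraMap (MvPolynomial (Fin 3) K) (L3 K)) :=
    IsFractionRing.injective _ _
  have hP : xv K 2 ≠ 0 := by
    intro h
    have h' : (X 2 : MvPolynomial (Fin 3) K) = 0 := hinj (by rw [map_zero]; exact h)
    exact MvPolynomial.X_ne_zero 2 h'
  have hgam := GAM_image b c d (K := K)
  set G : MvPolynomial (Fin 3) K :=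
    (C b * X 0 + C c + C d * X 1) ^ 3 + (X 0 ^ 3 + 1) + X 1 ^ 3 with hG
  set M : MvPolynomial (Fin 3) K := C b * X 0 + C c + C d * X 1 with hM
  have hmm := QUA_mm b c d (K := K)
  rw [← hM] at hmm
  -- the monic equation
  have key : (xv K 2 * z) ^ 2 - (3 * mm b c d (xv K 0) (xv K 1) - xv K 2) * xv K 2 *
      (xv K 2 * z) + Gam b c d (xv K 0) (xv K 1) * xv K 2 = 0 := by
    have : (xv K 2) ^ 2 * (z ^ 2 - (3 * mm b c d (xv K 0) (xv K 1) - xv K 2) * z +
        Gam b c d (xv K 0) (xv K 1) / xv K 2) = 0 := by rw [hz, mul_zero]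
    have e : (xv K 2) ^ 2 * (Gam b c d (xv K 0) (xv K 1) / xv K 2) =
        Gam b c d (xv K 0) (xv K 1) * xv K 2 := by
      field_simp
    linear_combination this - e
  -- integrality
  have hint : IsIntegral (MvPolynomial (Fin 3) K) (xv K 2 * z) := by
    refine ⟨Polynomial.X ^ 2 - Polynomial.C ((3 * M - X 2) * X 2) * Polynomial.X +
      Polynomial.C (G * X 2), ?_, ?_⟩
    · monicity!
    · simp only [Polynomial.eval₂_add, Polynomial.eval₂_sub, Polynomial.eval₂_mul,
        Polynomial.eval₂_pow, Polynomial.eval₂_X, Polynomial.eval₂_C, map_mul, map_sub]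
      rw [← hgam, ← hmm]
      have h3' : algebraMap (MvPolynomial (Fin 3) K) (L3 K) 3 = 3 := map_ofNat _ 3
      rw [h3']
      exact key
  obtain ⟨y, hy⟩ := IsIntegrallyClosed.isIntegral_iff.1 hint
  have hpoly : y ^ 2 - (3 * M - X 2) * X 2 * y + G * X 2 = 0 := by
    apply hinj
    have h3' : algebraMap (MvPolynomial (Fin 3) K) (L3 K) 3 = 3 := map_ofNat _ 3
    simp only [map_add, map_sub, map_mul, map_pow, map_zero]
    rw [h3', hy, ← hgam, ← hmm]
    exact key
  have hprime : Prime (X 2 : MvPolynomial (Fin 3) K) := MvPolynomial.X_prime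
  have hdvd : (X 2 : MvPolynomial (Fin 3) K) ∣ y := by
    refine hprime.dvd_of_dvd_pow (n := 2) ⟨(3 * M - X 2) * y - G, ?_⟩
    linear_combination hpoly
  obtain ⟨u, hu⟩ := hdvd
  have hG2 : G = -(X 2 * (u ^ 2 - (3 * M - X 2) * u)) := by
    have h : (X 2 : MvPolynomial (Fin 3) K) * (G + X 2 * (u ^ 2 - (3 * M - X 2) * u)) = 0 := by
      rw [hu] at hpoly
      linear_combination hpoly
    have h' := (mul_eq_zero.1 h).resolve_left (MvPolynomial.X_ne_zero 2)
    linear_combination h'
  -- specialize `X 2` to zero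
  have hsp := congrArg (MvPolynomial.aeval
    (![X 0, X 1, 0] : Fin 3 → MvPolynomial (Fin 3) K)) hG2
  have hl : MvPolynomial.aeval (![X 0, X 1, 0] : Fin 3 → MvPolynomial (Fin 3) K) G = G := by
    rw [hG, hM]
    simp only [map_add, map_mul, map_pow, map_one, MvPolynomial.aeval_X,
      MvPolynomial.algHom_C, MvPolynomial.algebraMap_eq]
    simp
  have hr : MvPolynomial.aeval (![X 0, X 1, 0] : Fin 3 → MvPolynomial (Fin 3) K)
      (X 2 : MvPolynomial (Fin 3) K) = 0 := by
    simp
  rw [hl, map_neg, map_mul, hr, zero_mul, neg_zero] at hsp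
  refine p_GAM K h3 b c d ?_
  rw [hgam, hsp, map_zero]

end Pool.Agent.Work.CubicOdd.DA
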