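import Pool.Agent.Work.MP_2f0ece_A.Interface

/-! # Block SIN (helper70): singular points when the polynomial vanishes -/

set_option autoImplicit false

namespace Pool.Agent.Work.CubicOdd.DA

open MvPolynomial Pool.Agent.Work.CubicOdd

universe u

theorem SIN_one {K : Type u} [Field K] (h3 : (3 : K) ≠ 0) (a1 b b1 : K) (ha : a1 ^ 2 = 27)
    (hb : b1 ^ 2 = b ^ 3) : ∃ u : K, 3 * u ^ 2 = b ∧ a1 * u ^ 3 = b1 ∧ a1 * (b * u) = 3 * b1 := by
  have h27 : (27 : K) ≠ 0 := by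
    have : (27 : K) = 3 ^ 3 := by norm_num
    rw [this]
    exact pow_ne_zero 3 h3
  have ha0 : a1 ≠ 0 := by
    intro h
    rw [h] at ha
    exact h27 (by rw [← ha]; ring)
  by_cases hb0 : b = 0
  · subst hb0
    have hb1 : b1 = 0 := by
      have : b1 ^ 2 = 0 := by rw [hb]; ring
      exact pow_eq_zero_iff (two_ne_zero) |>.1 this
    subst hb1
    exact ⟨0, by ring, by ring, by ring⟩
  · have hb1 : b1 ≠ 0 := by
      intro h
      rw [h] at hb
      exact pow_ne_zero 3 hb0 (by rw [← hb]; ring)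
    refine ⟨3 * b1 / (a1 * b), ?_, ?_, ?_⟩
    · have h1 : 3 * (3 * b1 / (a1 * b)) ^ 2 = 27 * b1 ^ 2 / (a1 ^ 2 * b ^ 2) := by
        field_simp
        ring
      rw [h1, ha, hb]
      field_simp
    · have h1 : a1 * (3 * b1 / (a1 * b)) ^ 3 = 27 * b1 * b1 ^ 2 / (a1 ^ 2 * b ^ 3) := by
        field_simp
        ring
      rw [h1, ha, hb]
      field_simp
    · field_simp

theorem SIN_prod {K : Type u} [Field K] (a b c d a1 b1 c1 d1 : K) (ha : a1 ^ 2 = a)
    (hb : b1 ^ 2 = b) (hc : c1 ^ 2 = c) (hd : d1 ^ 2 = d)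
    (h : (a ^ 2 + b ^ 2 + c ^ 2 + d ^ 2 - 2 * a * (b + c + d) -
      2 * (b * c + b * d + c * d)) ^ 2 - 64 * (a * b * c * d) = 0) :
    ∃ b2 c2 d2 : K, b2 ^ 2 = b ∧ c2 ^ 2 = c ∧ d2 ^ 2 = d ∧ a1 = b2 + c2 + d2 := by
  subst ha hb hc hd
  have h1 : (a1 + b1 + c1 + d1) * (a1 + b1 + c1 - d1) * (a1 + b1 - c1 + d1) *
      (a1 + b1 - c1 - d1) * (a1 - b1 + c1 + d1) * (a1 - b1 + c1 - d1) * (a1 - b1 - c1 + d1) *
      (a1 - b1 - c1 - d1) = 0 := by
    rw [← h]
    ring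
  simp only [mul_eq_zero] at h1
  rcases h1 with ((((((h1 | h1) | h1) | h1) | h1) | h1) | h1) | h1
  · exact ⟨-b1, -c1, -d1, by ring, by ring, by ring, by linear_combination h1⟩
  · exact ⟨-b1, -c1, d1, by ring, by ring, by ring, by linear_combination h1⟩
  · exact ⟨-b1, c1, -d1, by ring, by ring, by ring, by linear_combination h1⟩
  · exact ⟨-b1, c1, d1, by ring, by ring, by ring, by linear_combination h1⟩
  · exact ⟨b1, -c1, -d1, by ring, by ring, by ring, by linear_combination h1⟩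
  · exact ⟨b1, -c1, d1, by ring, by ring, by ring, by linear_combination h1⟩
  · exact ⟨b1, c1, -d1, by ring, by ring, by ring, by linear_combination h1⟩
  · exact ⟨b1, c1, d1, by ring, by ring, by ring, by linear_combination h1⟩

theorem p_SIN : Stmt_SIN.{u} := by
  intro K _ _ h3 b c d h
  obtain ⟨a1, ha⟩ := IsAlgClosed.exists_pow_nat_eq (27 : K) (n := 2) (by norm_num)
  obtain ⟨b1, hb⟩ := IsAlgClosed.exists_pow_nat_eq (b ^ 3 : K) (n := 2) (by norm_num)
  obtain ⟨c1, hc⟩ := IsAlgClosed.exists_pow_nat_eq (c ^ 3 : K) (n := 2) (by norm_num)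
  obtain ⟨d1, hd⟩ := IsAlgClosed.exists_pow_nat_eq (d ^ 3 : K) (n := 2) (by norm_num)
  obtain ⟨b2, c2, d2, hb2, hc2, hd2, hs⟩ := SIN_prod 27 (b ^ 3) (c ^ 3) (d ^ 3) a1 b1 c1 d1
    ha hb hc hd (by rw [← h]; ring)
  have h27 : (27 : K) ≠ 0 := by
    have : (27 : K) = 3 ^ 3 := by norm_num
    rw [this]
    exact pow_ne_zero 3 h3
  have ha0 : a1 ≠ 0 := by
    intro h
    rw [h] at ha
    exact h27 (by rw [← ha]; ring)
  obtain ⟨u, hu1, hu2, hu3⟩ := SIN_one h3 a1 b b2 ha hb2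
  obtain ⟨v, hv1, hv2, hv3⟩ := SIN_one h3 a1 c c2 ha hc2
  obtain ⟨z, hz1, hz2, hz3⟩ := SIN_one h3 a1 d d2 ha hd2
  have hL : b * u + c * v + d * z = 3 := by
    apply mul_left_cancel₀ ha0
    calc a1 * (b * u + c * v + d * z) = a1 * (b * u) + a1 * (c * v) + a1 * (d * z) := by ring
      _ = a1 * 3 := by rw [hu3, hv3, hz3, hs]; ring
  have hC : u ^ 3 + v ^ 3 + z ^ 3 = 1 := by
    apply mul_left_cancel₀ ha0
    calc a1 * (u ^ 3 + v ^ 3 + z ^ 3) = a1 * u ^ 3 + a1 * v ^ 3 + a1 * z ^ 3 := by ring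
      _ = a1 * 1 := by rw [hu2, hv2, hz2, hs]; ring
  refine ⟨![1, 1, u, v, z], ?_, ?_, ?_⟩
  · intro h0
    have := congrFun h0 0
    simp at this
  · have h5 : eval ![1, 1, u, v, z] (cub b c d) =
        1 + 1 + u ^ 3 + v ^ 3 + z ^ 3 - (b * u + c * v + d * z) := by
      simp [cub]
    rw [h5, hL]
    linear_combination hC
  · intro i
    fin_cases i
    · have h5 : eval ![1, 1, u, v, z] (pderiv 0 (cub b c d)) = 3 - (b * u + c * v + d * z) := by
        simp [cub, pderiv_X]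
      change eval ![1, 1, u, v, z] (pderiv 0 (cub b c d)) = 0
      rw [h5, hL, sub_self]
    · have h5 : eval ![1, 1, u, v, z] (pderiv 1 (cub b c d)) = 3 - (b * u + c * v + d * z) := by
        simp [cub, pderiv_X]
      change eval ![1, 1, u, v, z] (pderiv 1 (cub b c d)) = 0
      rw [h5, hL, sub_self]
    · have h5 : eval ![1, 1, u, v, z] (pderiv 2 (cub b c d)) = 3 * u ^ 2 - b := by
        simp [cub, pderiv_X]
      change eval ![1, 1, u, v, z] (pderiv 2 (cub b c d)) = 0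
      rw [h5, hu1, sub_self]
    · have h5 : eval ![1, 1, u, v, z] (pderiv 3 (cub b c d)) = 3 * v ^ 2 - c := by
        simp [cub, pderiv_X]
      change eval ![1, 1, u, v, z] (pderiv 3 (cub b c d)) = 0
      rw [h5, hv1, sub_self]
    · have h5 : eval ![1, 1, u, v, z] (pderiv 4 (cub b c d)) = 3 * z ^ 2 - d := by
        simp [cub, pderiv_X]
      change eval ![1, 1, u, v, z] (pderiv 4 (cub b c d)) = 0
      rw [h5, hz1, sub_self]

end Pool.Agent.Work.CubicOdd.DA
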