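import Pool.Agent.Work.MP_2f0ece_A.Interface

/-!
# Block SMO (helper87)
-/

set_option autoImplicit false

namespace Pool.Agent.Work.CubicOdd.DA

open MvPolynomial Pool.Agent.Work.CubicOdd

universe u

theorem SMO_pd {K : Type u} [Field K] (b c d : K) (x : Fin 5 → K)
    (h : ∀ i : Fin 5, eval x (pderiv i (cub b c d)) = 0) :
    3 * x 0 ^ 2 = x 1 * (b * x 2 + c * x 3 + d * x 4) ∧
    3 * x 1 ^ 2 = x 0 * (b * x 2 + c * x 3 + d * x 4) ∧
    3 * x 2 ^ 2 = b * (x 0 * x 1) ∧ 3 * x 3 ^ 2 = c * (x 0 * x 1) ∧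
    3 * x 4 ^ 2 = d * (x 0 * x 1) := by
  have h0 := h 0
  have h1 := h 1
  have h2 := h 2
  have h3 := h 3
  have h4 := h 4
  simp only [cub, map_add, map_sub, Derivation.leibniz, Derivation.leibniz_pow, pderiv_X, pderiv_C,
    Pi.single_apply, smul_eq_mul, eval_add, eval_mul, eval_pow, eval_X, eval_C, map_mul, map_pow,
    map_zero, nsmul_eq_mul, map_natCast] at h0 h1 h2 h3 h4
  simp at h0 h1 h2 h3 h4
  refine ⟨by linear_combination h0, by linear_combination h1, by linear_combination h2,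
    by linear_combination h3, by linear_combination h4⟩

theorem p_SMO : Stmt_SMO.{u} := by
  intro K _ h3 b c d hP x hx ⟨_, hs⟩
  obtain ⟨e0, e1, e2, e3, e4⟩ := SMO_pd b c d x hs
  by_cases hg : x 0 * x 1 = 0
  · rw [hg, mul_zero] at e2 e3 e4
    have sq : ∀ y : K, 3 * y ^ 2 = 0 → y = 0 := by
      intro y hy
      rcases mul_eq_zero.mp hy with hy | hy
      · exact absurd hy h3
      · exact pow_eq_zero_iff (two_ne_zero) |>.mp hy
    have z2 := sq _ e2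
    have z3 := sq _ e3
    have z4 := sq _ e4
    rw [z2, z3, z4] at e0 e1
    have z0 : x 0 = 0 := sq _ (by linear_combination e0)
    have z1 : x 1 = 0 := sq _ (by linear_combination e1)
    apply hx
    funext i
    fin_cases i
    · exact z0
    · exact z1
    · exact z2
    · exact z3
    · exact z4
  · set g := x 0 * x 1 with hgd
    set a := b * x 2 + c * x 3 + d * x 4 with had
    obtain ⟨s, hsd⟩ : ∃ s, s = x 2 ^ 3 + x 3 ^ 3 + x 4 ^ 3 := ⟨_, rfl⟩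
    have ha : a ^ 2 = 9 * g := by
      have : g * (a ^ 2 - 9 * g) = 0 := by
        rw [hgd]
        linear_combination (-(3 * x 1 ^ 2)) * e0 - (x 1 * a) * e1
      rcases mul_eq_zero.mp this with h | h
      · exact absurd h hg
      · linear_combination h
    have hga : g * a = 3 * s := by
      rw [hsd, had]
      linear_combination (- x 2) * e2 - x 3 * e3 - x 4 * e4
    have h9 : (9 : K) ≠ 0 := by
      have : (9 : K) = 3 ^ 2 := by norm_num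
      rw [this]
      exact pow_ne_zero _ h3
    have hs2 : s ^ 2 = g ^ 3 := by
      have : 9 * (s ^ 2 - g ^ 3) = 0 := by
        linear_combination (-(g * a + 3 * s)) * hga + g ^ 2 * ha
      rcases mul_eq_zero.mp this with h | h
      · exact absurd h h9
      · linear_combination h
    have hs0 : s ≠ 0 := by
      intro h
      rw [h] at hs2
      apply hg
      exact pow_eq_zero_iff (three_ne_zero) |>.mp (by linear_combination - hs2)
    have hB : s ^ 2 * b ^ 3 = 27 * x 2 ^ 6 := by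
      rw [hs2]
      linear_combination (-(9 * x 2 ^ 4 + 3 * x 2 ^ 2 * (b * g) + (b * g) ^ 2)) * e2
    have hC : s ^ 2 * c ^ 3 = 27 * x 3 ^ 6 := by
      rw [hs2]
      linear_combination (-(9 * x 3 ^ 4 + 3 * x 3 ^ 2 * (c * g) + (c * g) ^ 2)) * e3
    have hD : s ^ 2 * d ^ 3 = 27 * x 4 ^ 6 := by
      rw [hs2]
      linear_combination (-(9 * x 4 ^ 4 + 3 * x 4 ^ 2 * (d * g) + (d * g) ^ 2)) * e4
    apply hP
    obtain ⟨E, hE⟩ : ∃ E, E = 27 ^ 2 + b ^ 6 + c ^ 6 + d ^ 6 - 54 * (b ^ 3 + c ^ 3 + d ^ 3)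
      - 2 * (b ^ 3 * c ^ 3 + b ^ 3 * d ^ 3 + c ^ 3 * d ^ 3) := ⟨_, rfl⟩
    rw [← hE]
    obtain ⟨E', hE'⟩ : ∃ E', E' = s ^ 4 + x 2 ^ 12 + x 3 ^ 12 + x 4 ^ 12
      - 2 * s ^ 2 * (x 2 ^ 6 + x 3 ^ 6 + x 4 ^ 6)
      - 2 * (x 2 ^ 6 * x 3 ^ 6 + x 2 ^ 6 * x 4 ^ 6 + x 3 ^ 6 * x 4 ^ 6) := ⟨_, rfl⟩
    have k1 : s ^ 4 * E = 27 ^ 2 * E' := by
      have r1 : s ^ 4 * E = 27 ^ 2 * s ^ 4 + (s ^ 2 * b ^ 3) ^ 2 + (s ^ 2 * c ^ 3) ^ 2 + (s ^ 2 * d ^ 3) ^ 2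
        - 54 * s ^ 2 * (s ^ 2 * b ^ 3 + s ^ 2 * c ^ 3 + s ^ 2 * d ^ 3)
        - 2 * ((s ^ 2 * b ^ 3) * (s ^ 2 * c ^ 3) + (s ^ 2 * b ^ 3) * (s ^ 2 * d ^ 3) +
          (s ^ 2 * c ^ 3) * (s ^ 2 * d ^ 3)) := by
        rw [hE]; ring
      rw [r1, hB, hC, hD, hE']; ring
    have k2 : s ^ 6 * (b * c * d) ^ 3 = 27 ^ 3 * (x 2 ^ 6 * x 3 ^ 6 * x 4 ^ 6) := by
      have r2 : s ^ 6 * (b * c * d) ^ 3 = (s ^ 2 * b ^ 3) * (s ^ 2 * c ^ 3) * (s ^ 2 * d ^ 3) := by ring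
      rw [r2, hB, hC, hD]; ring
    have k3 : E' ^ 2 = 64 * s ^ 2 * (x 2 ^ 6 * x 3 ^ 6 * x 4 ^ 6) := by
      rw [hE', hsd]
      ring
    have k4 : s ^ 8 * (E ^ 2 - 1728 * (b * c * d) ^ 3) = 0 := by
      have r3 : s ^ 8 * (E ^ 2 - 1728 * (b * c * d) ^ 3) =
        (s ^ 4 * E) ^ 2 - 1728 * s ^ 2 * (s ^ 6 * (b * c * d) ^ 3) := by ring
      rw [r3, k1, k2]
      linear_combination 27 ^ 4 * k3
    rcases mul_eq_zero.mp k4 with h | h
    · exact absurd h (pow_ne_zero _ hs0)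
    · exact h

end Pool.Agent.Work.CubicOdd.DA
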