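import Pool.Agent.Work.MP_2f0ece_A.InterfaceC

set_option autoImplicit false

namespace Pool.Agent.Work.CubicOdd.DC

open MvPolynomial Pool.Agent.Work.CubicOdd

universe u

theorem FIC_eval {K : Type u} [Field K] (k : Fin 10 → K) (x : Fin 3 → K) :
    eval x (tern (fun i => C (k i)) X : MvPolynomial (Fin 3) K) = tern k x := by
  simp only [tern, map_add, map_mul, map_pow, eval_C, eval_X]

theorem FIC_pderiv {K : Type u} [Field K] (k : Fin 10 → K) (x : Fin 3 → K) (i : Fin 3) :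
    eval x (pderiv i (tern (fun i => C (k i)) X : MvPolynomial (Fin 3) K)) =
      dtern k x (Pi.single i 1) := by
  simp only [tern, dtern, map_add, Derivation.leibniz, Derivation.leibniz_pow, pderiv_X, pderiv_C,
    map_mul, map_pow, smul_eq_mul, eval_X, eval_C, map_nsmul, nsmul_eq_mul, Pi.single_apply]
  fin_cases i <;> norm_num [Fin.ext_iff] <;> ring

theorem p_FIC (hTRN : Stmt_TRN.{u}) (hPTS : Stmt_PTS.{u}) (hPRM : Stmt_PRM.{u})
    (hIRC : Stmt_IRC.{u}) : Stmt_FIC.{u} := by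
  intro K _ _ _ a ha g hg hsm A hA
  obtain ⟨k, rfl⟩ := hTRN K g hg
  have hk : k ≠ 0 := by
    rintro rfl
    apply hsm (fun _ => 1) (by
      intro h
      have := congrFun h 0
      simp at this)
    refine ⟨?_, fun i => ?_⟩
    · rw [FIC_eval]; simp [tern]
    · rw [FIC_pderiv]; simp [dtern]
  obtain ⟨e, f, p, φ, ψ, α₀, β₀, h1, h2, h3, h4, h5, h6, h7, h8, h9⟩ := hPTS K a ha k
  have hne : α₀ ≠ 0 ∨ β₀ ≠ 0 := by
    by_contra hcon
    push Not at hcon
    obtain ⟨ha0, hb0⟩ := hcon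
    rw [ha0, hb0] at h9
    apply hsm p
    · rintro rfl
      simp [lin3] at h7
    · refine ⟨?_, fun i => ?_⟩
      · rw [FIC_eval]; simpa using h9
      · rw [FIC_pderiv, h8, ha0]; simp
  obtain ⟨γ, g1, ⟨z, g2⟩, g3, g4⟩ := hPRM K a k e f p φ ψ α₀ β₀ h1 h2 h3 h4 h5 h6 h7 h8 h9 hne
  obtain ⟨hhom, hirr⟩ := hIRC K a k hk
  have key := main_abs (cubE a k) hhom hirr γ g1 z g2 0 g3 3 (by norm_num) g4 A hA
  have e1 : (X 0 * X 1 * (C (a 0) * X 2 + C (a 1) * X 3 + C (a 2) * X 4 - X 0 - X 1) -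
      aeval ![(X 2 : MvPolynomial (Fin 5) K), X 3, X 4]
        (tern (fun i => C (k i)) X : MvPolynomial (Fin 3) K)) = cubE a k := by
    rw [cubE]
    congr 1
    simp only [tern, map_add, map_mul, map_pow, aeval_C, aeval_X, MvPolynomial.algebraMap_eq]
  rw [e1]
  exact key

end Pool.Agent.Work.CubicOdd.DC
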