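import Pool.Agent.Work.MP_2f0ece_A.InterfaceC

/-!
# Block IRC: the cubic forms of the family are homogeneous and irreducible
-/

set_option autoImplicit false

namespace Pool.Agent.Work.CubicOdd.DC

open MvPolynomial Pool.Agent.Work.CubicOdd

universe u

theorem IRC_coeff {A : Type u} [CommRing A] (p q r : A) :
    (Polynomial.C p * Polynomial.X ^ 2 + Polynomial.C q * Polynomial.X + Polynomial.C r).coeff 2 = p ∧
    (Polynomial.C p * Polynomial.X ^ 2 + Polynomial.C q * Polynomial.X + Polynomial.C r).coeff 1 = q ∧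
    (Polynomial.C p * Polynomial.X ^ 2 + Polynomial.C q * Polynomial.X + Polynomial.C r).coeff 0 = r := by
  refine ⟨?_, ?_, ?_⟩
  · simp [Polynomial.coeff_X, Polynomial.coeff_C]
  · simp [Polynomial.coeff_X, Polynomial.coeff_C, Polynomial.coeff_X_pow]
  · simp

/-- `- y T ^ 2 + y m T - g` is irreducible if `y` is prime and does not divide `g` -/
theorem IRC_irreducible {A : Type u} [CommRing A] [IsDomain A] (y m g : A) (hy : Prime y)
    (hg : ¬ y ∣ g) :
    Irreducible (Polynomial.C (-y) * Polynomial.X ^ 2 + Polynomial.C (y * m) * Polynomial.X +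
      Polynomial.C (-g)) := by
  set P := Polynomial.C (-y) * Polynomial.X ^ 2 + Polynomial.C (y * m) * Polynomial.X +
      Polynomial.C (-g) with hP
  have hy0 : y ≠ 0 := hy.ne_zero
  have hdeg : P.natDegree = 2 := Polynomial.natDegree_quadratic (neg_ne_zero.2 hy0)
  have hP0 : P ≠ 0 := by
    intro h
    rw [h] at hdeg
    simp at hdeg
  have c2 : P.coeff 2 = -y := (IRC_coeff _ _ _).1
  have c1 : P.coeff 1 = y * m := (IRC_coeff _ _ _).2.1
  have c0 : P.coeff 0 = -g := (IRC_coeff _ _ _).2.2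
  -- constant factors are units
  have hconst : ∀ c : A, ∀ h : Polynomial A, P = Polynomial.C c * h → IsUnit c := by
    intro c h hh
    have d2 : c ∣ y := by
      have : -y = c * h.coeff 2 := by
        rw [← c2, hh, Polynomial.coeff_C_mul]
      exact ⟨- h.coeff 2, by linear_combination -this⟩
    have d0 : c ∣ g := by
      have : -g = c * h.coeff 0 := by
        rw [← c0, hh, Polynomial.coeff_C_mul]
      exact ⟨- h.coeff 0, by linear_combination -this⟩
    obtain ⟨d, hd⟩ := d2
    rcases hy.irreducible.isUnit_or_isUnit hd with h1 | h1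
    · exact h1
    · exfalso
      apply hg
      obtain ⟨e, he⟩ := h1.exists_right_inv
      obtain ⟨g', hg'⟩ := d0
      refine ⟨e * g', ?_⟩
      rw [hg', hd]
      linear_combination (-(c * g')) * he
  -- two linear factors are impossible
  have hlin : ∀ f1 f0 h1 h0 : A, f1 * h1 = -y → f1 * h0 + f0 * h1 = y * m → f0 * h0 = -g →
      y ∣ f1 → False := by
    intro f1 f0 h1 h0 e2 e1 e0 hd
    obtain ⟨u, hu⟩ := hd
    have hu1 : u * h1 = -1 := by
      apply mul_left_cancel₀ hy0
      rw [hu] at e2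
      linear_combination e2
    have hd0 : y ∣ f0 := by
      refine ⟨- (u * (m - u * h0)), ?_⟩
      rw [hu] at e1
      linear_combination (-u) * e1 + f0 * hu1
    obtain ⟨v, hv⟩ := hd0
    apply hg
    refine ⟨- (v * h0), ?_⟩
    rw [hv] at e0
    linear_combination e0
  refine ⟨?_, ?_⟩
  · intro hu
    have := Polynomial.natDegree_eq_zero_of_isUnit hu
    omega
  · intro f h hfh
    have hf0 : f ≠ 0 := by
      rintro rfl
      rw [zero_mul] at hfh
      exact hP0 hfh
    have hh0 : h ≠ 0 := by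
      rintro rfl
      rw [mul_zero] at hfh
      exact hP0 hfh
    have hsum : f.natDegree + h.natDegree = 2 := by
      rw [← Polynomial.natDegree_mul hf0 hh0, ← hfh, hdeg]
    have hcases : f.natDegree = 0 ∨ h.natDegree = 0 ∨ (f.natDegree = 1 ∧ h.natDegree = 1) := by
      omega
    rcases hcases with hf | hh | ⟨hf, hh⟩
    · left
      obtain ⟨c, hc⟩ := Polynomial.natDegree_eq_zero.1 hf
      rw [← hc] at hfh ⊢
      exact Polynomial.isUnit_C.2 (hconst c h hfh)
    · right
      obtain ⟨c, hc⟩ := Polynomial.natDegree_eq_zero.1 hh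
      rw [← hc] at hfh ⊢
      exact Polynomial.isUnit_C.2 (hconst c f (by rw [hfh, mul_comm]))
    · exfalso
      obtain ⟨f1, f0, ef⟩ := Polynomial.exists_eq_X_add_C_of_natDegree_le_one hf.le
      obtain ⟨h1, h0, eh⟩ := Polynomial.exists_eq_X_add_C_of_natDegree_le_one hh.le
      have hprod : P = Polynomial.C (f1 * h1) * Polynomial.X ^ 2 +
          Polynomial.C (f1 * h0 + f0 * h1) * Polynomial.X + Polynomial.C (f0 * h0) := by
        rw [hfh, ef, eh]
        simp only [map_add, map_mul]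
        ring
      have e2 : f1 * h1 = -y := by
        rw [← c2, hprod]
        exact (IRC_coeff _ _ _).1.symm
      have e1 : f1 * h0 + f0 * h1 = y * m := by
        rw [← c1, hprod]
        exact (IRC_coeff _ _ _).2.1.symm
      have e0 : f0 * h0 = -g := by
        rw [← c0, hprod]
        exact (IRC_coeff _ _ _).2.2.symm
      have hdvd : y ∣ f1 * h1 := ⟨-1, by rw [e2]; ring⟩
      rcases hy.dvd_or_dvd hdvd with hd | hd
      · exact hlin f1 f0 h1 h0 e2 e1 e0 hd
      · exact hlin h1 h0 f1 f0 (by rw [mul_comm]; exact e2) (by rw [← e1]; ring)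
          (by rw [mul_comm]; exact e0) hd

theorem IRC_hom {K : Type u} [Field K] (a : Fin 3 → K) (k : Fin 10 → K) :
    (cubE a k).IsHomogeneous 3 := by
  have hX : ∀ i : Fin 5, (X i : MvPolynomial (Fin 5) K).IsHomogeneous 1 :=
    fun i => isHomogeneous_X _ _
  have hXp : ∀ (i : Fin 5) (n : ℕ), (X i ^ n : MvPolynomial (Fin 5) K).IsHomogeneous n :=
    fun i n => isHomogeneous_X_pow _ _
  have hC : ∀ r : K, (C r : MvPolynomial (Fin 5) K).IsHomogeneous 0 :=
    fun r => isHomogeneous_C _ _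
  have hCX : ∀ (r : K) (i : Fin 5), (C r * X i : MvPolynomial (Fin 5) K).IsHomogeneous 1 :=
    fun r i => (hC r).mul (hX i)
  have h1 : (lin3 (fun i => C (a i)) ![X 2, X 3, X 4] : MvPolynomial (Fin 5) K).IsHomogeneous 1 :=
    ((hCX (a 0) 2).add (hCX (a 1) 3)).add (hCX (a 2) 4)
  have h2 : (tern (fun i => C (k i)) ![X 2, X 3, X 4] : MvPolynomial (Fin 5) K).IsHomogeneous 3 := by
    have hh := (((((((((((hC (k 0)).mul (hXp 2 3)).add
      (((hC (k 1)).mul (hXp 2 2)).mul (hX 3))).add
      (((hC (k 2)).mul (hXp 2 2)).mul (hX 4))).add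
      (((hC (k 3)).mul (hX 2)).mul (hXp 3 2))).add
      ((((hC (k 4)).mul (hX 2)).mul (hX 3)).mul (hX 4))).add
      (((hC (k 5)).mul (hX 2)).mul (hXp 4 2))).add
      ((hC (k 6)).mul (hXp 3 3))).add
      (((hC (k 7)).mul (hXp 3 2)).mul (hX 4))).add
      (((hC (k 8)).mul (hX 3)).mul (hXp 4 2))).add
      ((hC (k 9)).mul (hXp 4 3)))
    exact hh
  exact (((hX 0).mul (hX 1)).mul ((h1.sub (hX 0)).sub (hX 1))).sub h2

theorem IRC_not_dvd {K : Type u} [Field K] (k : Fin 10 → K) (hk : k ≠ 0) :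
    ¬ (X 0 : MvPolynomial (Fin 4) K) ∣ tern (fun i => C (k i)) ![X 1, X 2, X 3] := by
  rintro ⟨q, hq⟩
  let ψ : MvPolynomial (Fin 4) K →ₐ[K] Polynomial K :=
    aeval ![0, 1, Polynomial.X, Polynomial.X ^ 4]
  have h := congrArg ψ hq
  have p0 : ψ (X 0) = 0 := by simp [ψ]
  have p1 : ψ (X 1) = 1 := by simp [ψ]
  have p2 : ψ (X 2) = Polynomial.X := by simp [ψ]
  have p3 : ψ (X 3) = Polynomial.X ^ 4 := by simp [ψ]
  have pC : ∀ r : K, ψ (C r) = Polynomial.C r := by
    intro r
    simp [ψ]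
  rw [map_mul, p0, zero_mul] at h
  have e : Polynomial.C (k 0) + Polynomial.C (k 1) * Polynomial.X ^ 1 +
      Polynomial.C (k 2) * Polynomial.X ^ 4 + Polynomial.C (k 3) * Polynomial.X ^ 2 +
      Polynomial.C (k 4) * Polynomial.X ^ 5 + Polynomial.C (k 5) * Polynomial.X ^ 8 +
      Polynomial.C (k 6) * Polynomial.X ^ 3 + Polynomial.C (k 7) * Polynomial.X ^ 6 +
      Polynomial.C (k 8) * Polynomial.X ^ 9 + Polynomial.C (k 9) * Polynomial.X ^ 12 = 0 := by
    rw [← h]
    simp only [tern, map_add, map_mul, map_pow, pC, Matrix.cons_val_zero, Matrix.cons_val_one,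
      Matrix.cons_val, p1, p2, p3]
    ring
  have hc : ∀ n : ℕ, (Polynomial.C (k 0) + Polynomial.C (k 1) * Polynomial.X ^ 1 +
      Polynomial.C (k 2) * Polynomial.X ^ 4 + Polynomial.C (k 3) * Polynomial.X ^ 2 +
      Polynomial.C (k 4) * Polynomial.X ^ 5 + Polynomial.C (k 5) * Polynomial.X ^ 8 +
      Polynomial.C (k 6) * Polynomial.X ^ 3 + Polynomial.C (k 7) * Polynomial.X ^ 6 +
      Polynomial.C (k 8) * Polynomial.X ^ 9 + Polynomial.C (k 9) * Polynomial.X ^ 12).coeff n = 0 := by
    intro n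
    rw [e, Polynomial.coeff_zero]
  apply hk
  have h0 := hc 0
  have h1 := hc 1
  have h2 := hc 4
  have h3 := hc 2
  have h4 := hc 5
  have h5 := hc 8
  have h6 := hc 3
  have h7 := hc 6
  have h8 := hc 9
  have h9 := hc 12
  simp only [Polynomial.coeff_add, Polynomial.coeff_C_mul, Polynomial.coeff_X_pow,
    Polynomial.coeff_C] at h0 h1 h2 h3 h4 h5 h6 h7 h8 h9
  norm_num at h0 h1 h2 h3 h4 h5 h6 h7 h8 h9
  funext i
  fin_cases i
  · exact h0
  · exact h1
  · exact h2
  · exact h3
  · exact h4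
  · exact h5
  · exact h6
  · exact h7
  · exact h8
  · exact h9

theorem IRC_irr {K : Type u} [Field K] (a : Fin 3 → K) (k : Fin 10 → K) (hk : k ≠ 0) :
    Irreducible (cubE a k) := by
  rw [← MulEquiv.irreducible_iff (finSuccEquiv K 4)]
  have e2 : finSuccEquiv K 4 (cubE a k) =
      Polynomial.C (-(X 0 : MvPolynomial (Fin 4) K)) * Polynomial.X ^ 2 +
        Polynomial.C ((X 0 : MvPolynomial (Fin 4) K) *
          (lin3 (fun i => C (a i)) ![X 1, X 2, X 3] - X 0)) * Polynomial.X +
        Polynomial.C (-(tern (fun i => C (k i)) ![X 1, X 2, X 3])) := by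
    have h0 : (finSuccEquiv K 4) (X 0) = Polynomial.X := finSuccEquiv_X_zero
    have h1 : (finSuccEquiv K 4) (X 1) = Polynomial.C (X 0) := finSuccEquiv_X_succ (j := 0)
    have h2 : (finSuccEquiv K 4) (X 2) = Polynomial.C (X 1) := finSuccEquiv_X_succ (j := 1)
    have h3 : (finSuccEquiv K 4) (X 3) = Polynomial.C (X 2) := finSuccEquiv_X_succ (j := 2)
    have h4 : (finSuccEquiv K 4) (X 4) = Polynomial.C (X 3) := finSuccEquiv_X_succ (j := 3)
    have hC : ∀ r : K, (finSuccEquiv K 4) (C r) = Polynomial.C (C r) := by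
      intro r
      simp [finSuccEquiv_apply]
    simp only [cubE, lin3, tern, map_add, map_sub, map_mul, map_pow, map_neg,
      Matrix.cons_val_zero, Matrix.cons_val_one, Matrix.cons_val, h0, h1, h2, h3, h4, hC]
    ring
  rw [e2]
  exact IRC_irreducible _ _ _ MvPolynomial.X_prime (IRC_not_dvd k hk)

theorem p_IRC : Stmt_IRC.{u} := by
  intro K _ a k hk
  exact ⟨IRC_hom a k, IRC_irr a k hk⟩

end Pool.Agent.Work.CubicOdd.DC
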