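import Pool.Agent.Work.MP_2f0ece_A.InterfaceC

/-!
# Block PRM: the parametrization of degree three in characteristic three (typed by helper88)
-/

set_option autoImplicit false

namespace Pool.Agent.Work.CubicOdd.DC

open MvPolynomial Pool.Agent.Work.CubicOdd

universe u

section PRMmaps

variable {R S : Type u} [CommRing R] [CommRing S]

theorem PRM_map_tern (g : R →+* S) (k : Fin 10 → R) (x : Fin 3 → R) :
    g (tern k x) = tern (fun i => g (k i)) (fun i => g (x i)) := by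
  simp [tern]

theorem PRM_map_dtern (g : R →+* S) (k : Fin 10 → R) (x v : Fin 3 → R) :
    g (dtern k x v) = dtern (fun i => g (k i)) (fun i => g (x i)) (fun i => g (v i)) := by
  have h3 : g 3 = 3 := map_ofNat g 3
  have h2 : g 2 = 2 := map_ofNat g 2
  simp [dtern, h3, h2]

theorem PRM_map_lin3 (g : R →+* S) (a x : Fin 3 → R) :
    g (lin3 a x) = lin3 (fun i => g (a i)) (fun i => g (x i)) := by
  simp [lin3]

theorem PRM_lin_add (a e f : Fin 3 → R) (V : R) :
    lin3 a (fun i => e i + V * f i) = lin3 a e + V * lin3 a f := by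
  simp only [lin3]; ring

/-- the linear identity after extension of scalars -/
theorem PRM_ext (g : R →+* S) (a : Fin 3 → R) (k : Fin 10 → R) (p : Fin 3 → R) (c : R)
    (h : ∀ v, dtern k p v = c * lin3 a v) (v : Fin 3 → S) :
    dtern (fun i => g (k i)) (fun i => g (p i)) v = g c * lin3 (fun i => g (a i)) v := by
  have h0 := congrArg g (h ![1, 0, 0])
  have h1 := congrArg g (h ![0, 1, 0])
  have h2 := congrArg g (h ![0, 0, 1])
  rw [PRM_map_dtern, map_mul, PRM_map_lin3] at h0 h1 h2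
  simp only [dtern, lin3, Matrix.cons_val_zero, Matrix.cons_val_one, Matrix.cons_val, map_one,
    map_zero, mul_one, mul_zero, add_zero, zero_add] at h0 h1 h2 ⊢
  linear_combination v 0 * h0 + v 1 * h1 + v 2 * h2

theorem PRM_identity (h3 : (3 : R) = 0) (k : Fin 10 → R) (x p : Fin 3 → R)
    (α₀ β₀ y1 y2 s : R)
    (hs : s * (dtern k x p - α₀ * y2 - β₀ * y1) + (y1 ^ 3 + y2 ^ 3 + tern k x - y1 * y2) = 0)
    (hc : dtern k p x = α₀ * β₀) (h0 : α₀ ^ 3 + β₀ ^ 3 + tern k p = 0) :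
    (α₀ * s + y1) ^ 3 + (β₀ * s + y2) ^ 3 + tern k (fun i => x i + s * p i) =
      (α₀ * s + y1) * (β₀ * s + y2) := by
  rw [tern_add, hc]
  linear_combination hs + s ^ 3 * h0 +
    (α₀ ^ 2 * s ^ 2 * y1 + α₀ * s * y1 ^ 2 + β₀ ^ 2 * s ^ 2 * y2 + β₀ * s * y2 ^ 2) * h3

end PRMmaps

section PRMfix

variable {K : Type u} [Field K] {L : Type u} [Field L] [Algebra K L]

theorem PRM_eps : (TrivSqZeroExt.inr 1 : TrivSqZeroExt L L) * TrivSqZeroExt.inr 1 = 0 := by
  rw [TrivSqZeroExt.inr_mul_inr]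

theorem PRM_inr (t : L) : (TrivSqZeroExt.inr t : TrivSqZeroExt L L) =
    TrivSqZeroExt.inl t * TrivSqZeroExt.inr 1 := by
  rw [TrivSqZeroExt.inl_mul_inr]; simp

theorem PRM_s_fixed (Φ : L →ₐ[K] TrivSqZeroExt L L) (h3 : (3 : L) = 0)
    (s E T α₀ β₀ y1 y2 α β : L) (hE : E ∈ fixF Φ) (hT : T ∈ fixF Φ) (hα₀ : α₀ ∈ fixF Φ)
    (hβ₀ : β₀ ∈ fixF Φ)
    (hy1 : Φ y1 = TrivSqZeroExt.inl y1 + TrivSqZeroExt.inr α)
    (hy2 : Φ y2 = TrivSqZeroExt.inl y2 + TrivSqZeroExt.inr (-β))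
    (hα : α = α₀ * s + y1) (hβ : β = β₀ * s + y2)
    (hD0 : E - α₀ * y2 - β₀ * y1 ≠ 0)
    (hs : s * (E - α₀ * y2 - β₀ * y1) + (y1 ^ 3 + y2 ^ 3 + T - y1 * y2) = 0) :
    s ∈ fixF Φ := by
  have e1 := congrArg Φ hs
  rw [map_add, map_mul, map_sub, map_sub, map_mul, map_mul, map_sub, map_add, map_add, map_pow,
    map_pow, map_mul, map_zero, hy1, hy2, deriv_cube h3, deriv_cube h3, (mem_fixF _ _).1 hE,
    (mem_fixF _ _).1 hT, (mem_fixF _ _).1 hα₀, (mem_fixF _ _).1 hβ₀, inr_neg_eq, PRM_inr α] at e1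
  have e2 := congrArg (TrivSqZeroExt.inl : L → TrivSqZeroExt L L) hs
  have e4 := congrArg (TrivSqZeroExt.inl : L → TrivSqZeroExt L L) hα
  have e5 := congrArg (TrivSqZeroExt.inl : L → TrivSqZeroExt L L) hβ
  simp only [TrivSqZeroExt.inl_add, TrivSqZeroExt.inl_mul, TrivSqZeroExt.inl_sub,
    TrivSqZeroExt.inl_zero] at e2 e4 e5
  have hε := PRM_eps (L := L)
  have e3 : (Φ s - TrivSqZeroExt.inl s) *
      (TrivSqZeroExt.inl E - TrivSqZeroExt.inl α₀ *
          (TrivSqZeroExt.inl y2 + -(TrivSqZeroExt.inl β * TrivSqZeroExt.inr 1)) -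
        TrivSqZeroExt.inl β₀ *
          (TrivSqZeroExt.inl y1 + TrivSqZeroExt.inl α * TrivSqZeroExt.inr 1)) = 0 := by
    linear_combination e1 - e2 +
      TrivSqZeroExt.inr 1 * TrivSqZeroExt.inl β * e4 -
      TrivSqZeroExt.inr 1 * TrivSqZeroExt.inl α * e5 -
      TrivSqZeroExt.inl α * TrivSqZeroExt.inl β * hε
  have hunit : IsUnit (TrivSqZeroExt.inl E - TrivSqZeroExt.inl α₀ *
          (TrivSqZeroExt.inl y2 + -(TrivSqZeroExt.inl β * TrivSqZeroExt.inr 1)) -
        TrivSqZeroExt.inl β₀ *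
          (TrivSqZeroExt.inl y1 + TrivSqZeroExt.inl α * TrivSqZeroExt.inr 1) :
        TrivSqZeroExt L L) := by
    rw [TrivSqZeroExt.isUnit_iff_isUnit_fst, isUnit_iff_ne_zero]
    simp only [TrivSqZeroExt.fst_add, TrivSqZeroExt.fst_mul, TrivSqZeroExt.fst_inl,
      TrivSqZeroExt.fst_inr, TrivSqZeroExt.fst_sub, TrivSqZeroExt.fst_neg, mul_zero, neg_zero,
      add_zero]
    exact hD0
  rw [mem_fixF]
  exact sub_eq_zero.1 ((hunit.mul_left_eq_zero).1 e3)

theorem PRM_quot_fixed (Φ : L →ₐ[K] TrivSqZeroExt L L) (h3 : (3 : L) = 0) (t α β P : L)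
    (hα : Φ α = TrivSqZeroExt.inl α + TrivSqZeroExt.inr (t * α))
    (hβ : Φ β = TrivSqZeroExt.inl β + TrivSqZeroExt.inr (-(t * β)))
    (hβ0 : β ≠ 0) (hP : P * β = α ^ 2) : P ∈ fixF Φ := by
  rw [pow_two] at hP
  have e1 := congrArg Φ hP
  rw [map_mul, map_mul, hα, hβ, inr_neg_eq, PRM_inr (t * α)] at e1
  have e2 := congrArg (TrivSqZeroExt.inl : L → TrivSqZeroExt L L) hP
  have e6 := congrArg (TrivSqZeroExt.inl : L → TrivSqZeroExt L L) h3
  simp only [TrivSqZeroExt.inl_mul, TrivSqZeroExt.inl_zero] at e1 e2 e6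
  have e7 : (3 : TrivSqZeroExt L L) = 0 := by
    rw [← e6]
    exact (map_ofNat (TrivSqZeroExt.inlHom L L) 3).symm
  have hε := PRM_eps (L := L)
  have e3 : (Φ P - TrivSqZeroExt.inl P) *
      (TrivSqZeroExt.inl β + -(TrivSqZeroExt.inl t * TrivSqZeroExt.inl β *
        TrivSqZeroExt.inr 1)) = 0 := by
    linear_combination e1 - (1 - TrivSqZeroExt.inl t * TrivSqZeroExt.inr 1) * e2 +
      TrivSqZeroExt.inl α ^ 2 * TrivSqZeroExt.inl t * TrivSqZeroExt.inr 1 * e7 +
      TrivSqZeroExt.inl α ^ 2 * TrivSqZeroExt.inl t ^ 2 * hε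
  have hunit : IsUnit (TrivSqZeroExt.inl β + -(TrivSqZeroExt.inl t * TrivSqZeroExt.inl β *
        TrivSqZeroExt.inr 1) : TrivSqZeroExt L L) := by
    rw [TrivSqZeroExt.isUnit_iff_isUnit_fst, isUnit_iff_ne_zero]
    simp only [TrivSqZeroExt.fst_add, TrivSqZeroExt.fst_mul, TrivSqZeroExt.fst_inl,
      TrivSqZeroExt.fst_inr, TrivSqZeroExt.fst_neg, mul_zero, neg_zero, add_zero]
    exact hβ0
  rw [mem_fixF]
  exact sub_eq_zero.1 ((hunit.mul_left_eq_zero).1 e3)

end PRMfix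

section PRMpoly

variable {K : Type u} [Field K]

/-- the denominator and the numerator as polynomials -/
noncomputable def PRM_D (k : Fin 10 → K) (e f p : Fin 3 → K) (α₀ β₀ : K) :
    MvPolynomial (Fin 3) K :=
  dtern (fun i => C (k i)) (fun i => C (e i) + X 0 * C (f i)) (fun i => C (p i)) -
    C α₀ * X 2 - C β₀ * X 1

noncomputable def PRM_N (k : Fin 10 → K) (e f : Fin 3 → K) : MvPolynomial (Fin 3) K :=
  X 1 ^ 3 + X 2 ^ 3 + tern (fun i => C (k i)) (fun i => C (e i) + X 0 * C (f i)) - X 1 * X 2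

theorem PRM_eval_D (k : Fin 10 → K) (e f p : Fin 3 → K) (α₀ β₀ y z : K) :
    eval ![0, y, z] (PRM_D k e f p α₀ β₀) = dtern k e p - α₀ * z - β₀ * y := by
  rw [PRM_D, map_sub, map_sub, PRM_map_dtern]
  simp

theorem PRM_eval_N (k : Fin 10 → K) (e f : Fin 3 → K) (y z : K) :
    eval ![0, y, z] (PRM_N k e f) = y ^ 3 + z ^ 3 + tern k e - y * z := by
  rw [PRM_N, map_sub, map_add, PRM_map_tern]
  simp

theorem PRM_D_ne (k : Fin 10 → K) (e f p : Fin 3 → K) (α₀ β₀ : K) (hne : α₀ ≠ 0 ∨ β₀ ≠ 0) :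
    PRM_D k e f p α₀ β₀ ≠ 0 := by
  intro h
  have h1 := PRM_eval_D k e f p α₀ β₀ 0 0
  have h2 := PRM_eval_D k e f p α₀ β₀ 0 1
  have h3 := PRM_eval_D k e f p α₀ β₀ 1 0
  rw [h, map_zero] at h1 h2 h3
  rcases hne with hne | hne
  · apply hne
    linear_combination h2 - h1
  · apply hne
    linear_combination h3 - h1

theorem PRM_a_ne (k : Fin 10 → K) (e f p : Fin 3 → K) (α₀ β₀ : K) (hne : α₀ ≠ 0) :
    C α₀ * PRM_N k e f ≠ X 1 * PRM_D k e f p α₀ β₀ := by
  intro h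
  have h1 := congrArg (eval ![0, 0, 0]) h
  have h2 := congrArg (eval ![0, 0, 1]) h
  rw [map_mul, map_mul, PRM_eval_D, PRM_eval_N] at h1 h2
  simp at h1 h2
  apply hne
  rcases h1 with h1 | h1
  · exact h1
  · rcases h2 with h2 | h2
    · exact h2
    · rw [h1] at h2; simp at h2

theorem PRM_b_ne (k : Fin 10 → K) (e f p : Fin 3 → K) (α₀ β₀ : K) (hne : β₀ ≠ 0) :
    C β₀ * PRM_N k e f ≠ X 2 * PRM_D k e f p α₀ β₀ := by
  intro h
  have h1 := congrArg (eval ![0, 0, 0]) h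
  have h2 := congrArg (eval ![0, 1, 0]) h
  rw [map_mul, map_mul, PRM_eval_D, PRM_eval_N] at h1 h2
  simp at h1 h2
  apply hne
  rcases h1 with h1 | h1
  · exact h1
  · rcases h2 with h2 | h2
    · exact h2
    · rw [h1] at h2; simp at h2

theorem PRM_aeval {L : Type u} [Field L] [Algebra K L] (a : Fin 3 → K) (k : Fin 10 → K)
    (γ : Fin 5 → L) :
    aeval γ (cubE a k) = γ 0 * γ 1 *
      (lin3 (fun i => algebraMap K L (a i)) ![γ 2, γ 3, γ 4] - γ 0 - γ 1) -
      tern (fun i => algebraMap K L (k i)) ![γ 2, γ 3, γ 4] := by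
  simp only [cubE, lin3, tern, Matrix.cons_val_zero, Matrix.cons_val_one, Matrix.cons_val, map_sub,
    map_add, map_mul, map_pow, aeval_X, aeval_C]

end PRMpoly

set_option maxHeartbeats 4000000 in
theorem p_PRM : Stmt_PRM.{u} := by
  intro K _ _ a k e f p φ ψ α₀ β₀ hae haf hap hφf hφp hψf hψp hdt h0 hne
  have : Fact (Nat.Prime 3) := ⟨Nat.prime_three⟩
  have hcL : CharP (L3 K) 3 := charP_of_injective_algebraMap (algebraMap K (L3 K)).injective 3
  have h3 : (3 : L3 K) = 0 := by exact_mod_cast CharP.cast_eq_zero (L3 K) 3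
  let am : MvPolynomial (Fin 3) K →ₐ[K] L3 K := Algebra.algHom K _ _
  have ham : Function.Injective am := IsFractionRing.injective (MvPolynomial (Fin 3) K) (L3 K)
  obtain ⟨ι, hι⟩ : ∃ ι : K →+* L3 K, ι = algebraMap K (L3 K) := ⟨_, rfl⟩
  have hιC : ∀ x : K, am (C x) = ι x := by
    intro x
    rw [hι]
    exact am.commutes x
  have hιm : ∀ (M : IntermediateField K (L3 K)) (x : K), ι x ∈ M := by
    intro M x; rw [hι]; exact M.algebraMap_mem x
  obtain ⟨V, hV⟩ : ∃ c : L3 K, c = am (X 0) := ⟨_, rfl⟩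
  obtain ⟨y1, hy1⟩ : ∃ c : L3 K, c = am (X 1) := ⟨_, rfl⟩
  obtain ⟨y2, hy2⟩ : ∃ c : L3 K, c = am (X 2) := ⟨_, rfl⟩
  obtain ⟨x, hx⟩ : ∃ x : Fin 3 → L3 K, x = fun i => ι (e i) + V * ι (f i) := ⟨_, rfl⟩
  obtain ⟨k', hk'⟩ : ∃ k' : Fin 10 → L3 K, k' = fun i => ι (k i) := ⟨_, rfl⟩
  obtain ⟨p', hp'⟩ : ∃ p' : Fin 3 → L3 K, p' = fun i => ι (p i) := ⟨_, rfl⟩
  obtain ⟨a', ha'⟩ : ∃ a' : Fin 3 → L3 K, a' = fun i => ι (a i) := ⟨_, rfl⟩
  have hlin : ∀ (b : Fin 3 → K) (s : L3 K), lin3 (fun i => ι (b i)) (fun i => x i + s * p' i) =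
      ι (lin3 b e) + V * ι (lin3 b f) + s * ι (lin3 b p) := by
    intro b s
    rw [PRM_lin_add, hx, PRM_lin_add, PRM_map_lin3, PRM_map_lin3, PRM_map_lin3, hp']
  have hax : lin3 a' x = 1 := by
    have := hlin a 0
    rw [hae, haf, map_one, map_zero] at this
    simp only [zero_mul, add_zero, mul_zero] at this
    rw [ha']; exact this
  have hdx : dtern k' p' x = ι α₀ * ι β₀ := by
    have := PRM_ext ι a k p (α₀ * β₀) hdt x
    rw [hk', hp', this, ← ha', hax, map_mul, mul_one]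
  have h0' : ι α₀ ^ 3 + ι β₀ ^ 3 + tern k' p' = 0 := by
    rw [hk', hp', ← PRM_map_tern, ← map_pow, ← map_pow, ← map_add, ← map_add, h0, map_zero]
  have hamx : (fun i => am (C (e i) + X 0 * C (f i))) = x := by
    funext i
    rw [map_add, map_mul, hιC, hιC, ← hV, hx]
  have hDam : am (PRM_D k e f p α₀ β₀) = dtern k' x p' - ι α₀ * y2 - ι β₀ * y1 := by
    rw [PRM_D, map_sub, map_sub, map_mul, map_mul, hιC, hιC, ← hy1, ← hy2]
    have := PRM_map_dtern am.toRingHom (fun i => C (k i)) (fun i => C (e i) + X 0 * C (f i))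
      (fun i => C (p i))
    have h2 : am (dtern (fun i => C (k i)) (fun i => C (e i) + X 0 * C (f i))
      (fun i => C (p i))) = dtern (fun i => am (C (k i))) (fun i => am (C (e i) + X 0 * C (f i)))
      (fun i => am (C (p i))) := this
    rw [h2, hamx, hk', hp']
    simp only [hιC]
  have hNam : am (PRM_N k e f) = y1 ^ 3 + y2 ^ 3 + tern k' x - y1 * y2 := by
    rw [PRM_N, map_sub, map_add, map_add, map_mul, map_pow, map_pow, ← hy1, ← hy2]
    have := PRM_map_tern am.toRingHom (fun i => C (k i)) (fun i => C (e i) + X 0 * C (f i))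
    have h2 : am (tern (fun i => C (k i)) (fun i => C (e i) + X 0 * C (f i))) =
      tern (fun i => am (C (k i))) (fun i => am (C (e i) + X 0 * C (f i))) := this
    rw [h2, hamx, hk']
    simp only [hιC]
  obtain ⟨D, hD⟩ : ∃ D : L3 K, D = dtern k' x p' - ι α₀ * y2 - ι β₀ * y1 := ⟨_, rfl⟩
  obtain ⟨N, hN⟩ : ∃ N : L3 K, N = y1 ^ 3 + y2 ^ 3 + tern k' x - y1 * y2 := ⟨_, rfl⟩
  have hD0 : D ≠ 0 := by
    rw [hD, ← hDam]
    intro h
    exact PRM_D_ne k e f p α₀ β₀ hne (ham (by rw [h, map_zero]))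
  obtain ⟨s, hs⟩ : ∃ s : L3 K, s = -N / D := ⟨_, rfl⟩
  have hsD : s * D + N = 0 := by
    rw [hs, div_mul_cancel₀ _ hD0]; ring
  obtain ⟨α, hα⟩ : ∃ α : L3 K, α = ι α₀ * s + y1 := ⟨_, rfl⟩
  obtain ⟨β, hβ⟩ : ∃ β : L3 K, β = ι β₀ * s + y2 := ⟨_, rfl⟩
  obtain ⟨U, hU⟩ : ∃ U : Fin 3 → L3 K, U = fun i => x i + s * p' i := ⟨_, rfl⟩
  have hkey : α ^ 3 + β ^ 3 + tern k' U = α * β := by
    rw [hα, hβ, hU]
    exact PRM_identity h3 k' x p' (ι α₀) (ι β₀) y1 y2 s (by rw [← hD, ← hN]; exact hsD) hdx h0'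
  have hy10 : y1 ≠ 0 := by
    rw [hy1]; intro h
    exact X_ne_zero (R := K) (1 : Fin 3) (ham (by rw [h, map_zero]))
  have hy20 : y2 ≠ 0 := by
    rw [hy2]; intro h
    exact X_ne_zero (R := K) (2 : Fin 3) (ham (by rw [h, map_zero]))
  have hα0 : α ≠ 0 := by
    intro h
    by_cases hc : α₀ = 0
    · rw [hα, hc, map_zero, zero_mul, zero_add] at h
      exact hy10 h
    · apply PRM_a_ne k e f p α₀ β₀ hc
      apply ham
      rw [map_mul, map_mul, hιC, hNam, hDam, ← hD, ← hN, ← hy1]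
      rw [hα] at h
      linear_combination ι α₀ * hsD - D * h
  have hβ0 : β ≠ 0 := by
    intro h
    by_cases hc : β₀ = 0
    · rw [hβ, hc, map_zero, zero_mul, zero_add] at h
      exact hy20 h
    · apply PRM_b_ne k e f p α₀ β₀ hc
      apply ham
      rw [map_mul, map_mul, hιC, hNam, hDam, ← hD, ← hN, ← hy2]
      rw [hβ] at h
      linear_combination ι β₀ * hsD - D * h
  obtain ⟨P, hP⟩ : ∃ P : L3 K, P = α ^ 2 / β := ⟨_, rfl⟩
  obtain ⟨Q, hQ⟩ : ∃ Q : L3 K, Q = β ^ 2 / α := ⟨_, rfl⟩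
  have hPβ : P * β = α ^ 2 := by rw [hP]; field_simp
  have hQα : Q * α = β ^ 2 := by rw [hQ]; field_simp
  have hP0 : P ≠ 0 := by rw [hP]; exact div_ne_zero (pow_ne_zero _ hα0) hβ0
  have hQ0 : Q ≠ 0 := by rw [hQ]; exact div_ne_zero (pow_ne_zero _ hβ0) hα0
  have hlinU : lin3 a' U = 1 := by
    have := hlin a s
    rw [hae, haf, hap, map_one, map_zero] at this
    simp only [mul_zero, add_zero] at this
    rw [ha', hU]; exact this
  have hUeta : ![U 0, U 1, U 2] = U := by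
    funext i; fin_cases i <;> rfl
  have hφU : lin3 (fun i => ι (φ i)) U = ι (lin3 φ e) + V := by
    have := hlin φ s
    rw [hφf, hφp, map_one, map_zero] at this
    simp only [mul_zero, add_zero, mul_one] at this
    rw [hU]; exact this
  have hψU : lin3 (fun i => ι (ψ i)) U = ι (lin3 ψ e) + s := by
    have := hlin ψ s
    rw [hψf, hψp, map_one, map_zero] at this
    simp only [mul_zero, add_zero, mul_one] at this
    rw [hU]; exact this
  have hPQ : P * Q * (1 - P - Q) = tern k' U := by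
    have : tern k' U = α * β - α ^ 3 - β ^ 3 := by linear_combination hkey
    rw [this, hP, hQ]
    field_simp
  refine ⟨![P, Q, U 0, U 1, U 2], ?_, ?_, hP0, ?_⟩
  · rw [PRM_aeval]
    change P * Q * (lin3 (fun i => algebraMap K (L3 K) (a i)) ![U 0, U 1, U 2] - P - Q) -
      tern (fun i => algebraMap K (L3 K) (k i)) ![U 0, U 1, U 2] = 0
    rw [hUeta, ← hι, ← ha', ← hk', hlinU, hPQ, sub_self]
  · have hgen : ∀ c : L3 K, aeval (Fin.cons c (Fin.tail ![P, Q, U 0, U 1, U 2]) : Fin 5 → L3 K)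
        (cubE a k) = c * Q * (1 - c - Q) - tern k' U := by
      intro c
      rw [PRM_aeval]
      change c * Q * (lin3 (fun i => algebraMap K (L3 K) (a i)) ![U 0, U 1, U 2] - c - Q) -
        tern (fun i => algebraMap K (L3 K) (k i)) ![U 0, U 1, U 2] = _
      rw [hUeta, ← hι, ← ha', ← hk', hlinU]
    by_cases hc : tern k' U = 0
    · refine ⟨1, ?_⟩
      rw [hgen, hc]
      have : (1 : L3 K) * Q * (1 - 1 - Q) - 0 = -(Q ^ 2) := by ring
      rw [this]
      exact neg_ne_zero.2 (pow_ne_zero _ hQ0)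
    · refine ⟨0, ?_⟩
      rw [hgen]
      have : (0 : L3 K) * Q * (1 - 0 - Q) - tern k' U = -(tern k' U) := by ring
      rw [this]
      exact neg_ne_zero.2 hc
  · -- the degree
    obtain ⟨Φ, hΦ⟩ := exists_dual (K := K) ![0, α, -β]
    have hΦV : Φ V = TrivSqZeroExt.inl V := by
      have := hΦ 0
      rw [hV]
      refine this.trans ?_
      simp
      rfl
    have hΦy1 : Φ y1 = TrivSqZeroExt.inl y1 + TrivSqZeroExt.inr α := by
      rw [hy1]; exact hΦ 1
    have hΦy2 : Φ y2 = TrivSqZeroExt.inl y2 + TrivSqZeroExt.inr (-β) := by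
      rw [hy2]; exact hΦ 2
    have mV : V ∈ fixF Φ := hΦV
    have mx : ∀ i, x i ∈ fixF Φ := by
      intro i
      rw [hx]
      exact add_mem (hιm _ _) (mul_mem mV (hιm _ _))
    have mk : ∀ i, k' i ∈ fixF Φ := by
      intro i; rw [hk']; exact hιm _ _
    have mp : ∀ i, p' i ∈ fixF Φ := by
      intro i; rw [hp']; exact hιm _ _
    have m2 : (2 : L3 K) ∈ fixF Φ := ofNat_mem _ 2
    have m3 : (3 : L3 K) ∈ fixF Φ := ofNat_mem _ 3
    have mE : dtern k' x p' ∈ fixF Φ := by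
      simp only [dtern]
      refine add_mem (add_mem (mul_mem ?_ (mp 0)) (mul_mem ?_ (mp 1))) (mul_mem ?_ (mp 2)) <;>
      · repeat' first
          | exact mx _
          | exact pow_mem (mx _) _
          | exact mk _
          | exact m2
          | exact m3
          | apply add_mem
          | apply mul_mem
    have mT : tern k' x ∈ fixF Φ := by
      simp only [tern]
      repeat' first
          | exact mx _
          | exact pow_mem (mx _) _
          | exact mk _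
          | apply add_mem
          | apply mul_mem
    have ms : s ∈ fixF Φ := by
      apply PRM_s_fixed Φ h3 s (dtern k' x p') (tern k' x) (ι α₀) (ι β₀) y1 y2 α β mE mT
        (hιm _ _) (hιm _ _) hΦy1 hΦy2 hα hβ
      · rw [← hD]; exact hD0
      · rw [← hD, ← hN]; exact hsD
    have hΦα : Φ α = TrivSqZeroExt.inl α + TrivSqZeroExt.inr α := by
      have e1 : Φ (ι α₀ * s) = TrivSqZeroExt.inl (ι α₀ * s) :=
        (mem_fixF _ _).1 (mul_mem (hιm _ _) ms)
      have e2 : Φ α = Φ (ι α₀ * s) + Φ y1 := by rw [hα, map_add]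
      rw [e2, e1, hΦy1]
      have e3 : (TrivSqZeroExt.inl α : TrivSqZeroExt (L3 K) (L3 K)) =
        TrivSqZeroExt.inl (ι α₀ * s) + TrivSqZeroExt.inl y1 := by
        rw [← TrivSqZeroExt.inl_add, ← hα]
      rw [e3]; ring
    have hΦβ : Φ β = TrivSqZeroExt.inl β + TrivSqZeroExt.inr (-β) := by
      have e1 : Φ (ι β₀ * s) = TrivSqZeroExt.inl (ι β₀ * s) :=
        (mem_fixF _ _).1 (mul_mem (hιm _ _) ms)
      have e2 : Φ β = Φ (ι β₀ * s) + Φ y2 := by rw [hβ, map_add]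
      rw [e2, e1, hΦy2]
      have e3 : (TrivSqZeroExt.inl β : TrivSqZeroExt (L3 K) (L3 K)) =
        TrivSqZeroExt.inl (ι β₀ * s) + TrivSqZeroExt.inl y2 := by
        rw [← TrivSqZeroExt.inl_add, ← hβ]
      rw [e3]; ring
    have mP : P ∈ fixF Φ := by
      apply PRM_quot_fixed Φ h3 1 α β P _ _ hβ0 hPβ
      · rw [one_mul]; exact hΦα
      · rw [one_mul]; exact hΦβ
    have mQ : Q ∈ fixF Φ := by
      apply PRM_quot_fixed Φ h3 (-1) β α Q _ _ hα0 hQα
      · rw [neg_one_mul]; exact hΦβ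
      · rw [neg_one_mul, neg_neg]; exact hΦα
    have mU : ∀ i, U i ∈ fixF Φ := by
      intro i; rw [hU]; exact add_mem (mx i) (mul_mem ms (mp i))
    obtain ⟨γ, hγ⟩ : ∃ γ : Fin 5 → L3 K, γ = ![P, Q, U 0, U 1, U 2] := ⟨_, rfl⟩
    rw [← hγ]
    have g0 : γ 0 = P := by rw [hγ]; rfl
    have g1 : γ 1 = Q := by rw [hγ]; rfl
    have g2 : γ 2 = U 0 := by rw [hγ]; rfl
    have g3 : γ 3 = U 1 := by rw [hγ]; rfl
    have g4 : γ 4 = U 2 := by rw [hγ]; rfl
    set M := IntermediateField.adjoin K (Set.range fun i => γ i / γ 0) with hM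
    have hgen : ∀ i, γ i / P ∈ M := by
      intro i
      rw [← g0]
      exact IntermediateField.subset_adjoin _ _ ⟨i, rfl⟩
    have n1P : 1 / P ∈ M := by
      have : 1 / P = ι (a 0) * (γ 2 / P) + ι (a 1) * (γ 3 / P) + ι (a 2) * (γ 4 / P) := by
        rw [g2, g3, g4]
        rw [← hlinU, ha', lin3]
        ring
      rw [this]
      exact add_mem (add_mem (mul_mem (hιm _ _) (hgen 2)) (mul_mem (hιm _ _) (hgen 3)))
        (mul_mem (hιm _ _) (hgen 4))
    have nP : P ∈ M := by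
      have : P = (1 / P)⁻¹ := by rw [one_div, inv_inv]
      rw [this]; exact inv_mem n1P
    have hgen' : ∀ i, γ i ∈ M := by
      intro i
      have : γ i = γ i / P * P := by rw [div_mul_cancel₀ _ hP0]
      rw [this]; exact mul_mem (hgen i) nP
    have nQ : Q ∈ M := by rw [← g1]; exact hgen' 1
    have nU : ∀ i, U i ∈ M := by
      intro i
      fin_cases i
      · exact g2 ▸ hgen' 2
      · exact g3 ▸ hgen' 3
      · exact g4 ▸ hgen' 4
    have nlin : ∀ b : Fin 3 → K, lin3 (fun i => ι (b i)) U ∈ M := by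
      intro b
      rw [lin3]
      exact add_mem (add_mem (mul_mem (hιm _ _) (nU 0)) (mul_mem (hιm _ _) (nU 1)))
        (mul_mem (hιm _ _) (nU 2))
    have nV : V ∈ M := by
      have : V = lin3 (fun i => ι (φ i)) U - ι (lin3 φ e) := by rw [hφU]; ring
      rw [this]; exact sub_mem (nlin φ) (hιm _ _)
    have ns : s ∈ M := by
      have : s = lin3 (fun i => ι (ψ i)) U - ι (lin3 ψ e) := by rw [hψU]; ring
      rw [this]; exact sub_mem (nlin ψ) (hιm _ _)
    apply finrank_eq_of_dual 3 Φ M ?_ α ?_ ?_ ?_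
    · rw [hM, IntermediateField.adjoin_le_iff]
      rintro _ ⟨i, rfl⟩
      rw [SetLike.mem_coe]
      refine div_mem ?_ (g0 ▸ mP)
      fin_cases i
      · exact g0 ▸ mP
      · exact g1 ▸ mQ
      · exact g2 ▸ mU 0
      · exact g3 ▸ mU 1
      · exact g4 ▸ mU 2
    · intro h
      rw [mem_fixF, hΦα] at h
      have := congrArg TrivSqZeroExt.snd h
      simp at this
      exact hα0 this
    · have : α ^ 3 = P ^ 2 * Q := by
        rw [hP, hQ]; field_simp
      rw [this]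
      exact mul_mem (pow_mem nP 2) nQ
    · intro N' hMN hαN
      have nβ : β ∈ N' := by
        have : β = α ^ 2 / P := by
          rw [← hPβ]; field_simp
        rw [this]
        exact div_mem (pow_mem hαN 2) (hMN nP)
      apply eq_top_of_X
      intro i
      fin_cases i
      · exact (show am (X 0) ∈ N' from hV ▸ hMN nV)
      · have e1 : am (X 1) = α - ι α₀ * s := by rw [← hy1, hα]; ring
        exact (show am (X 1) ∈ N' from e1 ▸ sub_mem hαN (mul_mem (hιm _ _) (hMN ns)))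
      · have e1 : am (X 2) = β - ι β₀ * s := by rw [← hy2, hβ]; ring
        exact (show am (X 2) ∈ N' from e1 ▸ sub_mem nβ (mul_mem (hιm _ _) (hMN ns)))

end Pool.Agent.Work.CubicOdd.DC
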