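import Pool.Agent.Work.MP_2f0ece_A.InterfaceC

set_option autoImplicit false

namespace Pool.Agent.Work.CubicOdd.DC

open MvPolynomial Pool.Agent.Work.CubicOdd

universe u

theorem PTS_comb {K : Type u} [Field K] (a f g : Fin 3 → K) (x t : K) :
    lin3 a (fun i => x * f i + t * g i) = x * lin3 a f + t * lin3 a g := by
  simp only [lin3]; ring

theorem PTS_comb' {K : Type u} [Field K] (a b f : Fin 3 → K) (x t : K) :
    lin3 (fun i => x * a i + t * b i) f = x * lin3 a f + t * lin3 b f := by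
  simp only [lin3]; ring

/-- a basis adapted to `a` with its dual functionals -/
theorem PTS_frame {K : Type u} [Field K] (a : Fin 3 → K) (ha : a ≠ 0) :
    ∃ e f₁ f₂ b₁ b₂ : Fin 3 → K, lin3 a e = 1 ∧ lin3 a f₁ = 0 ∧ lin3 a f₂ = 0 ∧
      lin3 b₁ f₁ = 1 ∧ lin3 b₁ f₂ = 0 ∧ lin3 b₂ f₁ = 0 ∧ lin3 b₂ f₂ = 1 ∧
      ∀ v : Fin 3 → K, ∀ i, v i = lin3 a v * e i + lin3 b₁ v * f₁ i + lin3 b₂ v * f₂ i := by
  have h : a 0 ≠ 0 ∨ a 1 ≠ 0 ∨ a 2 ≠ 0 := by
    by_contra hc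
    push Not at hc
    apply ha
    funext i
    fin_cases i
    · exact hc.1
    · exact hc.2.1
    · exact hc.2.2
  rcases h with h | h | h
  · refine ⟨![(a 0)⁻¹, 0, 0], ![-(a 1) * (a 0)⁻¹, 1, 0], ![-(a 2) * (a 0)⁻¹, 0, 1],
      ![0, 1, 0], ![0, 0, 1], ?_, ?_, ?_, ?_, ?_, ?_, ?_, ?_⟩
    · simp [lin3, h]
    · simp [lin3]; field_simp; ring
    · simp [lin3]; field_simp; ring
    · simp [lin3]
    · simp [lin3]
    · simp [lin3]
    · simp [lin3]
    · intro v i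
      fin_cases i
      · simp [lin3]; field_simp; ring
      · simp [lin3]
      · simp [lin3]
  · refine ⟨![0, (a 1)⁻¹, 0], ![1, -(a 0) * (a 1)⁻¹, 0], ![0, -(a 2) * (a 1)⁻¹, 1],
      ![1, 0, 0], ![0, 0, 1], ?_, ?_, ?_, ?_, ?_, ?_, ?_, ?_⟩
    · simp [lin3, h]
    · simp [lin3]; field_simp; ring
    · simp [lin3]; field_simp; ring
    · simp [lin3]
    · simp [lin3]
    · simp [lin3]
    · simp [lin3]
    · intro v i
      fin_cases i
      · simp [lin3]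
      · simp [lin3]; field_simp; ring
      · simp [lin3]
  · refine ⟨![0, 0, (a 2)⁻¹], ![1, 0, -(a 0) * (a 2)⁻¹], ![0, 1, -(a 1) * (a 2)⁻¹],
      ![1, 0, 0], ![0, 1, 0], ?_, ?_, ?_, ?_, ?_, ?_, ?_, ?_⟩
    · simp [lin3, h]
    · simp [lin3]; field_simp; ring
    · simp [lin3]; field_simp; ring
    · simp [lin3]
    · simp [lin3]
    · simp [lin3]
    · simp [lin3]
    · intro v i
      fin_cases i
      · simp [lin3]
      · simp [lin3]
      · simp [lin3]; field_simp; ring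

/-- the derivative is linear in the direction -/
theorem PTS_dlin {K : Type u} [Field K] (k : Fin 10 → K) (p e f₁ f₂ v : Fin 3 → K) (α β γ : K)
    (hv : ∀ i, v i = α * e i + β * f₁ i + γ * f₂ i) :
    dtern k p v = α * dtern k p e + β * dtern k p f₁ + γ * dtern k p f₂ := by
  simp only [dtern, hv 0, hv 1, hv 2]; ring

/-- the derivative in a plane -/
theorem PTS_d1 {K : Type u} [Field K] (k : Fin 10 → K) (f₁ f₂ : Fin 3 → K) (x t : K) :
    dtern k (fun i => x * f₁ i + t * f₂ i) f₁ =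
      3 * tern k f₁ * x ^ 2 + 2 * dtern k f₁ f₂ * x * t + dtern k f₂ f₁ * t ^ 2 := by
  simp only [dtern, tern]; ring

theorem PTS_d2 {K : Type u} [Field K] (k : Fin 10 → K) (f₁ f₂ : Fin 3 → K) (x t : K) :
    dtern k (fun i => x * f₁ i + t * f₂ i) f₂ =
      dtern k f₁ f₂ * x ^ 2 + 2 * dtern k f₂ f₁ * x * t + 3 * tern k f₂ * t ^ 2 := by
  simp only [dtern, tern]; ring

theorem p_PTS : Stmt_PTS.{u} := by
  intro K _ _ _ a ha k
  have h3 : (3 : K) = 0 := by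
    have := CharP.cast_eq_zero K 3
    exact_mod_cast this
  obtain ⟨e, f₁, f₂, b₁, b₂, hae, haf₁, haf₂, h11, h12, h21, h22, hv⟩ := PTS_frame a ha
  -- the singular point
  obtain ⟨x, t, hxt, hd1, hd2⟩ : ∃ x t : K, (x ≠ 0 ∨ t ≠ 0) ∧
      dtern k (fun i => x * f₁ i + t * f₂ i) f₁ = 0 ∧
      dtern k (fun i => x * f₁ i + t * f₂ i) f₂ = 0 := by
    by_cases hBC : dtern k f₂ f₁ ≠ 0 ∨ dtern k f₁ f₂ ≠ 0
    · refine ⟨dtern k f₂ f₁, dtern k f₁ f₂, hBC, ?_, ?_⟩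
      · rw [PTS_d1]
        linear_combination (tern k f₁ * dtern k f₂ f₁ ^ 2 + dtern k f₁ f₂ ^ 2 * dtern k f₂ f₁) * h3
      · rw [PTS_d2]
        linear_combination (tern k f₂ * dtern k f₁ f₂ ^ 2 + dtern k f₂ f₁ ^ 2 * dtern k f₁ f₂) * h3
    · push Not at hBC
      refine ⟨0, 1, Or.inr one_ne_zero, ?_, ?_⟩
      · rw [PTS_d1, hBC.1, hBC.2]; ring
      · rw [PTS_d2, hBC.1, hBC.2]
        linear_combination (tern k f₂) * h3
  obtain ⟨u, w, huw⟩ : ∃ u w : K, u * t - w * x = 1 := by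
    rcases hxt with h | h
    · exact ⟨0, -x⁻¹, by field_simp; ring⟩
    · exact ⟨t⁻¹, 0, by field_simp; ring⟩
  set p : Fin 3 → K := fun i => x * f₁ i + t * f₂ i with hp
  obtain ⟨n, hn⟩ := IsAlgClosed.exists_pow_nat_eq (-(tern k p)) (n := 3) (by norm_num)
  obtain ⟨d, hd⟩ := IsAlgClosed.exists_pow_nat_eq (n ^ 2 - 4 * dtern k p e) (n := 2) (by norm_num)
  have hprod : (-(n + d)) * (-(n - d)) = dtern k p e := by
    linear_combination (-1 : K) * hd + dtern k p e * h3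
  refine ⟨e, fun i => u * f₁ i + w * f₂ i, p, fun i => t * b₁ i + (-x) * b₂ i,
    fun i => (-w) * b₁ i + u * b₂ i, -(n + d), -(n - d), hae, ?_, ?_, ?_, ?_, ?_, ?_, ?_, ?_⟩
  · rw [PTS_comb, haf₁, haf₂]; ring
  · rw [hp, PTS_comb, haf₁, haf₂]; ring
  · rw [PTS_comb', PTS_comb, PTS_comb, h11, h12, h21, h22]
    linear_combination huw
  · rw [hp, PTS_comb', PTS_comb, PTS_comb, h11, h12, h21, h22]
    ring
  · rw [PTS_comb', PTS_comb, PTS_comb, h11, h12, h21, h22]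
    ring
  · rw [hp, PTS_comb', PTS_comb, PTS_comb, h11, h12, h21, h22]
    linear_combination huw
  · intro v
    rw [PTS_dlin k p e f₁ f₂ v _ _ _ (hv v), hd1, hd2, hprod]
    ring
  · linear_combination hn + (-n ^ 3 - 2 * n * d ^ 2) * h3 + 0 * hd

end Pool.Agent.Work.CubicOdd.DC
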