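import Pool.Agent.Work.MP_2f0ece_A.InterfaceC

/-! Block TRN of the project MP_2f0ece_A, part 2 (helper18): ternary cubic forms have ten
coefficients. -/

set_option autoImplicit false

namespace Pool.Agent.Work.CubicOdd.DC

open MvPolynomial Pool.Agent.Work.CubicOdd

universe u

/-- the exponent `(a, b, c)` -/
noncomputable def TRN_e (a b c : ℕ) : Fin 3 →₀ ℕ :=
  Finsupp.single 0 a + Finsupp.single 1 b + Finsupp.single 2 c

theorem TRN_e0 (a b c : ℕ) : TRN_e a b c 0 = a := by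
  simp [TRN_e]

theorem TRN_e1 (a b c : ℕ) : TRN_e a b c 1 = b := by
  simp [TRN_e]

theorem TRN_e2 (a b c : ℕ) : TRN_e a b c 2 = c := by
  simp [TRN_e]

theorem TRN_inj (a b c a' b' c' : ℕ) :
    TRN_e a b c = TRN_e a' b' c' ↔ a = a' ∧ b = b' ∧ c = c' := by
  constructor
  · intro h
    refine ⟨?_, ?_, ?_⟩
    · have := DFunLike.congr_fun h 0
      rwa [TRN_e0, TRN_e0] at this
    · have := DFunLike.congr_fun h 1
      rwa [TRN_e1, TRN_e1] at this
    · have := DFunLike.congr_fun h 2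
      rwa [TRN_e2, TRN_e2] at this
  · rintro ⟨rfl, rfl, rfl⟩
    rfl

theorem TRN_ex (d : Fin 3 →₀ ℕ) : d = TRN_e (d 0) (d 1) (d 2) := by
  ext i
  fin_cases i
  · exact (TRN_e0 _ _ _).symm
  · exact (TRN_e1 _ _ _).symm
  · exact (TRN_e2 _ _ _).symm

theorem TRN_mon {K : Type u} [Field K] (x : K) (a b c : ℕ) :
    (C x * X 0 ^ a * X 1 ^ b * X 2 ^ c : MvPolynomial (Fin 3) K) = monomial (TRN_e a b c) x := by
  rw [X_pow_eq_monomial, X_pow_eq_monomial, X_pow_eq_monomial, C_apply, monomial_mul, monomial_mul,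
    monomial_mul, mul_one, mul_one, mul_one, zero_add]
  rfl

/-- the ten coefficients -/
noncomputable def TRN_k {K : Type u} [Field K] (g : MvPolynomial (Fin 3) K) : Fin 10 → K :=
  ![coeff (TRN_e 3 0 0) g, coeff (TRN_e 2 1 0) g, coeff (TRN_e 2 0 1) g, coeff (TRN_e 1 2 0) g,
    coeff (TRN_e 1 1 1) g, coeff (TRN_e 1 0 2) g, coeff (TRN_e 0 3 0) g, coeff (TRN_e 0 2 1) g,
    coeff (TRN_e 0 1 2) g, coeff (TRN_e 0 0 3) g]

theorem TRN_sum {K : Type u} [Field K] (g : MvPolynomial (Fin 3) K) :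
    tern (fun i => C (TRN_k g i)) X =
      monomial (TRN_e 3 0 0) (coeff (TRN_e 3 0 0) g) +
      monomial (TRN_e 2 1 0) (coeff (TRN_e 2 1 0) g) +
      monomial (TRN_e 2 0 1) (coeff (TRN_e 2 0 1) g) +
      monomial (TRN_e 1 2 0) (coeff (TRN_e 1 2 0) g) +
      monomial (TRN_e 1 1 1) (coeff (TRN_e 1 1 1) g) +
      monomial (TRN_e 1 0 2) (coeff (TRN_e 1 0 2) g) +
      monomial (TRN_e 0 3 0) (coeff (TRN_e 0 3 0) g) +
      monomial (TRN_e 0 2 1) (coeff (TRN_e 0 2 1) g) +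
      monomial (TRN_e 0 1 2) (coeff (TRN_e 0 1 2) g) +
      monomial (TRN_e 0 0 3) (coeff (TRN_e 0 0 3) g) := by
  simp only [← TRN_mon]
  simp only [tern, TRN_k, pow_zero, mul_one, pow_one, Matrix.cons_val]

theorem p_TRN : Stmt_TRN.{u} := by
  intro K _ g hg
  refine ⟨TRN_k g, ?_⟩
  rw [TRN_sum]
  ext d
  by_cases hd : d 0 + d 1 + d 2 = 3
  · have key : ∀ a b c : ℕ, a + b + c = 3 → d = TRN_e a b c → coeff d g =
        coeff d (monomial (TRN_e 3 0 0) (coeff (TRN_e 3 0 0) g) +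
      monomial (TRN_e 2 1 0) (coeff (TRN_e 2 1 0) g) +
      monomial (TRN_e 2 0 1) (coeff (TRN_e 2 0 1) g) +
      monomial (TRN_e 1 2 0) (coeff (TRN_e 1 2 0) g) +
      monomial (TRN_e 1 1 1) (coeff (TRN_e 1 1 1) g) +
      monomial (TRN_e 1 0 2) (coeff (TRN_e 1 0 2) g) +
      monomial (TRN_e 0 3 0) (coeff (TRN_e 0 3 0) g) +
      monomial (TRN_e 0 2 1) (coeff (TRN_e 0 2 1) g) +
      monomial (TRN_e 0 1 2) (coeff (TRN_e 0 1 2) g) +
      monomial (TRN_e 0 0 3) (coeff (TRN_e 0 0 3) g)) := by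
      intro a b c habc hde
      subst hde
      simp only [coeff_add, coeff_monomial, TRN_inj]
      have ha : a ≤ 3 := by omega
      have hb : b ≤ 3 := by omega
      have hc : c = 3 - a - b := by omega
      subst hc
      interval_cases a <;> interval_cases b <;> first | (exfalso; omega) | simp
    exact key _ _ _ hd (TRN_ex d)
  · have h0 : coeff d g = 0 := by
      by_contra hne
      apply hd
      have h1 := hg hne
      rw [Finsupp.weight_apply, Finsupp.sum_fintype _ _ (fun i => by simp)] at h1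
      simpa [Fin.sum_univ_three] using h1
    rw [h0]
    have hne : ∀ a b c : ℕ, a + b + c = 3 → TRN_e a b c ≠ d := by
      intro a b c habc h
      apply hd
      rw [← h, TRN_e0, TRN_e1, TRN_e2]
      exact habc
    simp only [coeff_add, coeff_monomial]
    rw [if_neg (hne 3 0 0 rfl), if_neg (hne 2 1 0 rfl), if_neg (hne 2 0 1 rfl),
      if_neg (hne 1 2 0 rfl), if_neg (hne 1 1 1 rfl), if_neg (hne 1 0 2 rfl),
      if_neg (hne 0 3 0 rfl), if_neg (hne 0 2 1 rfl), if_neg (hne 0 1 2 rfl),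
      if_neg (hne 0 0 3 rfl)]
    simp

end Pool.Agent.Work.CubicOdd.DC
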