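import Pool.Agent.Work.MP_2f0ece_A.Interface

set_option autoImplicit false

namespace Pool.Agent.Work.CubicOdd.DA

open MvPolynomial Pool.Agent.Work.CubicOdd

universe u

theorem ASM_ev {K : Type u} [Field K] (b c d : K) (γ : Fin 5 → L3 K) :
    aeval γ (cub b c d) = γ 0 ^ 3 + γ 1 ^ 3 + γ 2 ^ 3 + γ 3 ^ 3 + γ 4 ^ 3 -
      γ 0 * γ 1 * (cv b * γ 2 + cv c * γ 3 + cv d * γ 4) := by
  simp only [cub, map_add, map_sub, map_mul, map_pow, aeval_X, aeval_C, cv]

/-- a monic cubic without quadratic term has a non-root -/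
theorem ASM_nonroot {K : Type u} [Field K] (a e : L3 K) :
    ∃ z : L3 K, z ^ 3 - z * a + e ≠ 0 := by
  by_contra hcon
  push Not at hcon
  have h0 := hcon 0
  have h1 := hcon 1
  have h2 := hcon (xv K 0)
  have he : e = 0 := by linear_combination h0
  have ha : a = 1 := by linear_combination -h1 + he
  rw [ha, he] at h2
  have hx : (xv K 0) ≠ 0 := by
    unfold xv
    rw [Ne, FaithfulSMul.algebraMap_eq_zero_iff]
    exact X_ne_zero _
  have h3 : (xv K 0) ^ 2 = 1 := by
    have : xv K 0 * (xv K 0 ^ 2 - 1) = 0 := by linear_combination h2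
    rcases mul_eq_zero.1 this with h | h
    · exact absurd h hx
    · linear_combination h
  have h4 : algebraMap (MvPolynomial (Fin 3) K) (L3 K) (X 0 ^ 2) =
      algebraMap (MvPolynomial (Fin 3) K) (L3 K) 1 := by
    rw [map_pow, map_one]; exact h3
  have h5 := IsFractionRing.injective (MvPolynomial (Fin 3) K) (L3 K) h4
  have h6 := congrArg (eval (fun _ => (0 : K))) h5
  simp at h6

theorem p_ASM (hDEG : Stmt_DEG.{u}) (hPAR : Stmt_PAR.{u}) (hIRR : Stmt_IRR.{u}) :
    Stmt_ASM.{u} := by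
  intro K _ h3 w hw b c d A hA
  obtain ⟨hhom, hirr⟩ := hIRR K h3 b c d
  obtain ⟨r, t, a, e, hr, ha, he, hG, hgen⟩ := hPAR K h3 w hw (-b / 3) (-c / 3) (-d / 3)
  have hdeg := hDEG K h3 w hw (-b / 3) (-c / 3) (-d / 3) r t a e hr ha he hG hgen
  have h3L : (3 : L3 K) ≠ 0 := by
    have : (algebraMap K (L3 K)) 3 ≠ 0 := (map_ne_zero _).2 h3
    rwa [map_ofNat] at this
  have hwL : (cv w) ^ 2 + cv w + 1 = 0 := by
    have := congrArg (algebraMap K (L3 K)) hw
    simpa [cv] using this
  obtain ⟨W, hW⟩ : ∃ z, z = cv w := ⟨_, rfl⟩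
  rw [← hW] at hwL
  -- constants
  have e3' : (algebraMap K (L3 K)) 3 = 3 := map_ofNat _ 3
  have eb : cv (-b / 3) = - cv b / 3 := by rw [cv, map_div₀, map_neg, e3']; rfl
  have ec : cv (-c / 3) = - cv c / 3 := by rw [cv, map_div₀, map_neg, e3']; rfl
  have ed : cv (-d / 3) = - cv d / 3 := by rw [cv, map_div₀, map_neg, e3']; rfl
  obtain ⟨m, hm⟩ : ∃ z, z = mm (-b / 3) (-c / 3) (-d / 3) r t := ⟨_, rfl⟩
  have hm3 : cv b * r + cv c + cv d * t = - 3 * m := by
    rw [hm, mm, eb, ec, ed]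
    field_simp
    ring
  have hGam : Gam (-b / 3) (-c / 3) (-d / 3) r t = m ^ 3 + (r ^ 3 + 1) + t ^ 3 := by
    rw [Gam, hm]
  rw [hGam, ← hm] at hG
  obtain ⟨P, hP⟩ : ∃ z, z = a ^ 2 / e := ⟨_, rfl⟩
  obtain ⟨Q, hQ⟩ : ∃ z, z = (r ^ 3 + 1) * e ^ 2 / a := ⟨_, rfl⟩
  rw [← hP, ← hQ] at hdeg
  have hPQ : P * Q = (r ^ 3 + 1) * a * e := by
    rw [hP, hQ]; field_simp
  have hP2Q : P ^ 2 * Q = (r ^ 3 + 1) * a ^ 3 := by
    rw [hP, hQ]; field_simp
  have hPQ2 : P * Q ^ 2 = (r ^ 3 + 1) ^ 2 * e ^ 3 := by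
    rw [hP, hQ]; field_simp
  -- the product relation
  have hrel : P * Q * (3 * m - P - Q) = m ^ 3 + (r ^ 3 + 1) + t ^ 3 := by
    linear_combination (3 * m) * hPQ - hP2Q - hPQ2 - hG
  obtain ⟨p, hp⟩ : ∃ z, z = (P + W ^ 2 * Q + W * (3 * m - P - Q)) / 3 := ⟨_, rfl⟩
  obtain ⟨q, hq⟩ : ∃ z, z = (P + W * Q + W ^ 2 * (3 * m - P - Q)) / 3 := ⟨_, rfl⟩
  have hp' : 3 * p = P + W ^ 2 * Q + W * (3 * m - P - Q) := by rw [hp]; field_simp
  have hq' : 3 * q = P + W * Q + W ^ 2 * (3 * m - P - Q) := by rw [hq]; field_simp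
  have e1 : m + p + q = P := by
    have : 3 * (m + p + q) = 3 * P := by
      linear_combination hp' + hq' + (3 * m - P) * hwL
    exact mul_left_cancel₀ h3L this
  have hW3 : W ^ 3 = 1 := by linear_combination (W - 1) * hwL
  have e2 : m + W * p + W ^ 2 * q = Q := by
    have : 3 * (m + W * p + W ^ 2 * q) = 3 * Q := by
      linear_combination W * hp' + W ^ 2 * hq' + (3 * m - Q) * hwL +
        ((3 * m - P - Q) * W + 2 * Q) * hW3
    exact mul_left_cancel₀ h3L this
  have e3 : m + W ^ 2 * p + W * q = 3 * m - P - Q := by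
    linear_combination -e1 - e2 + (p + q) * hwL
  have h23 : Q * (3 * m - P - Q) = m ^ 2 + p ^ 2 + q ^ 2 - m * p - m * q - p * q := by
    rw [← e3, ← e2]
    linear_combination (p ^ 2 + q ^ 2) * hW3 + (m * p + m * q + (W ^ 2 - W + 1) * p * q) * hwL
  have hF : - p ^ 3 - q ^ 3 + r ^ 3 + 1 + t ^ 3 + 3 * p * q * m = 0 := by
    have h1 : P * (Q * (3 * m - P - Q)) = m ^ 3 + p ^ 3 + q ^ 3 - 3 * m * p * q := by
      rw [h23, ← e1]; ring
    linear_combination h1 - hrel
  let γ : Fin 5 → L3 K := ![-p, -q, r, 1, t]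
  have g0 : γ 0 = -p := rfl
  have g1 : γ 1 = -q := rfl
  have g2 : γ 2 = r := rfl
  have g3 : γ 3 = 1 := rfl
  have g4 : γ 4 = t := rfl
  have h0 : aeval γ (cub b c d) = 0 := by
    rw [ASM_ev, g0, g1, g2, g3, g4]
    linear_combination hF - p * q * hm3
  have hne : γ 3 ≠ 0 := by rw [g3]; exact one_ne_zero
  obtain ⟨z, hz⟩ := ASM_nonroot (K := K) (-q * (cv b * r + cv c + cv d * t))
    ((-q) ^ 3 + r ^ 3 + 1 + t ^ 3)
  have hcc : aeval (Fin.cons z (Fin.tail γ) : Fin 5 → L3 K) (cub b c d) ≠ 0 := by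
    rw [ASM_ev]
    change z ^ 3 + (-q) ^ 3 + r ^ 3 + 1 ^ 3 + t ^ 3 - z * (-q) * (cv b * r + cv c * 1 + cv d * t) ≠ 0
    intro h
    apply hz
    linear_combination h
  have hfield : IntermediateField.adjoin K (Set.range fun i => γ i / γ 3) =
      IntermediateField.adjoin K ({r, t, P, Q} : Set (L3 K)) := by
    have hcv : ∀ (S : IntermediateField K (L3 K)) (x : K), cv x ∈ S := fun S x => S.algebraMap_mem x
    have h3S : ∀ (S : IntermediateField K (L3 K)), (3 : L3 K) ∈ S := fun S => by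
      rw [← e3']; exact S.algebraMap_mem 3
    have hWS : ∀ (S : IntermediateField K (L3 K)), W ∈ S := fun S => by
      rw [hW]; exact hcv S w
    have hmS : ∀ (S : IntermediateField K (L3 K)), r ∈ S → t ∈ S → m ∈ S := fun S hr ht => by
      rw [hm, mm]
      exact add_mem (add_mem (mul_mem (hcv S _) hr) (hcv S _)) (mul_mem (hcv S _) ht)
    apply le_antisymm
    · rw [IntermediateField.adjoin_le_iff]
      rintro _ ⟨i, rfl⟩
      have hrS : r ∈ IntermediateField.adjoin K ({r, t, P, Q} : Set (L3 K)) :=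
        IntermediateField.subset_adjoin _ _ (by simp)
      have htS : t ∈ IntermediateField.adjoin K ({r, t, P, Q} : Set (L3 K)) :=
        IntermediateField.subset_adjoin _ _ (by simp)
      have hPS : P ∈ IntermediateField.adjoin K ({r, t, P, Q} : Set (L3 K)) :=
        IntermediateField.subset_adjoin _ _ (by simp)
      have hQS : Q ∈ IntermediateField.adjoin K ({r, t, P, Q} : Set (L3 K)) :=
        IntermediateField.subset_adjoin _ _ (by simp)
      set S := IntermediateField.adjoin K ({r, t, P, Q} : Set (L3 K)) with hS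
      have hRS : 3 * m - P - Q ∈ S :=
        sub_mem (sub_mem (mul_mem (h3S S) (hmS S hrS htS)) hPS) hQS
      have hpS : p ∈ S := by
        rw [hp]
        exact div_mem (add_mem (add_mem hPS (mul_mem (pow_mem (hWS S) 2) hQS))
          (mul_mem (hWS S) hRS)) (h3S S)
      have hqS : q ∈ S := by
        rw [hq]
        exact div_mem (add_mem (add_mem hPS (mul_mem (hWS S) hQS))
          (mul_mem (pow_mem (hWS S) 2) hRS)) (h3S S)
      change γ i / γ 3 ∈ S
      rw [g3, div_one]
      fin_cases i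
      · exact neg_mem hpS
      · exact neg_mem hqS
      · exact hrS
      · exact one_mem S
      · exact htS
    · rw [IntermediateField.adjoin_le_iff]
      set S := IntermediateField.adjoin K (Set.range fun i => γ i / γ 3) with hS
      have hγS : ∀ i, γ i ∈ S := by
        intro i
        have : γ i = γ i / γ 3 := by rw [g3, div_one]
        rw [this]
        exact IntermediateField.subset_adjoin _ _ ⟨i, rfl⟩
      have hpS : p ∈ S := by
        have := neg_mem (hγS 0)
        rwa [g0, neg_neg] at this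
      have hqS : q ∈ S := by
        have := neg_mem (hγS 1)
        rwa [g1, neg_neg] at this
      have hrS : r ∈ S := hγS 2
      have htS : t ∈ S := hγS 4
      have hmm := hmS S hrS htS
      have hPS : P ∈ S := by
        rw [← e1]; exact add_mem (add_mem hmm hpS) hqS
      have hQS : Q ∈ S := by
        rw [← e2]
        exact add_mem (add_mem hmm (mul_mem (hWS S) hpS)) (mul_mem (pow_mem (hWS S) 2) hqS)
      rintro x hx
      simp only [Set.mem_insert_iff, Set.mem_singleton_iff] at hx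
      rcases hx with rfl | rfl | rfl | rfl
      · exact hrS
      · exact htS
      · exact hPS
      · exact hQS
  have hfin : Module.finrank (IntermediateField.adjoin K (Set.range fun i => γ i / γ 3)) (L3 K) = 3 := by
    rw [hfield]; exact hdeg
  exact main_abs (cub b c d) hhom hirr γ h0 z hcc 3 hne 3 (by norm_num) hfin A hA

end Pool.Agent.Work.CubicOdd.DA
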