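import Pool.Agent.Work.MP_2f0ece_A.Interface

/-! # Block SOL (helper17) -/

set_option autoImplicit false

namespace Pool.Agent.Work.CubicOdd.DA

open MvPolynomial Pool.Agent.Work.CubicOdd

universe u

/-- Cramer -/
theorem SOL_cramer {R : Type u} [CommRing R] (a b x t : Fin 3 → R) (j : Fin 3) :
    a j * det3 b x t + b j * (-det3 a x t) + x j * det3 a b t + t j * (-det3 a b x) = 0 := by
  fin_cases j <;> simp only [det3] <;> ring_nf <;> simp <;> ring

/-- the norm is multiplicative -/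
theorem SOL_norm {R : Type u} [CommRing R] (ρ a0 a1 a2 b0 b1 b2 : R) :
    (a0 * b0 + ρ * (a1 * b2 + a2 * b1)) ^ 3 + ρ * (a0 * b1 + a1 * b0 + ρ * (a2 * b2)) ^ 3 +
      ρ ^ 2 * (a0 * b2 + a1 * b1 + a2 * b0) ^ 3 -
      3 * ρ * (a0 * b0 + ρ * (a1 * b2 + a2 * b1)) * (a0 * b1 + a1 * b0 + ρ * (a2 * b2)) *
        (a0 * b2 + a1 * b1 + a2 * b0) =
    (a0 ^ 3 + ρ * a1 ^ 3 + ρ ^ 2 * a2 ^ 3 - 3 * ρ * a0 * a1 * a2) *
      (b0 ^ 3 + ρ * b1 ^ 3 + ρ ^ 2 * b2 ^ 3 - 3 * ρ * b0 * b1 * b2) := by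
  ring

theorem p_SOL : Stmt_SOL.{u} := by
  intro R _ _ w b c d r e f hw hN
  have hw3 : w ^ 3 = 1 := by linear_combination (w - 1) * hw
  set A := pA w b c d r e f with hA
  set B := pB w b c d r e f with hB
  set X' := pX w b c d r e f with hX
  set T := pT w b c d r e f with hT
  have row : ∀ j, colA w r e f j * A + colB w r e f j * B + colX w b c r e f j * X' +
      colT w d e f j * T = 0 := by
    intro j
    exact SOL_cramer _ _ _ _ j
  have r0 := row 0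
  have r1 := row 1
  have r2 := row 2
  simp only [colA, colB, colX, colT, Matrix.cons_val_zero, Matrix.cons_val_one,
    Matrix.cons_val] at r0 r1 r2
  set ρ := r ^ 3 + 1 with hρ
  set m := (b * r + c) * X' + d * T with hm
  have s0 : 1 * m + ρ * (w * e * B + w ^ 2 * f * A) = -(1 * T + ρ * (e * 0 + f * X')) := by
    rw [hm]
    linear_combination r0
  have s1 : 1 * A + w * e * m + ρ * (w ^ 2 * f * B) = -(1 * X' + e * T + ρ * (f * 0)) := by
    rw [hm]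
    linear_combination r1
  have s2 : 1 * B + w * e * A + w ^ 2 * f * m = -(1 * 0 + e * X' + f * T) := by
    rw [hm]
    linear_combination r2
  have n1 := SOL_norm ρ 1 (w * e) (w ^ 2 * f) m A B
  have n2 := SOL_norm ρ 1 e f T X' 0
  rw [s0, s1, s2] at n1
  have hs : (1 : R) ^ 3 + ρ * (w * e) ^ 3 + ρ ^ 2 * (w ^ 2 * f) ^ 3 -
      3 * ρ * 1 * (w * e) * (w ^ 2 * f) = 1 + ρ * e ^ 3 + ρ ^ 2 * f ^ 3 - 3 * ρ * e * f := by
    linear_combination (ρ * e ^ 3 + ρ ^ 2 * f ^ 3 * (w ^ 3 + 1) - 3 * ρ * e * f) * hw3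
  rw [hs] at n1
  have key : (1 + ρ * e ^ 3 + ρ ^ 2 * f ^ 3 - 3 * ρ * e * f) *
      (ρ * A ^ 3 + ρ ^ 2 * B ^ 3 + m ^ 3 + ρ * X' ^ 3 + T ^ 3 - 3 * ρ * A * B * m) = 0 := by
    linear_combination (-1 : R) * n1 - n2
  rcases mul_eq_zero.mp key with h | h
  · exact absurd h hN
  · linear_combination h

end Pool.Agent.Work.CubicOdd.DA
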