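import Pool.Agent.Work.MP_2f0ece_A.InterfaceC

set_option autoImplicit false

namespace Pool.Agent.Work.CubicOdd.DC

open MvPolynomial Pool.Agent.Work.CubicOdd

universe u

/-- a smooth member of the family -/
theorem p_EXC (K : Type u) [Field K] [CharP K 3] :
    ∃ (a : Fin 3 → K) (g : MvPolynomial (Fin 3) K), a ≠ 0 ∧ g.IsHomogeneous 3 ∧
      (∀ x : Fin 3 → K, x ≠ 0 → ¬ (eval x g = 0 ∧ ∀ i : Fin 3, eval x (pderiv i g) = 0)) ∧
      ∀ x : Fin 5 → K, x ≠ 0 →
        ¬ (eval x (X 0 * X 1 * (C (a 0) * X 2 + C (a 1) * X 3 + C (a 2) * X 4 - X 0 - X 1) -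
          MvPolynomial.aeval ![(X 2 : MvPolynomial (Fin 5) K), X 3, X 4] g) = 0 ∧
          ∀ i : Fin 5, eval x (pderiv i
            (X 0 * X 1 * (C (a 0) * X 2 + C (a 1) * X 3 + C (a 2) * X 4 - X 0 - X 1) -
          MvPolynomial.aeval ![(X 2 : MvPolynomial (Fin 5) K), X 3, X 4] g)) = 0) := by
  have h3 : (3 : K) = 0 := by exact_mod_cast CharP.cast_eq_zero K 3
  have h2 : (2 : K) ≠ 0 := by
    intro h
    have : (1 : K) = 0 := by linear_combination h3 - h
    exact one_ne_zero this
  have sq : ∀ y : K, y ^ 2 = 0 → y = 0 := fun y hy => pow_eq_zero_iff (n := 2) (by norm_num) |>.1 hy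
  refine ⟨![1, 0, 0], X 1 ^ 2 * X 2 + X 0 * X 2 ^ 2 + X 0 ^ 3, ?_, ?_, ?_, ?_⟩
  · intro h
    have := congrFun h 0
    simp at this
  · have hX : ∀ i : Fin 3, (X i : MvPolynomial (Fin 3) K).IsHomogeneous 1 :=
      fun i => isHomogeneous_X _ _
    have hXp : ∀ (i : Fin 3) (n : ℕ), (X i ^ n : MvPolynomial (Fin 3) K).IsHomogeneous n :=
      fun i n => isHomogeneous_X_pow _ _
    exact (((hXp 1 2).mul (hX 2)).add ((hX 0).mul (hXp 2 2))).add (hXp 0 3)
  · rintro x hx ⟨h0, h⟩
    have d0 := h 0
    have d1 := h 1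
    have d2 := h 2
    simp only [map_add, Derivation.leibniz, Derivation.leibniz_pow, pderiv_X, map_mul, map_pow,
      smul_eq_mul, eval_X, nsmul_eq_mul, Pi.single_apply] at h0 d0 d1 d2
    norm_num [Fin.ext_iff] at h0 d0 d1 d2
    have e2 : x 2 = 0 := sq _ (by linear_combination d0 - x 0 ^ 2 * h3)
    rw [e2] at h0 d2
    have e1 : x 1 = 0 := sq _ (by linear_combination d2)
    rw [e1] at h0
    have e0 : x 0 = 0 := pow_eq_zero_iff (n := 3) (by norm_num) |>.1 (by linear_combination h0)
    apply hx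
    funext i
    fin_cases i
    · exact e0
    · exact e1
    · exact e2
  · rintro x hx ⟨h0, h⟩
    have d0 := h 0
    have d1 := h 1
    have d2 := h 2
    have d3 := h 3
    have d4 := h 4
    clear h
    obtain ⟨p, hp⟩ : ∃ z, z = x 0 := ⟨_, rfl⟩
    obtain ⟨q, hq⟩ : ∃ z, z = x 1 := ⟨_, rfl⟩
    obtain ⟨u, hu⟩ : ∃ z, z = x 2 := ⟨_, rfl⟩
    obtain ⟨v, hv⟩ : ∃ z, z = x 3 := ⟨_, rfl⟩
    obtain ⟨t, ht⟩ : ∃ z, z = x 4 := ⟨_, rfl⟩
    simp only [map_add, map_sub, Derivation.leibniz, Derivation.leibniz_pow, pderiv_X, pderiv_C,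
      map_mul, map_pow, aeval_X, smul_eq_mul, eval_X, eval_C, nsmul_eq_mul, Pi.single_apply,
      ← hp, ← hq, ← hu, ← hv, ← ht, Matrix.cons_val_zero, Matrix.cons_val_one, Matrix.cons_val_two,
      Matrix.head_cons, Matrix.tail_cons, Matrix.cons_val] at h0 d0 d1 d2 d3 d4
    norm_num [Fin.ext_iff, ← hp, ← hq, ← hu, ← hv, ← ht] at h0 d0 d1 d2 d3 d4
    have hpq : p * q = t ^ 2 := by linear_combination d2 + u ^ 2 * h3
    have fin : t = 0 → False := by
      intro ht0
      have hpq0 : p * q = 0 := by rw [hpq, ht0]; ring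
      have hv0 : v = 0 := sq _ (by rw [ht0] at d4; linear_combination -d4)
      have hu0 : u = 0 := by
        have : u ^ 3 = 0 := by
          rw [ht0, hv0] at h0
          linear_combination -h0 + (u - p - q) * hpq0
        exact pow_eq_zero_iff (n := 3) (by norm_num) |>.1 this
      have hq0 : q = 0 := sq _ (by rw [hu0] at d0; linear_combination -d0 - 2 * hpq0)
      have hp0 : p = 0 := sq _ (by rw [hu0] at d1; linear_combination -d1 - 2 * hpq0)
      apply hx
      funext i
      fin_cases i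
      · exact hp.symm.trans hp0
      · exact hq.symm.trans hq0
      · exact hu.symm.trans hu0
      · exact hv.symm.trans hv0
      · exact ht.symm.trans ht0
    rcases d3 with h | h | h
    · exact fin h
    · exact h2 h
    · have hut : u * t = 0 := by
        have : 2 * (u * t) = 0 := by rw [h] at d4; linear_combination -d4
        exact (mul_eq_zero.1 this).resolve_left h2
      rcases mul_eq_zero.1 hut with hu0 | ht0
      · by_cases hq0 : q = 0
        · apply fin
          apply sq
          rw [← hpq, hq0, mul_zero]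
        · by_cases hp0 : p = 0
          · apply fin
            apply sq
            rw [← hpq, hp0, zero_mul]
          · exfalso
            have e1 : q * (p - q) = 0 := by
              rw [hu0] at d0; linear_combination d0 + p * q * h3
            have e2 : p = q := sub_eq_zero.1 ((mul_eq_zero.1 e1).resolve_left hq0)
            rw [hu0, h, e2] at h0
            have e3 : q ^ 3 = 0 := by linear_combination h0 + q ^ 3 * h3
            exact hq0 (pow_eq_zero_iff (n := 3) (by norm_num) |>.1 e3)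
      · exact fin ht0

end Pool.Agent.Work.CubicOdd.DC
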