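import Pool.Agent.Work.MP_2f0ece_helper84.Change

/-!
# Cubic threefolds with a parametrization of degree three (helper42)

Statements of the blocks. `K` is a field in which `3 ≠ 0`, `w ∈ K` with `w^2 + w + 1 = 0`
(a primitive cube root of unity). `L3 K` is the field of rational functions in three variables.

PAPER PROOF. Write (after scaling `b, c, d` by `-3`) the threefold as
`p^3 + q^3 + u^3 + v^3 + z^3 + 3 p q (b u + c v + d z) = 0`.
Put `rho = r^3 + 1`, `m = b r + c + d t`, `Gam = m^3 + r^3 + 1 + t^3`. From a solution `(r, t, A, B)` of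
`(G)  rho A^3 + rho^2 B^3 + Gam = 3 rho A B m`
one gets, with `P = A^2 / B`, `Q = rho B^2 / A`, `R = 3 m - P - Q`, the relation `P Q R = Gam` (since
`P^2 Q = rho A^3`, `P Q^2 = rho^2 B^3`, `P Q = rho A B`), and hence the point `(-p, -q, r, 1, t)` of the
threefold, where `m + p + q = P`, `m + w p + w^2 q = Q`, `m + w^2 p + w q = R`.
-/

set_option autoImplicit false

namespace Pool.Agent.Work.CubicOdd.DA

open MvPolynomial Pool.Agent.Work.CubicOdd

universe u

/-- the `i`-th variable as an element of the field of rational functions -/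
noncomputable def xv (K : Type u) [Field K] (i : Fin 3) : L3 K :=
  algebraMap (MvPolynomial (Fin 3) K) (L3 K) (X i)

/-- the constant `a` as an element of the field of rational functions -/
noncomputable def cv {K : Type u} [Field K] (a : K) : L3 K := algebraMap K (L3 K) a

/-- the linear form `m = b r + c + d t` -/
noncomputable def mm {K : Type u} [Field K] (b c d : K) (r t : L3 K) : L3 K :=
  cv b * r + cv c + cv d * t

/-- `Gam = m^3 + r^3 + 1 + t^3` -/
noncomputable def Gam {K : Type u} [Field K] (b c d : K) (r t : L3 K) : L3 K :=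
  mm b c d r t ^ 3 + (r ^ 3 + 1) + t ^ 3

/-- the family of cubic forms -/
noncomputable def cub {K : Type u} [Field K] (b c d : K) : MvPolynomial (Fin 5) K :=
  X 0 ^ 3 + X 1 ^ 3 + X 2 ^ 3 + X 3 ^ 3 + X 4 ^ 3 -
    X 0 * X 1 * (C b * X 2 + C c * X 3 + C d * X 4)

/-- **GAM**: `Gam` is not zero for the variables `r = X 0`, `t = X 1`.
Proof: it is the image of a polynomial; apply the ring hom `X 0 ↦ X`, `X 1 ↦ 0` to `K[X]`: if it were zero then
`(b X + c)^3 + X^3 + 1 = 0`, so `b^3 + 1 = 0`, `3 b^2 c = 0`, `c^3 + 1 = 0`, impossible as `3 ≠ 0`. -/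
def Stmt_GAM : Prop := ∀ (K : Type u) [Field K], (3 : K) ≠ 0 → ∀ b c d : K,
  Gam b c d (xv K 0) (xv K 1) ≠ 0

/-- **QUA**: with `P = X 2` the quadratic equation of `Q` has no root in `K(r, t, P)`.
Proof: multiply by `P^2`: `Y = P z` satisfies the monic equation `Y^2 - (3m - P) P Y + Gam P = 0` over the UFD
`K[r,t,P]`; so `Y` is a polynomial (integrally closed); the prime `P` (= `X 2`) divides `Y^2`, so divides `Y`,
so `P^2` divides `Gam P`, so `P` divides `Gam`, which is a nonzero polynomial in `r, t` alone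
(apply the ring hom `P ↦ 0`). Contradiction to GAM. -/
def Stmt_QUA : Prop := ∀ (K : Type u) [Field K], (3 : K) ≠ 0 → ∀ (b c d : K) (z : L3 K),
  z ^ 2 - (3 * mm b c d (xv K 0) (xv K 1) - xv K 2) * z + Gam b c d (xv K 0) (xv K 1) / xv K 2 ≠ 0

/-- **CUB**: `Gam (r^3 + 1)` is not a cube in `K(r, t, P)`.
Proof: a cube root `z` is integral over the UFD `K[r,t,P]`, hence a polynomial. `rho = r^3 + 1` is squarefree
(separable, as `3 ≠ 0`) so `rho ∣ z`, `rho^3 ∣ z^3 = Gam rho`, `rho^2 ∣ Gam`, but `Gam ≠ 0` has degree at most 3 in `r`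
and `rho^2` has degree 6. (One may also use the three primes `r - zeta`.) -/
def Stmt_CUB : Prop := ∀ (K : Type u) [Field K], (3 : K) ≠ 0 → ∀ (w : K), w ^ 2 + w + 1 = 0 →
  ∀ (b c d : K) (z : L3 K),
  z ^ 3 ≠ Gam b c d (xv K 0) (xv K 1) * (xv K 0 ^ 3 + 1)

/-- **IND**: transfer. If `L3 K` is algebraic over `K(r, t, P)` then there is a `K`-algebra hom `f` of `L3 K`
into itself with `X 0 ↦ r`, `X 1 ↦ t`, `X 2 ↦ P`, whose range is `K(r, t, P)`.
Proof: `(r, t, P)` is a transcendence basis (`Algebra.IsAlgebraic.isTranscendenceBasis_of_lift_le_trdeg_of_finite`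
and `three_le_trdeg`, as in `cone_algebraicIndependent` of Trdeg.lean), so `aeval ![r, t, P]` is injective and
lifts to the fraction field. -/
def Stmt_IND : Prop := ∀ (K : Type u) [Field K] (r t P : L3 K),
  Algebra.IsAlgebraic (IntermediateField.adjoin K ({r, t, P} : Set (L3 K))) (L3 K) →
  ∃ f : L3 K →ₐ[K] L3 K, f (xv K 0) = r ∧ f (xv K 1) = t ∧ f (xv K 2) = P ∧
    ∀ z : L3 K, z ∈ IntermediateField.adjoin K ({r, t, P} : Set (L3 K)) ↔ ∃ y, f y = z

/-- **DEG**: the abstract degree lemma.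
Proof. Put `h = 3 m - P`, `g = Gam / P`, `R = h - Q`; `(G)` gives `P^2 Q = rho A^3`, `P Q^2 = rho^2 B^3`,
`P Q = rho A B`, so `P Q R = Gam`, `Q^2 - h Q + g = 0`.
(1) `L3 K` is algebraic over `N = K(r,t,P)`: `Q` is a root of a monic quadratic polynomial, `A^3 = P^2 Q / rho`,
`B = A^2 / P`, and `L3 K = K(r,t,A,B)`. So IND gives `f` with range `N`; by QUA (applied through `f`) `Q ∉ N`,
also `R ∉ N`, and by CUB `Gam rho` is not a cube of an element of `N`. In particular `1, Q` are linearly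
independent over `N`.
(2) every element of `M = K(r,t,P,Q)` is `x + y Q` with `x, y ∈ N` (adjoin induction;
`(x + y Q)(x + y R) = x^2 + x y h + y^2 g ∈ N`, not `0` unless `x = y = 0`).
(3) `A ∉ M`: if `A = x + y Q` then `(x + y Q)^3 = U + V Q` with `U, V ∈ N` polynomials in `x, y, h, g`, and
`U^2 + U V h + V^2 g = (x^2 + x y h + y^2 g)^3` (ring identity). As `(x + y Q)^3 = (P^2/rho) Q`, `U = 0` and
`V = P^2/rho`, so with `n = x^2 + x y h + y^2 g ∈ N`: `n^3 = P^4 g / rho^2 = P^3 Gam / rho^2`, so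
`(n rho / P)^3 = Gam rho`. Contradiction.
(4) `M(A) = L3 K` since `B = A^2 / P`; `A^3 ∈ M`, and `X^3 - A^3` is irreducible over `M`
(`X_pow_sub_C_irreducible_of_prime`: if `e^3 = A^3` with `e ∈ M` then `e / A` is `1, w` or `w^2`, so `A ∈ M`).
So the degree is 3 (as in `finrank_of_root` of Basic.lean). -/
def Stmt_DEG : Prop := ∀ (K : Type u) [Field K], (3 : K) ≠ 0 → ∀ (w : K), w ^ 2 + w + 1 = 0 →
  ∀ (b c d : K) (r t A B : L3 K), r ^ 3 + 1 ≠ 0 → A ≠ 0 → B ≠ 0 →
  (r ^ 3 + 1) * A ^ 3 + (r ^ 3 + 1) ^ 2 * B ^ 3 + Gam b c d r t =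
    3 * (r ^ 3 + 1) * A * B * mm b c d r t →
  IntermediateField.adjoin K ({r, t, A, B} : Set (L3 K)) = ⊤ →
  Module.finrank (IntermediateField.adjoin K
    ({r, t, A ^ 2 / B, (r ^ 3 + 1) * B ^ 2 / A} : Set (L3 K))) (L3 K) = 3

section Param

variable {R : Type u} [CommRing R]

/-- determinant of the matrix with columns `u, v, z` -/
def det3 (u v z : Fin 3 → R) : R :=
  u 0 * (v 1 * z 2 - v 2 * z 1) - v 0 * (u 1 * z 2 - u 2 * z 1) + z 0 * (u 1 * v 2 - u 2 * v 1)

/-- the columns of the linear system; `r, e, f` are the parameters, `rho = r^3 + 1`, `lam = b r + c` -/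
def colA (w r e f : R) : Fin 3 → R := ![w ^ 2 * f * (r ^ 3 + 1), 1, w * e]
/-- second column -/
def colB (w r e f : R) : Fin 3 → R := ![w * e * (r ^ 3 + 1), w ^ 2 * f * (r ^ 3 + 1), 1]
/-- third column -/
def colX (w b c r e f : R) : Fin 3 → R :=
  ![(b * r + c) + f * (r ^ 3 + 1), w * e * (b * r + c) + 1, w ^ 2 * f * (b * r + c) + e]
/-- fourth column -/
def colT (w d e f : R) : Fin 3 → R :=
  ![d + 1, w * e * d + e, w ^ 2 * f * d + f]

/-- the solution of the linear system -/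
def pA (w b c d r e f : R) : R := det3 (colB w r e f) (colX w b c r e f) (colT w d e f)
/-- the solution of the linear system -/
def pB (w b c d r e f : R) : R := - det3 (colA w r e f) (colX w b c r e f) (colT w d e f)
/-- the solution of the linear system -/
def pX (w b c d r e f : R) : R := det3 (colA w r e f) (colB w r e f) (colT w d e f)
/-- the solution of the linear system -/
def pT (w b c d r e f : R) : R := - det3 (colA w r e f) (colB w r e f) (colX w b c r e f)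

end Param

/-- **SOL**: the solution satisfies the norm equation (homogeneous form of (G)), in every domain.
Proof. Cramer: `a_i pA + b_i pB + x_i pX + t_i pT = 0` for the three rows (ring identities). With
`lam = b r + c`, `m = lam pX + d pT`, `M = (m, pA, pB)`, `n = (pT, pX, 0)`, `eta = (1, e, f)`,
`sig = (1, w e, w^2 f)` and the product of the cubic algebra `theta^3 = rho`
`(a0,a1,a2)*(b0,b1,b2) = (a0 b0 + rho (a1 b2 + a2 b1), a0 b1 + a1 b0 + rho a2 b2, a0 b2 + a1 b1 + a2 b0)` the rows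
say `sig * M + eta * n = 0`. The norm `N(a0,a1,a2) = a0^3 + rho a1^3 + rho^2 a2^3 - 3 rho a0 a1 a2` is
multiplicative, `N(sig) = N(eta)` as `w^3 = 1`, so `N(eta) (N(M) + N(n)) = 0` and `N(eta) ≠ 0`. -/
def Stmt_SOL : Prop := ∀ (R : Type u) [CommRing R] [IsDomain R] (w b c d r e f : R),
  w ^ 2 + w + 1 = 0 →
  1 + (r ^ 3 + 1) * e ^ 3 + (r ^ 3 + 1) ^ 2 * f ^ 3 - 3 * (r ^ 3 + 1) * e * f ≠ 0 →
  (r ^ 3 + 1) * pA w b c d r e f ^ 3 + (r ^ 3 + 1) ^ 2 * pB w b c d r e f ^ 3 +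
    ((b * r + c) * pX w b c d r e f + d * pT w b c d r e f) ^ 3 +
    (r ^ 3 + 1) * pX w b c d r e f ^ 3 + pT w b c d r e f ^ 3 =
  3 * (r ^ 3 + 1) * pA w b c d r e f * pB w b c d r e f *
    ((b * r + c) * pX w b c d r e f + d * pT w b c d r e f)

/-- **NZV**: nonvanishing. For the variables `r, e, f = X 0, X 1, X 2` the elements `N(eta)`, `pA`, `pB`, `pX` and the
determinant `D = m^2 - m t + t^2 - rho B (A + w^2)` (homogenized) are not zero.
Proof: they are images of polynomials; specialize to `K[X]`.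
`N(eta)` is `1` at `e = f = 0`.
At `f = 0`, with `lam = b r + c`, `rho = r^3 + 1` (use `w^3 = 1`):
`pX = w^2 rho (w d + 1) e^3 + (d + 1)`,
`pT = -(lam rho e^3 + (w^2 - w) rho e^2 + lam)`,
`pA = -w rho (w d + 1) e^3 + lam (1 - w) e - (d + 1)`,
`pB = (w - 1) e (w lam e + (d + 1))`.
`pX`, `pA`: put `r = 0`, `f = 0`, `e = X`; both `d + 1` and `w d + 1` would be zero, so `w = 1`, `3 = 0`.
`pB`: put `f = 0`; nonzero unless `lam = 0` (i.e. `b = c = 0`) and `d = -1`; in that case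
`pB = f rho ((1 - w^2)^2 f - w (1 - w)^2 e^2)`, nonzero at `e = 0, f = X, r = 0`.
`D`: at `e = f = 0` it is `3 lam^2` (`r = X`); if `b = c = 0`, put `r = 0`, `f = 0`, `e = X`: the coefficient of `X` is
`-3 (d + 1)^2`, and for `d = -1` one gets `D = -9 X^4`. (All formulas are checked numerically.) -/
def Stmt_NZV : Prop := ∀ (K : Type u) [Field K], (3 : K) ≠ 0 → ∀ (w : K), w ^ 2 + w + 1 = 0 →
  ∀ (b c d : K) (r e f : L3 K), r = xv K 0 → e = xv K 1 → f = xv K 2 →
  r ^ 3 + 1 ≠ 0 ∧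
  1 + (r ^ 3 + 1) * e ^ 3 + (r ^ 3 + 1) ^ 2 * f ^ 3 - 3 * (r ^ 3 + 1) * e * f ≠ 0 ∧
  pA (cv w) (cv b) (cv c) (cv d) r e f ≠ 0 ∧ pB (cv w) (cv b) (cv c) (cv d) r e f ≠ 0 ∧
  pX (cv w) (cv b) (cv c) (cv d) r e f ≠ 0 ∧
  ((cv b * r + cv c) * pX (cv w) (cv b) (cv c) (cv d) r e f +
      cv d * pT (cv w) (cv b) (cv c) (cv d) r e f) ^ 2 -
    ((cv b * r + cv c) * pX (cv w) (cv b) (cv c) (cv d) r e f +
      cv d * pT (cv w) (cv b) (cv c) (cv d) r e f) * pT (cv w) (cv b) (cv c) (cv d) r e f +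
    pT (cv w) (cv b) (cv c) (cv d) r e f ^ 2 -
    (r ^ 3 + 1) * pB (cv w) (cv b) (cv c) (cv d) r e f *
      (pA (cv w) (cv b) (cv c) (cv d) r e f +
        cv w ^ 2 * pX (cv w) (cv b) (cv c) (cv d) r e f) ≠ 0

/-- **PAR**: the parametrization of (G).
Proof: `r = X 0`, `e = X 1`, `f = X 2`, `A = pA / pX`, `B = pB / pX`, `t = pT / pX`. (G) is SOL divided by `pX^3`.
Generation: the rows 2, 3 divided by `pX` say, with `m = b r + c + d t`,
`(A + 1) + e (w m + t) + f w^2 rho B = 0`, `B + e (w A + 1) + f (w^2 m + t) = 0`, whose determinant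
`(w m + t)(w^2 m + t) - w^2 rho B (w A + 1) = m^2 - m t + t^2 - rho B (A + w^2)` is not zero by NZV; so
`e, f ∈ K(r, t, A, B)` by Cramer, and `L3 K` is generated by `r, e, f`. -/
def Stmt_PAR : Prop := ∀ (K : Type u) [Field K], (3 : K) ≠ 0 → ∀ (w : K), w ^ 2 + w + 1 = 0 →
  ∀ (b c d : K), ∃ r t A B : L3 K, r ^ 3 + 1 ≠ 0 ∧ A ≠ 0 ∧ B ≠ 0 ∧
  (r ^ 3 + 1) * A ^ 3 + (r ^ 3 + 1) ^ 2 * B ^ 3 + Gam b c d r t =
    3 * (r ^ 3 + 1) * A * B * mm b c d r t ∧
  IntermediateField.adjoin K ({r, t, A, B} : Set (L3 K)) = ⊤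

/-- **IRR**: the cubic form is homogeneous of degree 3 and irreducible.
Proof: it is a monic cubic polynomial in `X 0` without root in `K[X 1..X 4]` (use `finSuccEquiv` and
`irreducible_cubic` as in `fLoop_irreducible` of Fermat.lean): a root, specialized by
`X 1 = 0, X 2 = X, X 3 = 1, X 4 = 0`, gives `s ∈ K[X]` with `s^3 = -(X^3 + 1)`, so `s = a X + b'` with
`a^3 = -1`, `3 a^2 b' = 0`, `b'^3 = -1`, impossible. -/
def Stmt_IRR : Prop := ∀ (K : Type u) [Field K], (3 : K) ≠ 0 → ∀ (b c d : K),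
  (cub b c d).IsHomogeneous 3 ∧ Irreducible (cub b c d)

/-- **SMO**: smoothness. Proof: at a singular point `(p,q,u,v,z) ≠ 0`, with `a = b u + c v + d z`:
`3 p^2 = q a`, `3 q^2 = p a`, `3 u^2 = b p q`, `3 v^2 = c p q`, `3 z^2 = d p q`. If `p q = 0` everything vanishes.
Otherwise with `g = p q`: `9 g^2 = g a^2`, so `a^2 = 9 g`; `g a = 3 (u^3 + v^3 + z^3) =: 3 s`, so `s^2 = g^3`;
`b^3 g^3 = 27 u^6`, so `s^2 b^3 = 27 (u^3)^2` etc. and
`s^8 P(27, b^3, c^3, d^3) = 27^4 P(s^2, u^6, v^6, z^6) = 0` since `s = u^3 + v^3 + z^3`. -/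
def Stmt_SMO : Prop := ∀ (K : Type u) [Field K], (3 : K) ≠ 0 → ∀ (b c d : K),
  (27 ^ 2 + b ^ 6 + c ^ 6 + d ^ 6 - 54 * (b ^ 3 + c ^ 3 + d ^ 3)
    - 2 * (b ^ 3 * c ^ 3 + b ^ 3 * d ^ 3 + c ^ 3 * d ^ 3)) ^ 2 - 1728 * (b * c * d) ^ 3 ≠ 0 →
  ∀ x : Fin 5 → K, x ≠ 0 →
    ¬ (eval x (cub b c d) = 0 ∧ ∀ i : Fin 5, eval x (pderiv i (cub b c d)) = 0)

/-- **SIN**: the converse: over an algebraically closed field the form is singular when the polynomial vanishes.
Proof: choose `a1, b1, c1, d1` with `a1^2 = 27`, `b1^2 = b^3`, `c1^2 = c^3`, `d1^2 = d^3`. The polynomial is the product of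
the 8 factors `a1 ± b1 ± c1 ± d1`, so after changing the signs of `b1, c1, d1` one has `a1 = b1 + c1 + d1`.
The singular point is `(1, 1, u, v, z)` with `u = 3 b1 / (a1 b)`, `v = 3 c1 / (a1 c)`, `z = 3 d1 / (a1 d)` (`0` when
`b = 0`, then also `b1 = 0`): `3 u^2 = b`, `b u = 3 b1 / a1`, `u^3 = b1 / a1`, so `b u + c v + d z = 3`. -/
def Stmt_SIN : Prop := ∀ (K : Type u) [Field K] [IsAlgClosed K], (3 : K) ≠ 0 → ∀ (b c d : K),
  (27 ^ 2 + b ^ 6 + c ^ 6 + d ^ 6 - 54 * (b ^ 3 + c ^ 3 + d ^ 3)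
    - 2 * (b ^ 3 * c ^ 3 + b ^ 3 * d ^ 3 + c ^ 3 * d ^ 3)) ^ 2 - 1728 * (b * c * d) ^ 3 = 0 →
  ∃ x : Fin 5 → K, x ≠ 0 ∧ eval x (cub b c d) = 0 ∧
    ∀ i : Fin 5, eval x (pderiv i (cub b c d)) = 0

/-- **ASM**: assembly of the parametrization of degree three, in all coordinates.
Proof: take `b' = -b/3` etc., PAR, DEG; with `P = A^2/B`, `Q = rho B^2/A`, `R = 3 m - P - Q` put
`p = (P + w^2 Q + w R)/3`, `q = (P + w Q + w^2 R)/3`; `gamma = ![-p, -q, r, 1, t]` satisfies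
`aeval gamma (cub b c d) = 0` (from `P Q R = Gam`), `K(gamma_i / gamma_3) = K(r, t, p, q) = K(r, t, P, Q)`
(`P = m + p + q`, `Q = m + w p + w^2 q`); a non-root `c` for `main_abs` exists since `F(c, gamma_1, ..)` is a monic
cubic in `c` (try `c = 0, 1, X 0`). Then `main_abs`. -/
def Stmt_ASM : Prop := ∀ (K : Type u) [Field K], (3 : K) ≠ 0 → ∀ (w : K), w ^ 2 + w + 1 = 0 →
  ∀ (b c d : K) (A : Matrix (Fin 5) (Fin 5) K), IsUnit A.det →
    ∃ g : Fin 4 → FractionRing (MvPolynomial (Fin 3) K),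
      RingHom.ker (MvPolynomial.aeval (R := K) g) =
        Ideal.span {MvPolynomial.aeval
          (Fin.cons (1 : MvPolynomial (Fin 4) K) MvPolynomial.X :
            Fin 5 → MvPolynomial (Fin 4) K) (linSub A (cub b c d))} ∧
      Module.finrank (IntermediateField.adjoin K (Set.range g))
        (FractionRing (MvPolynomial (Fin 3) K)) = 3

end Pool.Agent.Work.CubicOdd.DA
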