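import Pool.Agent.Work.MP_2f0ece_A.Interface
import Pool.Agent.Work.MP_2f0ece_helper84.CharThree2

/-!
# Characteristic three: cubic threefolds with three collinear Eckardt points (helper42)

Statements of the blocks. `K` is a field of characteristic 3. The threefold is
`F = x_0 x_1 (a(x_2,x_3,x_4) - x_0 - x_1) - g(x_2,x_3,x_4)`, `a` a linear form, `g` a ternary cubic form.

PAPER PROOF. `F'(alpha,beta,U) = alpha^3 + beta^3 + g(U) - a(U) alpha beta` is singular at a point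
`(alpha0, beta0, p)`, `a(p) = 0`. Project from it: `alpha = alpha0 s + y1`, `beta = beta0 s + y2`,
`U = e + V f + s p` where `a(e) = 1`, `a(f) = 0`, `(e,f,p)` a basis of `K^3`; the equation
`alpha^3 + beta^3 + g(U) = alpha beta` is linear in `s`:
`s D + N = 0`, `D = Dg(e + V f)(p) - alpha0 y2 - beta0 y1`, `N = y1^3 + y2^3 + g(e + V f) - y1 y2`.
The point of `F = 0` is `(P, Q, U)`, `P = alpha^2 / beta`, `Q = beta^2 / alpha`:
`P Q (1 - P - Q) = alpha beta - alpha^3 - beta^3 = g(U)`.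
-/

set_option autoImplicit false

namespace Pool.Agent.Work.CubicOdd.DC

open MvPolynomial Pool.Agent.Work.CubicOdd

universe u

section Defs

variable {R : Type u} [CommRing R]

/-- ternary cubic form with ten coefficients -/
def tern (k : Fin 10 → R) (x : Fin 3 → R) : R :=
  k 0 * x 0 ^ 3 + k 1 * x 0 ^ 2 * x 1 + k 2 * x 0 ^ 2 * x 2 + k 3 * x 0 * x 1 ^ 2 +
    k 4 * x 0 * x 1 * x 2 + k 5 * x 0 * x 2 ^ 2 + k 6 * x 1 ^ 3 + k 7 * x 1 ^ 2 * x 2 +
    k 8 * x 1 * x 2 ^ 2 + k 9 * x 2 ^ 3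

/-- its derivative at `x` in the direction `v` -/
def dtern (k : Fin 10 → R) (x v : Fin 3 → R) : R :=
  (3 * k 0 * x 0 ^ 2 + 2 * k 1 * x 0 * x 1 + 2 * k 2 * x 0 * x 2 + k 3 * x 1 ^ 2 +
    k 4 * x 1 * x 2 + k 5 * x 2 ^ 2) * v 0 +
  (k 1 * x 0 ^ 2 + 2 * k 3 * x 0 * x 1 + k 4 * x 0 * x 2 + 3 * k 6 * x 1 ^ 2 +
    2 * k 7 * x 1 * x 2 + k 8 * x 2 ^ 2) * v 1 +
  (k 2 * x 0 ^ 2 + k 4 * x 0 * x 1 + 2 * k 5 * x 0 * x 2 + k 7 * x 1 ^ 2 +
    2 * k 8 * x 1 * x 2 + 3 * k 9 * x 2 ^ 2) * v 2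

/-- `a_0 x_0 + a_1 x_1 + a_2 x_2` -/
def lin3 (a x : Fin 3 → R) : R := a 0 * x 0 + a 1 * x 1 + a 2 * x 2

theorem tern_add (k : Fin 10 → R) (x v : Fin 3 → R) (s : R) :
    tern k (fun i => x i + s * v i) =
      tern k x + s * dtern k x v + s ^ 2 * dtern k v x + s ^ 3 * tern k v := by
  simp only [tern, dtern]; ring

end Defs

/-- the family of cubic forms -/
noncomputable def cubE {K : Type u} [Field K] (a : Fin 3 → K) (k : Fin 10 → K) :
    MvPolynomial (Fin 5) K :=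
  X 0 * X 1 * (lin3 (fun i => C (a i)) ![X 2, X 3, X 4] - X 0 - X 1) -
    tern (fun i => C (k i)) ![X 2, X 3, X 4]

/-- **TRN**: a homogeneous polynomial of degree 3 in 3 variables is given by ten coefficients. -/
def Stmt_TRN : Prop := ∀ (K : Type u) [Field K] (g : MvPolynomial (Fin 3) K),
  g.IsHomogeneous 3 → ∃ k : Fin 10 → K, g = tern (fun i => C (k i)) X

/-- **PTS**: the singular point and the basis.
Proof. Some `a i` is not zero: choose explicitly `e` with `a(e) = 1` and a basis `f1, f2` of the kernel of `a`.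
`G(x,t) = g(x f1 + t f2) = A x^3 + B x^2 t + C x t^2 + D t^3` with `B = dtern f1 f2`, `C = dtern f2 f1`, and
`dtern p f1 = 3 A x^2 + 2 B x t + C t^2 = t (C t - B x)`, `dtern p f2 = B x^2 + 2 C x t + 3 D t^2 = x (B x - C t)` for
`p = x f1 + t f2` (characteristic 3). Take `(x, t) = (C, B)`, or `(0, 1)` if `B = C = 0`. So the linear form
`v ↦ dtern k p v` vanishes on the kernel of `a` and equals `c a` with `c = dtern k p e`. Choose `f` in the kernel
independent of `p`, and `phi, psi` the dual functionals (solve the linear systems; e.g. through a basis matrix or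
explicit formulas). `alpha0, beta0`: choose `n` with `n^3 = - g(p)`, and the roots of `T^2 - n T + c`:
`alpha0 + beta0 = n`, `alpha0 beta0 = c`, so `alpha0^3 + beta0^3 = n^3` in characteristic 3. -/
def Stmt_PTS : Prop := ∀ (K : Type u) [Field K] [IsAlgClosed K] [CharP K 3] (a : Fin 3 → K),
  a ≠ 0 → ∀ k : Fin 10 → K, ∃ (e f p φ ψ : Fin 3 → K) (α₀ β₀ : K),
    lin3 a e = 1 ∧ lin3 a f = 0 ∧ lin3 a p = 0 ∧ lin3 φ f = 1 ∧ lin3 φ p = 0 ∧
    lin3 ψ f = 0 ∧ lin3 ψ p = 1 ∧ (∀ v, dtern k p v = α₀ * β₀ * lin3 a v) ∧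
    α₀ ^ 3 + β₀ ^ 3 + tern k p = 0

/-- **PRM**: the parametrization of degree three (characteristic three).
Proof. `V = X 0`, `y1 = X 1`, `y2 = X 2` in `L3 K`; `D`, `N` as above (with coefficients mapped to `L3 K`).
`D ≠ 0`: it is the image of a polynomial with `- alpha0 y2 - beta0 y1` as part involving `y1, y2` (send
`X 0 ↦ 0` and look at the linear coefficients). `s = - N / D`. With `tern_add` (`x = e + V f`, `v = p`) and
`dtern k p x = alpha0 beta0 a(x) = alpha0 beta0`, `tern k p = - alpha0^3 - beta0^3`, `3 = 0`: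
`alpha^3 + beta^3 + tern U = alpha beta`.
`alpha ≠ 0`: if `alpha0 = 0` it is `y1`; otherwise `alpha = 0` gives `alpha0 N = y1 D`, and `X 0 ↦ 0, X 1 ↦ 0, X 2 ↦ X`
gives `alpha0 (X^3 + const) = 0`. The same for `beta`.
`gamma = ![P, Q, U 0, U 1, U 2]`; `lin3 a U = 1`; `aeval gamma (cubE a k) = P Q (1 - P - Q) - tern U = 0`.
A non-root `z`: `z Q (1 - z - Q) - tern U`, try `z = 0`, `z = 1`.
Degree: `M = K(gamma_i / gamma_0)` contains `1 / P = lin3 a U / gamma_0`, so `P, Q, U_i`, and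
`V = phi(U) - phi(e)`, `s = psi(U) - psi(e)`. Deformation (`exists_dual` of Basic.lean) `Phi` with
`d = ![0, alpha, - beta]`: `Phi V = V`; `Phi s = s` since `(Phi s - s) Phi D = 0`:
apply `Phi` to `s D + N = 0`: `Phi D = D - eps (beta0 alpha - alpha0 beta)`, `Phi N = N - eps (y2 alpha - y1 beta)` and
`s (beta0 alpha - alpha0 beta) + (y2 alpha - y1 beta) = alpha beta - beta alpha = 0`; `Phi D` is a unit as `D ≠ 0`
(compare `deriv_step` in CharThree2.lean). `Phi alpha = alpha (1 + eps)`, `Phi beta = beta (1 - eps)`, so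
`Phi P = P` (`P beta = alpha^2`, `(1 + eps)^2 = 1 - eps` in characteristic 3), `Phi Q = Q`.
So `M ≤ fixF Phi`, `alpha ∉ fixF Phi`, `alpha^3 = P^2 Q ∈ M`, and a field containing `M` and `alpha` contains
`beta = alpha^2 / P`, `y1 = alpha - alpha0 s`, `y2 = beta - beta0 s`, `V`, so it is everything (`eq_top_of_X`);
`finrank_eq_of_dual 3`. -/
def Stmt_PRM : Prop := ∀ (K : Type u) [Field K] [CharP K 3] (a : Fin 3 → K) (k : Fin 10 → K)
  (e f p φ ψ : Fin 3 → K) (α₀ β₀ : K),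
  lin3 a e = 1 → lin3 a f = 0 → lin3 a p = 0 → lin3 φ f = 1 → lin3 φ p = 0 →
  lin3 ψ f = 0 → lin3 ψ p = 1 → (∀ v, dtern k p v = α₀ * β₀ * lin3 a v) →
  α₀ ^ 3 + β₀ ^ 3 + tern k p = 0 → (α₀ ≠ 0 ∨ β₀ ≠ 0) →
  ∃ γ : Fin 5 → L3 K, aeval γ (cubE a k) = 0 ∧
    (∃ c : L3 K, aeval (Fin.cons c (Fin.tail γ) : Fin 5 → L3 K) (cubE a k) ≠ 0) ∧
    γ 0 ≠ 0 ∧
    Module.finrank (IntermediateField.adjoin K (Set.range fun i => γ i / γ 0)) (L3 K) = 3

/-- **IRC**: homogeneous and irreducible, over every field.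
Proof: through `finSuccEquiv K 4`, `F = - y_0 T^2 + (a y_0 - y_0^2) T - g` over `A = K[y_0..y_3]`, `y_0` prime, not dividing
`g(y_1,y_2,y_3) ≠ 0`. A factor of degree 0 in `T` divides `y_0` and `g`, so it is a unit. If
`F = (g1 T + g0)(h1 T + h0)` then `g1 h1 = - y_0`, so one of them, say `g1`, is divisible by `y_0` and the other is a
unit; `g1 h0 + g0 h1 = y_0 (a - y_0)` gives `y_0 ∣ g0`, so `y_0 ∣ g0 h0 = - g`, contradiction. (Or: Gauss lemma and
Eisenstein at `y_0` for the reversed polynomial.) -/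
def Stmt_IRC : Prop := ∀ (K : Type u) [Field K] (a : Fin 3 → K) (k : Fin 10 → K), k ≠ 0 →
  (cubE a k).IsHomogeneous 3 ∧ Irreducible (cubE a k)

/-- **FIC**: the theorem. Proof: TRN gives `k`; `k ≠ 0` (otherwise `g = 0` is singular at `(1,0,0)`);
PTS gives the data; `alpha0 = beta0 = 0` would give `tern k p = 0`, `dtern k p = 0`, `p ≠ 0` (as `psi(p) = 1`), a
singular zero of `g` (`eval p (pderiv i g) = dtern k p (unit vector i)`); then PRM, IRC and `main_abs`. -/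
def Stmt_FIC : Prop := ∀ (K : Type u) [Field K] [IsAlgClosed K] [CharP K 3] (a : Fin 3 → K),
  a ≠ 0 → ∀ g : MvPolynomial (Fin 3) K, g.IsHomogeneous 3 →
  (∀ x : Fin 3 → K, x ≠ 0 → ¬ (eval x g = 0 ∧ ∀ i : Fin 3, eval x (pderiv i g) = 0)) →
  ∀ A : Matrix (Fin 5) (Fin 5) K, IsUnit A.det →
    ∃ G : Fin 4 → FractionRing (MvPolynomial (Fin 3) K),
      RingHom.ker (MvPolynomial.aeval (R := K) G) =
        Ideal.span {MvPolynomial.aeval
          (Fin.cons (1 : MvPolynomial (Fin 4) K) MvPolynomial.X :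
            Fin 5 → MvPolynomial (Fin 4) K)
          (linSub A (X 0 * X 1 * (C (a 0) * X 2 + C (a 1) * X 3 + C (a 2) * X 4 - X 0 - X 1) -
            aeval ![(X 2 : MvPolynomial (Fin 5) K), X 3, X 4] g))} ∧
      Module.finrank (IntermediateField.adjoin K (Set.range G))
        (FractionRing (MvPolynomial (Fin 3) K)) = 3

end Pool.Agent.Work.CubicOdd.DC
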