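import Pool.Agent.Work.MP_2f0ece_A.InterfaceC
import Pool.Agent.Work.MP_2f0ece_A.B_TRN
import Pool.Agent.Work.MP_2f0ece_A.B_IRC
import Pool.Agent.Work.MP_2f0ece_A.B_ASM

/-!
# The three-isogeny between `x_0^3 + x_1^3 + G = a x_0 x_1` and `x_0 x_1 (a - x_0 - x_1) = G`
-/

set_option autoImplicit false

namespace Pool.Agent.Work.CubicOdd.DI

open MvPolynomial Pool.Agent.Work.CubicOdd

universe u

variable {K : Type u} [Field K]

/-- `F = 0` has a dominant rational map from `P^3` of degree `d` -/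
def HasParam (F : MvPolynomial (Fin 5) K) (d : ℕ) : Prop :=
  ∃ g : Fin 4 → FractionRing (MvPolynomial (Fin 3) K),
    RingHom.ker (MvPolynomial.aeval (R := K) g) =
      Ideal.span {MvPolynomial.aeval
        (Fin.cons (1 : MvPolynomial (Fin 4) K) MvPolynomial.X :
          Fin 5 → MvPolynomial (Fin 4) K) F} ∧
    Module.finrank (IntermediateField.adjoin K (Set.range g))
      (FractionRing (MvPolynomial (Fin 3) K)) = d

/-- the linear form in the last three variables -/
noncomputable def lf3 (a : Fin 3 → K) : MvPolynomial (Fin 5) K :=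
  C (a 0) * X 2 + C (a 1) * X 3 + C (a 2) * X 4

/-- a ternary form in the last three variables -/
noncomputable def up (G : MvPolynomial (Fin 3) K) : MvPolynomial (Fin 5) K :=
  MvPolynomial.aeval ![(X 2 : MvPolynomial (Fin 5) K), X 3, X 4] G

/-- `x_0^3 + x_1^3 + G - a x_0 x_1` -/
noncomputable def F1 (a : Fin 3 → K) (G : MvPolynomial (Fin 3) K) : MvPolynomial (Fin 5) K :=
  X 0 ^ 3 + X 1 ^ 3 + up G - X 0 * X 1 * lf3 a

/-- `x_0 x_1 (a - x_0 - x_1) - G` -/
noncomputable def F2 (a : Fin 3 → K) (G : MvPolynomial (Fin 3) K) : MvPolynomial (Fin 5) K :=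
  X 0 * X 1 * (lf3 a - X 0 - X 1) - up G

section Ev

variable {E : Type*} [CommRing E] [Algebra K E]

theorem aeval_up (G : MvPolynomial (Fin 3) K) (x : Fin 5 → E) :
    aeval x (up G) = aeval ![x 2, x 3, x 4] G := by
  have : (aeval x : MvPolynomial (Fin 5) K →ₐ[K] E).comp
      (aeval ![(X 2 : MvPolynomial (Fin 5) K), X 3, X 4]) = aeval ![x 2, x 3, x 4] := by
    apply MvPolynomial.algHom_ext
    intro i
    rw [AlgHom.comp_apply, aeval_X, aeval_X]
    fin_cases i <;> simp
  exact DFunLike.congr_fun this G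

theorem aeval_lf3 (a : Fin 3 → K) (x : Fin 5 → E) :
    aeval x (lf3 a) = algebraMap K E (a 0) * x 2 + algebraMap K E (a 1) * x 3 +
      algebraMap K E (a 2) * x 4 := by
  simp only [lf3, map_add, map_mul, aeval_C, aeval_X]

theorem aeval_F1 (a : Fin 3 → K) (G : MvPolynomial (Fin 3) K) (x : Fin 5 → E) :
    aeval x (F1 a G) = x 0 ^ 3 + x 1 ^ 3 + aeval ![x 2, x 3, x 4] G -
      x 0 * x 1 * (algebraMap K E (a 0) * x 2 + algebraMap K E (a 1) * x 3 +
      algebraMap K E (a 2) * x 4) := by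
  simp only [F1, map_add, map_sub, map_mul, map_pow, aeval_X, aeval_up, aeval_lf3]

theorem aeval_F2 (a : Fin 3 → K) (G : MvPolynomial (Fin 3) K) (x : Fin 5 → E) :
    aeval x (F2 a G) = x 0 * x 1 * (algebraMap K E (a 0) * x 2 + algebraMap K E (a 1) * x 3 +
      algebraMap K E (a 2) * x 4 - x 0 - x 1) - aeval ![x 2, x 3, x 4] G := by
  simp only [F2, map_add, map_sub, map_mul, map_pow, aeval_X, aeval_up, aeval_lf3]

/-- scaling of the variables of a cubic ternary form -/
theorem aeval_scale3 (G : MvPolynomial (Fin 3) K) (hG : G.IsHomogeneous 3) (s x y z : E) :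
    aeval ![s * x, s * y, s * z] G = s ^ 3 * aeval ![x, y, z] G := by
  have h := aeval_scale G hG s ![x, y, z]
  rw [← h]
  congr 2
  funext i
  fin_cases i <;> simp

end Ev

/-- the dehomogenized form evaluated -/
theorem aeval_dehom {E : Type*} [CommRing E] [Algebra K E] (F : MvPolynomial (Fin 5) K)
    (g : Fin 4 → E) :
    aeval g (MvPolynomial.aeval (Fin.cons (1 : MvPolynomial (Fin 4) K) MvPolynomial.X :
          Fin 5 → MvPolynomial (Fin 4) K) F) = aeval (Fin.cons 1 g : Fin 5 → E) F := by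
  have : (aeval g : MvPolynomial (Fin 4) K →ₐ[K] E).comp
      (MvPolynomial.aeval (Fin.cons (1 : MvPolynomial (Fin 4) K) MvPolynomial.X :
          Fin 5 → MvPolynomial (Fin 4) K)) = aeval (Fin.cons 1 g : Fin 5 → E) := by
    apply MvPolynomial.algHom_ext
    intro i
    rw [AlgHom.comp_apply, aeval_X, aeval_X]
    refine Fin.cases ?_ (fun j => ?_) i
    · simp
    · simp
  exact DFunLike.congr_fun this F


/-- a non-root of a quadratic polynomial -/
theorem nonroot2 (Q S T : L3 K) (hQ : Q ≠ 0) : ∃ c : L3 K, c * Q * (S - c) - T ≠ 0 := by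
  by_contra hcon
  push Not at hcon
  have h0 := hcon 0
  have h1 := hcon 1
  have h2 := hcon (DA.xv K 0)
  have hT : T = 0 := by linear_combination -h0
  have hS : S = 1 := by
    have : Q * (S - 1) = 0 := by linear_combination h1 + hT
    exact sub_eq_zero.1 ((mul_eq_zero.1 this).resolve_left hQ)
  have hinj := IsFractionRing.injective (MvPolynomial (Fin 3) K) (L3 K)
  have hx : (DA.xv K 0) ≠ 0 := by
    intro h
    have h5 : (X 0 : MvPolynomial (Fin 3) K) = 0 := hinj (by rw [map_zero]; exact h)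
    exact X_ne_zero _ h5
  have hx1 : (DA.xv K 0) ≠ 1 := by
    intro h
    have h5 : (X 0 : MvPolynomial (Fin 3) K) = 1 := hinj (by rw [map_one]; exact h)
    have h6 := congrArg (eval (fun _ => (0 : K))) h5
    simp at h6
  rw [hT, hS, sub_zero] at h2
  rcases mul_eq_zero.1 h2 with h | h
  · rcases mul_eq_zero.1 h with h | h
    · exact hx h
    · exact hQ h
  · exact hx1 (sub_eq_zero.1 h).symm

/-- degree three of the isogeny: adjoining a cube root -/
theorem finrank_cube (w : K) (hw : w ^ 2 + w + 1 = 0) (M : IntermediateField K (L3 K)) (T : L3 K)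
    (h1 : T ^ 3 ∈ M) (h2 : T ∉ M) :
    Module.finrank M (IntermediateField.adjoin M ({T} : Set (L3 K))) = 3 := by
  have hwL : (algebraMap K (L3 K) w) ^ 2 + algebraMap K (L3 K) w + 1 = 0 := by
    have := congrArg (algebraMap K (L3 K)) hw
    simpa using this
  set W := algebraMap K (L3 K) w with hW
  have hWM : W ∈ M := M.algebraMap_mem w
  have hT0 : T ≠ 0 := by
    rintro rfl
    exact h2 M.zero_mem
  have hW0 : W ≠ 0 := by
    intro h
    rw [h] at hwL
    norm_num at hwL
  have hirr : Irreducible (Polynomial.X ^ 3 - Polynomial.C (⟨T ^ 3, h1⟩ : M)) := by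
    apply X_pow_sub_C_irreducible_of_prime Nat.prime_three
    intro b hb
    apply h2
    have hb' : (b : L3 K) ^ 3 = T ^ 3 := congrArg (algebraMap M (L3 K)) hb
    have h5 : ((b : L3 K) - T) * (((b : L3 K) - W * T) * ((b : L3 K) - W ^ 2 * T)) = 0 := by
      linear_combination hb' + (-(b : L3 K) ^ 2 * T + (b : L3 K) * T ^ 2 * W -
        T ^ 3 * (W - 1)) * hwL
    rcases mul_eq_zero.1 h5 with h | h
    · rw [← sub_eq_zero.1 h]; exact b.2
    · rcases mul_eq_zero.1 h with h | h
      · have : T = (b : L3 K) / W := by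
          rw [eq_div_iff hW0]; linear_combination -h
        rw [this]; exact div_mem b.2 hWM
      · have : T = (b : L3 K) / W ^ 2 := by
          rw [eq_div_iff (pow_ne_zero 2 hW0)]; linear_combination -h
        rw [this]; exact div_mem b.2 (pow_mem hWM 2)
  have hmonic : (Polynomial.X ^ 3 - Polynomial.C (⟨T ^ 3, h1⟩ : M)).Monic :=
    Polynomial.monic_X_pow_sub_C _ (by norm_num)
  have hroot : Polynomial.aeval T (Polynomial.X ^ 3 - Polynomial.C (⟨T ^ 3, h1⟩ : M)) = 0 := by
    simp only [map_sub, map_pow, Polynomial.aeval_X, Polynomial.aeval_C]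
    exact sub_eq_zero.2 rfl
  have hmin := minpoly.eq_of_irreducible_of_monic hirr hroot hmonic
  have hint : IsIntegral M T := ⟨_, hmonic, hroot⟩
  have hf := IntermediateField.adjoin.finrank hint
  rw [← hmin, Polynomial.natDegree_X_pow_sub_C] at hf
  exact hf


/-- the coordinates of the image under the isogeny -/
noncomputable def sv (g : Fin 4 → L3 K) : Fin 4 → L3 K := ![g 0 ^ 3, g 0 * g 1, g 0 * g 2, g 0 * g 3]

theorem F1_at (a : Fin 3 → K) (G : MvPolynomial (Fin 3) K) (g : Fin 4 → L3 K) :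
    aeval g (MvPolynomial.aeval (Fin.cons (1 : MvPolynomial (Fin 4) K) MvPolynomial.X :
          Fin 5 → MvPolynomial (Fin 4) K) (F1 a G)) =
      1 + g 0 ^ 3 + aeval ![g 1, g 2, g 3] G - g 0 * (algebraMap K (L3 K) (a 0) * g 1 +
        algebraMap K (L3 K) (a 1) * g 2 + algebraMap K (L3 K) (a 2) * g 3) := by
  rw [aeval_dehom, aeval_F1]
  change 1 ^ 3 + g 0 ^ 3 + aeval ![g 1, g 2, g 3] G - 1 * g 0 *
    (algebraMap K (L3 K) (a 0) * g 1 +
        algebraMap K (L3 K) (a 1) * g 2 + algebraMap K (L3 K) (a 2) * g 3) = _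
  ring

theorem g0_ne (a : Fin 3 → K) (G : MvPolynomial (Fin 3) K) (hG : G.IsHomogeneous 3)
    (g : Fin 4 → L3 K)
    (hker : RingHom.ker (MvPolynomial.aeval (R := K) g) =
      Ideal.span {MvPolynomial.aeval
        (Fin.cons (1 : MvPolynomial (Fin 4) K) MvPolynomial.X :
          Fin 5 → MvPolynomial (Fin 4) K) (F1 a G)}) : g 0 ≠ 0 := by
  intro h
  have h1 : (X 0 : MvPolynomial (Fin 4) K) ∈ RingHom.ker (MvPolynomial.aeval (R := K) g) := by
    rw [RingHom.mem_ker, aeval_X, h]
  rw [hker, Ideal.mem_span_singleton] at h1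
  obtain ⟨R, hR⟩ := h1
  let ψ : MvPolynomial (Fin 4) K →ₐ[K] Polynomial K := aeval ![Polynomial.X, 0, 0, 0]
  have h2 := congrArg ψ hR
  rw [map_mul] at h2
  have h3 : ψ (MvPolynomial.aeval (Fin.cons (1 : MvPolynomial (Fin 4) K) MvPolynomial.X :
          Fin 5 → MvPolynomial (Fin 4) K) (F1 a G)) = 1 + Polynomial.X ^ 3 := by
    change aeval ![Polynomial.X, 0, 0, 0] _ = _
    rw [aeval_dehom, aeval_F1]
    have e0 : aeval ![(0 : Polynomial K), 0, 0] G = 0 := by
      have := aeval_scale3 G hG (0 : Polynomial K) 0 0 0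
      simpa using this
    have e1 : (![(Fin.cons 1 ![Polynomial.X, 0, 0, 0] : Fin 5 → Polynomial K) 2,
        (Fin.cons 1 ![Polynomial.X, 0, 0, 0] : Fin 5 → Polynomial K) 3,
        (Fin.cons 1 ![Polynomial.X, 0, 0, 0] : Fin 5 → Polynomial K) 4]) =
        ![(0 : Polynomial K), 0, 0] := rfl
    rw [e1, e0]
    change 1 ^ 3 + Polynomial.X ^ 3 + 0 - 1 * Polynomial.X * (_ * 0 + _ * 0 + _ * 0) = _
    ring
  have h4 : ψ (X 0) = Polynomial.X := by simp [ψ]
  rw [h3, h4] at h2
  have h5 := congrArg Polynomial.natDegree h2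
  have hR0 : ψ R ≠ 0 := by
    intro h
    rw [h, mul_zero] at h2
    exact Polynomial.X_ne_zero h2
  have hq : (1 + Polynomial.X ^ 3 : Polynomial K).natDegree = 3 := by compute_degree!
  have hq0 : (1 + Polynomial.X ^ 3 : Polynomial K) ≠ 0 := by
    intro h
    rw [h] at hq
    simp at hq
  rw [Polynomial.natDegree_mul hq0 hR0, hq, Polynomial.natDegree_X] at h5
  omega

theorem g0_notMem (w : K) (hw : w ^ 2 + w + 1 = 0) (h3 : (3 : K) ≠ 0) (a : Fin 3 → K)
    (G : MvPolynomial (Fin 3) K) (hG : G.IsHomogeneous 3) (g : Fin 4 → L3 K)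
    (hker : RingHom.ker (MvPolynomial.aeval (R := K) g) =
      Ideal.span {MvPolynomial.aeval
        (Fin.cons (1 : MvPolynomial (Fin 4) K) MvPolynomial.X :
          Fin 5 → MvPolynomial (Fin 4) K) (F1 a G)}) :
    g 0 ∉ IntermediateField.adjoin K (Set.range (sv g)) := by
  intro hmem
  have hg0 := g0_ne a G hG g hker
  rw [IntermediateField.mem_adjoin_range_iff] at hmem
  obtain ⟨r, t, hrt⟩ := hmem
  have ht : aeval (sv g) t ≠ 0 := by
    intro h
    rw [h, div_zero] at hrt
    exact hg0 hrt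
  have hrt' : g 0 * aeval (sv g) t = aeval (sv g) r := by
    rw [hrt]; field_simp
  let σ : MvPolynomial (Fin 4) K →ₐ[K] MvPolynomial (Fin 4) K :=
    aeval ![X 0 ^ 3, X 0 * X 1, X 0 * X 2, X 0 * X 3]
  have hσ : ∀ (h : Fin 4 → L3 K) (H : MvPolynomial (Fin 4) K),
      aeval h (σ H) = aeval (sv h) H := by
    intro h H
    have : (aeval h : MvPolynomial (Fin 4) K →ₐ[K] L3 K).comp σ = aeval (sv h) := by
      apply MvPolynomial.algHom_ext
      intro i
      rw [AlgHom.comp_apply, aeval_X]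
      fin_cases i <;> simp [σ, sv]
    exact DFunLike.congr_fun this H
  obtain ⟨W, hW⟩ : ∃ z, z = algebraMap K (L3 K) w := ⟨_, rfl⟩
  have hwL : W ^ 2 + W + 1 = 0 := by
    have := congrArg (algebraMap K (L3 K)) hw
    rw [hW]
    simpa using this
  have hW3 : W ^ 3 = 1 := by linear_combination (W - 1) * hwL
  let g' : Fin 4 → L3 K := ![W * g 0, W ^ 2 * g 1, W ^ 2 * g 2, W ^ 2 * g 3]
  have hsv : sv g' = sv g := by
    funext i
    fin_cases i
    · change (W * g 0) ^ 3 = g 0 ^ 3
      linear_combination (g 0 ^ 3) * hW3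
    · change (W * g 0) * (W ^ 2 * g 1) = g 0 * g 1
      linear_combination (g 0 * g 1) * hW3
    · change (W * g 0) * (W ^ 2 * g 2) = g 0 * g 2
      linear_combination (g 0 * g 2) * hW3
    · change (W * g 0) * (W ^ 2 * g 3) = g 0 * g 3
      linear_combination (g 0 * g 3) * hW3
  have hzero : aeval g (MvPolynomial.aeval (Fin.cons (1 : MvPolynomial (Fin 4) K) MvPolynomial.X :
          Fin 5 → MvPolynomial (Fin 4) K) (F1 a G)) = 0 := by
    have : MvPolynomial.aeval (Fin.cons (1 : MvPolynomial (Fin 4) K) MvPolynomial.X :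
          Fin 5 → MvPolynomial (Fin 4) K) (F1 a G) ∈
        RingHom.ker (MvPolynomial.aeval (R := K) g) := by
      rw [hker]; exact Ideal.subset_span rfl
    exact this
  have hzero' : aeval g' (MvPolynomial.aeval (Fin.cons (1 : MvPolynomial (Fin 4) K) MvPolynomial.X :
          Fin 5 → MvPolynomial (Fin 4) K) (F1 a G)) = 0 := by
    rw [F1_at] at hzero ⊢
    change 1 + (W * g 0) ^ 3 + aeval ![W ^ 2 * g 1, W ^ 2 * g 2, W ^ 2 * g 3] G - (W * g 0) *
      (algebraMap K (L3 K) (a 0) * (W ^ 2 * g 1) +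
        algebraMap K (L3 K) (a 1) * (W ^ 2 * g 2) + algebraMap K (L3 K) (a 2) * (W ^ 2 * g 3)) = 0
    rw [aeval_scale3 G hG]
    linear_combination hzero + (g 0 ^ 3 + (W ^ 3 + 1) * aeval ![g 1, g 2, g 3] G - g 0 *
      (algebraMap K (L3 K) (a 0) * g 1 +
        algebraMap K (L3 K) (a 1) * g 2 + algebraMap K (L3 K) (a 2) * g 3)) * hW3
  have hH : X 0 * σ t - σ r ∈ RingHom.ker (MvPolynomial.aeval (R := K) g) := by
    rw [RingHom.mem_ker, map_sub, map_mul, aeval_X, hσ, hσ, hrt', sub_self]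
  rw [hker, Ideal.mem_span_singleton] at hH
  obtain ⟨R, hR⟩ := hH
  have h5 := congrArg (aeval g') hR
  rw [map_mul, hzero', zero_mul, map_sub, map_mul, aeval_X, hσ, hσ, hsv, ← hrt'] at h5
  change W * g 0 * _ - _ = 0 at h5
  have h6 : (W - 1) * (g 0 * aeval (sv g) t) = 0 := by linear_combination h5
  have hW1 : W - 1 ≠ 0 := by
    intro h
    have h7 : W = 1 := sub_eq_zero.1 h
    have h3L : (3 : L3 K) ≠ 0 := by
      have : (algebraMap K (L3 K)) 3 ≠ 0 := (map_ne_zero _).2 h3
      rwa [map_ofNat] at this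
    apply h3L
    rw [h7] at hwL
    linear_combination hwL
  rcases mul_eq_zero.1 h6 with h | h
  · exact hW1 h
  · rcases mul_eq_zero.1 h with h | h
    · exact hg0 h
    · exact ht h


/-- **The isogeny**: a parametrization of degree `n` of `x_0^3 + x_1^3 + G = a x_0 x_1` gives one of
degree `3 n` of `x_0 x_1 (a - x_0 - x_1) = G`, in every coordinate system. -/
theorem iso_param (w : K) (hw : w ^ 2 + w + 1 = 0) (h3 : (3 : K) ≠ 0) (a : Fin 3 → K)
    (G : MvPolynomial (Fin 3) K) (hG : G.IsHomogeneous 3) (hG0 : G ≠ 0) (n : ℕ) (hn : n ≠ 0)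
    (h : HasParam (F1 a G) n) (A : Matrix (Fin 5) (Fin 5) K) (hA : IsUnit A.det) :
    HasParam (linSub A (F2 a G)) (3 * n) := by
  obtain ⟨g, hker, hfin⟩ := h
  have hg0 := g0_ne a G hG g hker
  have hnot := g0_notMem w hw h3 a G hG g hker
  obtain ⟨k, hk⟩ := DC.p_TRN K G hG
  have hk0 : k ≠ 0 := by
    rintro rfl
    apply hG0
    rw [hk]
    simp [DC.tern]
  have hF2 : F2 a G = DC.cubE a k := by
    rw [hk, F2, DC.cubE, up]
    congr 1
    simp only [DC.tern, map_add, map_mul, map_pow, aeval_C, aeval_X, MvPolynomial.algebraMap_eq]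
  obtain ⟨hhom, hirr⟩ := DC.p_IRC K a k hk0
  rw [← hF2] at hhom hirr
  let γ : Fin 5 → L3 K := Fin.cons 1 (sv g)
  have hzero : aeval g (MvPolynomial.aeval (Fin.cons (1 : MvPolynomial (Fin 4) K) MvPolynomial.X :
          Fin 5 → MvPolynomial (Fin 4) K) (F1 a G)) = 0 := by
    have : MvPolynomial.aeval (Fin.cons (1 : MvPolynomial (Fin 4) K) MvPolynomial.X :
          Fin 5 → MvPolynomial (Fin 4) K) (F1 a G) ∈
        RingHom.ker (MvPolynomial.aeval (R := K) g) := by
      rw [hker]; exact Ideal.subset_span rfl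
    exact this
  rw [F1_at] at hzero
  have hev : ∀ c : L3 K, aeval (Fin.cons c (sv g) : Fin 5 → L3 K) (F2 a G) =
      c * g 0 ^ 3 * (g 0 * (algebraMap K (L3 K) (a 0) * g 1 +
        algebraMap K (L3 K) (a 1) * g 2 + algebraMap K (L3 K) (a 2) * g 3) - g 0 ^ 3 - c) -
      g 0 ^ 3 * aeval ![g 1, g 2, g 3] G := by
    intro c
    rw [aeval_F2]
    change c * g 0 ^ 3 * (algebraMap K (L3 K) (a 0) * (g 0 * g 1) +
      algebraMap K (L3 K) (a 1) * (g 0 * g 2) + algebraMap K (L3 K) (a 2) * (g 0 * g 3) - c -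
      g 0 ^ 3) - aeval ![g 0 * g 1, g 0 * g 2, g 0 * g 3] G = _
    rw [aeval_scale3 G hG]
    ring
  have h0 : aeval γ (F2 a G) = 0 := by
    change aeval (Fin.cons 1 (sv g) : Fin 5 → L3 K) (F2 a G) = 0
    rw [hev]
    linear_combination (-g 0 ^ 3) * hzero
  obtain ⟨c, hc⟩ := nonroot2 (g 0 ^ 3) (g 0 * (algebraMap K (L3 K) (a 0) * g 1 +
        algebraMap K (L3 K) (a 1) * g 2 + algebraMap K (L3 K) (a 2) * g 3) - g 0 ^ 3)
    (g 0 ^ 3 * aeval ![g 1, g 2, g 3] G) (pow_ne_zero 3 hg0)
  have hcc : aeval (Fin.cons c (Fin.tail γ) : Fin 5 → L3 K) (F2 a G) ≠ 0 := by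
    have : Fin.tail γ = sv g := rfl
    rw [this, hev]
    exact hc
  have hγ0 : γ 0 = 1 := rfl
  have hne : γ 0 ≠ 0 := by rw [hγ0]; exact one_ne_zero
  -- the fields
  set M := IntermediateField.adjoin K (Set.range (sv g)) with hM
  set M' := IntermediateField.adjoin K (Set.range g) with hM'
  have hfield : IntermediateField.adjoin K (Set.range fun i => γ i / γ 0) = M := by
    apply le_antisymm
    · rw [IntermediateField.adjoin_le_iff]
      rintro _ ⟨i, rfl⟩
      change γ i / γ 0 ∈ M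
      rw [hγ0, div_one]
      refine Fin.cases (one_mem M) (fun j => ?_) i
      exact IntermediateField.subset_adjoin _ _ ⟨j, rfl⟩
    · rw [hM, IntermediateField.adjoin_le_iff]
      rintro _ ⟨j, rfl⟩
      apply IntermediateField.subset_adjoin
      refine ⟨j.succ, ?_⟩
      change γ j.succ / γ 0 = sv g j
      rw [hγ0, div_one]
      rfl
  have hgM' : ∀ i, g i ∈ M' := fun i => IntermediateField.subset_adjoin _ _ ⟨i, rfl⟩
  have hle : M ≤ M' := by
    rw [hM, IntermediateField.adjoin_le_iff]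
    rintro _ ⟨i, rfl⟩
    fin_cases i
    · exact pow_mem (hgM' 0) 3
    · exact mul_mem (hgM' 0) (hgM' 1)
    · exact mul_mem (hgM' 0) (hgM' 2)
    · exact mul_mem (hgM' 0) (hgM' 3)
  have hsM : ∀ i, sv g i ∈ M := fun i => IntermediateField.subset_adjoin _ _ ⟨i, rfl⟩
  have h3M : g 0 ^ 3 ∈ M := hsM 0
  have hext : IntermediateField.extendScalars hle =
      IntermediateField.adjoin M ({g 0} : Set (L3 K)) := by
    apply le_antisymm
    · intro x hx
      have hx' : x ∈ M' := hx
      set E := IntermediateField.adjoin M ({g 0} : Set (L3 K)) with hE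
      have hME : ∀ x ∈ M, x ∈ E := fun x hx => E.algebraMap_mem ⟨x, hx⟩
      have h0E : g 0 ∈ E := IntermediateField.subset_adjoin _ _ rfl
      have hgE : ∀ i, g i ∈ E := by
        intro i
        fin_cases i
        · exact h0E
        · have : g 1 = sv g 1 / g 0 := by
            change g 1 = (g 0 * g 1) / g 0
            field_simp
          change g 1 ∈ E
          rw [this]
          exact div_mem (hME _ (hsM 1)) h0E
        · have : g 2 = sv g 2 / g 0 := by
            change g 2 = (g 0 * g 2) / g 0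
            field_simp
          change g 2 ∈ E
          rw [this]
          exact div_mem (hME _ (hsM 2)) h0E
        · have : g 3 = sv g 3 / g 0 := by
            change g 3 = (g 0 * g 3) / g 0
            field_simp
          change g 3 ∈ E
          rw [this]
          exact div_mem (hME _ (hsM 3)) h0E
      have hall : ∀ y ∈ IntermediateField.adjoin K (Set.range g), y ∈ E := by
        intro y hy
        induction hy using IntermediateField.adjoin_induction with
        | mem x hx => obtain ⟨i, rfl⟩ := hx; exact hgE i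
        | algebraMap x => exact hME _ (M.algebraMap_mem x)
        | add x y _ _ hx hy => exact add_mem hx hy
        | inv x _ hx => exact inv_mem hx
        | mul x y _ _ hx hy => exact mul_mem hx hy
      exact hall x hx'
    · rw [IntermediateField.adjoin_le_iff]
      rintro x hx
      rw [Set.mem_singleton_iff.1 hx]
      exact hgM' 0
  have hf1 : Module.finrank M (IntermediateField.extendScalars hle) = 3 := by
    rw [hext]; exact finrank_cube w hw M (g 0) h3M hnot
  have hf2 : Module.finrank (IntermediateField.extendScalars hle) (L3 K) = n := hfin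
  have hf3 : Module.finrank M (L3 K) = 3 * n := by
    rw [← Module.finrank_mul_finrank M (IntermediateField.extendScalars hle) (L3 K), hf1, hf2]
  have hf4 : Module.finrank (IntermediateField.adjoin K (Set.range fun i => γ i / γ 0)) (L3 K) =
      3 * n := by
    rw [hfield]; exact hf3
  exact main_abs (F2 a G) hhom hirr γ h0 c hcc 0 hne (3 * n) (by omega) hf4 A hA


/-- the Fermat ternary cubic -/
noncomputable def fermat3 (K : Type u) [Field K] : MvPolynomial (Fin 3) K :=
  X 0 ^ 3 + X 1 ^ 3 + X 2 ^ 3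

theorem F1_fermat (b c d : K) : F1 ![b, c, d] (fermat3 K) = DA.cub b c d := by
  rw [F1, DA.cub, up, lf3, fermat3]
  simp only [map_add, map_pow, aeval_X]
  simp
  ring

/-- degree nine for `x_0 x_1 (a - x_0 - x_1) = x_2^3 + x_3^3 + x_4^3` -/
theorem nine (hDEG : DA.Stmt_DEG.{u}) (hPAR : DA.Stmt_PAR.{u}) (hIRR : DA.Stmt_IRR.{u})
    (w : K) (hw : w ^ 2 + w + 1 = 0) (h3 : (3 : K) ≠ 0) (b c d : K)
    (A : Matrix (Fin 5) (Fin 5) K) (hA : IsUnit A.det) :
    HasParam (linSub A (F2 ![b, c, d] (fermat3 K))) 9 := by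
  have h1 := DA.p_ASM hDEG hPAR hIRR K h3 w hw b c d 1 (by rw [Matrix.det_one]; exact isUnit_one)
  have h2 : HasParam (F1 ![b, c, d] (fermat3 K)) 3 := by
    rw [F1_fermat]
    have e : linSub 1 (DA.cub b c d) = DA.cub b c d := by
      have : linSub (1 : Matrix (Fin 5) (Fin 5) K) = AlgHom.id K _ := by
        apply MvPolynomial.algHom_ext
        intro i
        rw [linSub, aeval_X, AlgHom.id_apply, Finset.sum_eq_single i]
        · simp
        · intro j _ hj
          rw [Matrix.one_apply_ne hj.symm]; simp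
        · simp
      rw [this]; rfl
    rw [e] at h1
    exact h1
  have hG : (fermat3 K).IsHomogeneous 3 := by
    have hXp : ∀ (i : Fin 3) (n : ℕ), (X i ^ n : MvPolynomial (Fin 3) K).IsHomogeneous n :=
      fun i n => isHomogeneous_X_pow _ _
    exact ((hXp 0 3).add (hXp 1 3)).add (hXp 2 3)
  have hG0 : fermat3 K ≠ 0 := by
    intro h
    have := congrArg (eval ![1, 0, 0]) h
    simp [fermat3] at this
  exact iso_param w hw h3 ![b, c, d] (fermat3 K) hG hG0 3 (by norm_num) h2 A hA

/-- the matrix of the substitution `x_0 = s + p + q`, `x_1 = s + w p + w^2 q`, `s = a / 3` -/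
def mat (w : K) (a : Fin 3 → K) : Matrix (Fin 5) (Fin 5) K :=
  !![1, 1, a 0 / 3, a 1 / 3, a 2 / 3; w, w ^ 2, a 0 / 3, a 1 / 3, a 2 / 3;
    0, 0, 1, 0, 0; 0, 0, 0, 1, 0; 0, 0, 0, 0, 1]

/-- `a^3 / 27 - G` as a ternary form -/
noncomputable def dual (a : Fin 3 → K) (G : MvPolynomial (Fin 3) K) : MvPolynomial (Fin 3) K :=
  C (1 / 27) * (C (a 0) * X 0 + C (a 1) * X 1 + C (a 2) * X 2) ^ 3 - G

theorem linSub_up (A : Matrix (Fin 5) (Fin 5) K) (G : MvPolynomial (Fin 3) K) :
    linSub A (up G) = aeval ![linSub A (X 2), linSub A (X 3), linSub A (X 4)] G := by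
  have : (linSub A).comp (aeval ![(X 2 : MvPolynomial (Fin 5) K), X 3, X 4]) =
      aeval ![linSub A (X 2), linSub A (X 3), linSub A (X 4)] := by
    apply MvPolynomial.algHom_ext
    intro i
    rw [AlgHom.comp_apply, aeval_X, aeval_X]
    fin_cases i <;> simp
  exact DFunLike.congr_fun this G

theorem linSub_mat (w : K) (hw : w ^ 2 + w + 1 = 0) (h3 : (3 : K) ≠ 0) (a : Fin 3 → K)
    (G : MvPolynomial (Fin 3) K) : linSub (mat w a) (F2 a G) = F1 a (dual a G) := by
  have l0 : linSub (mat w a) (X 0) = X 0 + X 1 + C (1 / 3) * lf3 a := by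
    rw [linSub, aeval_X, Fin.sum_univ_five, lf3]
    simp only [mat, Matrix.of_apply, Matrix.cons_val', Matrix.cons_val_zero, Matrix.cons_val_one,
      Matrix.cons_val]
    simp only [div_eq_mul_inv, C_mul, one_mul, C_1]
    ring
  have l1 : linSub (mat w a) (X 1) = C w * X 0 + C w ^ 2 * X 1 + C (1 / 3) * lf3 a := by
    rw [linSub, aeval_X, Fin.sum_univ_five, lf3]
    simp only [mat, Matrix.of_apply, Matrix.cons_val', Matrix.cons_val_zero, Matrix.cons_val_one,
      Matrix.cons_val]
    simp only [div_eq_mul_inv, C_mul, one_mul, C_1, C_pow]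
    ring
  have l2 : linSub (mat w a) (X 2) = X 2 := by
    rw [linSub, aeval_X, Fin.sum_univ_five]
    simp [mat]
  have l3 : linSub (mat w a) (X 3) = X 3 := by
    rw [linSub, aeval_X, Fin.sum_univ_five]
    simp [mat]
  have l4 : linSub (mat w a) (X 4) = X 4 := by
    rw [linSub, aeval_X, Fin.sum_univ_five]
    simp [mat]
  have lC : ∀ z : K, linSub (mat w a) (C z) = C z := fun z => by
    rw [← MvPolynomial.algebraMap_eq]; exact (linSub (mat w a)).commutes z
  have lf : linSub (mat w a) (lf3 a) = lf3 a := by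
    simp only [lf3, map_add, map_mul, lC, l2, l3, l4]
  have lup : linSub (mat w a) (up G) = up G := by
    rw [linSub_up, l2, l3, l4]; rfl
  have hC3 : (C (1 / 3) : MvPolynomial (Fin 5) K) * 3 = 1 := by
    have : (3 : MvPolynomial (Fin 5) K) = C 3 := by rw [map_ofNat]
    rw [this, ← C_mul, ← C_1]
    congr 1
    field_simp
  have hC27 : (C (1 / 27) : MvPolynomial (Fin 5) K) = C (1 / 3) ^ 3 := by
    rw [← C_pow]
    congr 1
    have : (27 : K) = 3 ^ 3 := by norm_num
    rw [this, one_div, one_div, inv_pow]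
  have hwC : (C w : MvPolynomial (Fin 5) K) ^ 2 + C w + 1 = 0 := by
    rw [← C_pow, ← C_1, ← C_add, ← C_add, hw, C_0]
  have hupd : up (dual a G) = C (1 / 27) * lf3 a ^ 3 - up G := by
    rw [up, dual, map_sub, map_mul, map_pow, map_add, map_add, map_mul, map_mul, map_mul]
    simp only [aeval_C, aeval_X, MvPolynomial.algebraMap_eq]
    rfl
  rw [F1, hupd, hC27, F2, map_sub, map_mul, map_mul, map_sub, map_sub, lup, lf, l0, l1]
  generalize lf3 a = S at *
  generalize up G = H at *
  generalize (C (1 / 3) : MvPolynomial (Fin 5) K) = e at *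
  generalize (C w : MvPolynomial (Fin 5) K) = W at *
  have hW3 : W ^ 3 = 1 := by linear_combination (W - 1) * hwC
  have e1 : S - (X 0 + X 1 + e * S) - (W * X 0 + W ^ 2 * X 1 + e * S) =
      e * S + W ^ 2 * X 0 + W * X 1 := by
    linear_combination (-S) * hC3 - (X 0 + X 1) * hwC
  have e2 : (W * X 0 + W ^ 2 * X 1 + e * S) * (e * S + W ^ 2 * X 0 + W * X 1) =
      (e * S) ^ 2 + X 0 ^ 2 + X 1 ^ 2 - (e * S) * X 0 - (e * S) * X 1 - X 0 * X 1 := by
    linear_combination (X 0 ^ 2 + X 1 ^ 2) * hW3 +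
      (e * S * X 0 + e * S * X 1 + (W ^ 2 - W + 1) * X 0 * X 1) * hwC
  rw [e1, mul_assoc, e2]
  linear_combination (-X 0 * X 1 * S) * hC3

theorem dual_dual (a : Fin 3 → K) (G : MvPolynomial (Fin 3) K) : dual a (dual a G) = G := by
  rw [dual, dual]; ring

theorem dual_homogeneous (a : Fin 3 → K) (G : MvPolynomial (Fin 3) K) (hG : G.IsHomogeneous 3) :
    (dual a G).IsHomogeneous 3 := by
  have hX : ∀ (z : K) (i : Fin 3), (C z * X i : MvPolynomial (Fin 3) K).IsHomogeneous 1 :=
    fun z i => isHomogeneous_C_mul_X _ _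
  have h1 := (((hX (a 0) 0).add (hX (a 1) 1)).add (hX (a 2) 2)).pow 3
  have h2 := (isHomogeneous_C (Fin 3) (1 / 27 : K)).mul h1
  rw [one_mul, zero_add] at h2
  exact h2.sub hG

theorem linSub_comp (A B : Matrix (Fin 5) (Fin 5) K) (H : MvPolynomial (Fin 5) K) :
    linSub A (linSub B H) = linSub (B * A) H := by
  have : (linSub A).comp (linSub B) = linSub (B * A) := by
    apply MvPolynomial.algHom_ext
    intro i
    rw [AlgHom.comp_apply]
    conv_lhs => rw [linSub, linSub]
    rw [linSub, aeval_X, aeval_X, map_sum]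
    simp only [map_mul, aeval_C, aeval_X, MvPolynomial.algebraMap_eq]
    simp_rw [Finset.mul_sum, ← mul_assoc, ← C_mul]
    rw [Finset.sum_comm]
    refine Finset.sum_congr rfl fun j _ => ?_
    rw [Matrix.mul_apply, map_sum, Finset.sum_mul]
  exact DFunLike.congr_fun this H

theorem mat_det (w : K) (hw : w ^ 2 + w + 1 = 0) (h3 : (3 : K) ≠ 0) (a : Fin 3 → K) :
    IsUnit (mat w a).det := by
  have h : (mat w a).det = w ^ 2 - w := by
    simp [mat, Matrix.det_succ_row_zero, Fin.sum_univ_succ, Fin.succAbove]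
    try ring
  rw [h, isUnit_iff_ne_zero]
  intro h0
  have h1 : w * (w - 1) = 0 := by linear_combination h0
  rcases mul_eq_zero.1 h1 with h2 | h2
  · rw [h2] at hw; norm_num at hw
  · have : w = 1 := sub_eq_zero.1 h2
    rw [this] at hw
    apply h3
    linear_combination hw

/-- in all coordinates -/
def HasAll (F : MvPolynomial (Fin 5) K) (d : ℕ) : Prop :=
  ∀ A : Matrix (Fin 5) (Fin 5) K, IsUnit A.det → HasParam (linSub A F) d

theorem linSub_one' (F : MvPolynomial (Fin 5) K) :
    linSub (1 : Matrix (Fin 5) (Fin 5) K) F = F := by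
  have : linSub (1 : Matrix (Fin 5) (Fin 5) K) = AlgHom.id K _ := by
    apply MvPolynomial.algHom_ext
    intro i
    rw [linSub, aeval_X, AlgHom.id_apply, Finset.sum_eq_single i]
    · simp
    · intro j _ hj
      rw [Matrix.one_apply_ne hj.symm]; simp
    · simp
  rw [this]; rfl

theorem all_forward (w : K) (hw : w ^ 2 + w + 1 = 0) (h3 : (3 : K) ≠ 0) (a : Fin 3 → K)
    (G : MvPolynomial (Fin 3) K) (hG : G.IsHomogeneous 3) (hG0 : G ≠ 0) (n : ℕ) (hn : n ≠ 0)
    (h : HasAll (F1 a G) n) : HasAll (F2 a G) (3 * n) := by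
  have h1 := h 1 (by rw [Matrix.det_one]; exact isUnit_one)
  rw [linSub_one'] at h1
  exact iso_param w hw h3 a G hG hG0 n hn h1

theorem all_backward (w : K) (hw : w ^ 2 + w + 1 = 0) (h3 : (3 : K) ≠ 0) (a : Fin 3 → K)
    (G : MvPolynomial (Fin 3) K) (hG : G.IsHomogeneous 3) (hG0 : dual a G ≠ 0) (n : ℕ)
    (hn : n ≠ 0) (h : HasAll (F2 a G) n) : HasAll (F1 a G) (3 * n) := by
  intro A hA
  have h1 := h (mat w a) (mat_det w hw h3 a)
  rw [linSub_mat w hw h3] at h1
  have h2 := iso_param w hw h3 a (dual a G) (dual_homogeneous a G hG) hG0 n hn h1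
    (mat w a * A) (by rw [Matrix.det_mul]; exact (mat_det w hw h3 a).mul hA)
  rwa [← linSub_comp, linSub_mat w hw h3, dual_dual] at h2

end Pool.Agent.Work.CubicOdd.DI
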