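import Pool.Agent.Work.MP_2f0ece_A.Iso

/-!
# The two threefolds of the isogeny are smooth at the same time
-/

set_option autoImplicit false

namespace Pool.Agent.Work.CubicOdd.DI

open MvPolynomial Pool.Agent.Work.CubicOdd

universe u

variable {K : Type u} [Field K]

/-- a singular point -/
def Sing (F : MvPolynomial (Fin 5) K) (x : Fin 5 → K) : Prop :=
  x ≠ 0 ∧ eval x F = 0 ∧ ∀ i : Fin 5, eval x (pderiv i F) = 0

theorem rename_eq (G : MvPolynomial (Fin 3) K) :
    up G = rename (![2, 3, 4] : Fin 3 → Fin 5) G := by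
  have : (aeval ![(X 2 : MvPolynomial (Fin 5) K), X 3, X 4] :
      MvPolynomial (Fin 3) K →ₐ[K] MvPolynomial (Fin 5) K) =
      rename (![2, 3, 4] : Fin 3 → Fin 5) := by
    apply MvPolynomial.algHom_ext
    intro i
    fin_cases i <;> simp
  exact DFunLike.congr_fun this G

theorem pd_up0 (G : MvPolynomial (Fin 3) K) : pderiv 0 (up G) = 0 := by
  classical
  apply pderiv_eq_zero_of_notMem_vars
  intro h
  rw [rename_eq] at h
  have := vars_rename _ _ h
  rw [Finset.mem_image] at this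
  obtain ⟨i, _, hi⟩ := this
  fin_cases i <;> simp at hi

theorem pd_up1 (G : MvPolynomial (Fin 3) K) : pderiv 1 (up G) = 0 := by
  classical
  apply pderiv_eq_zero_of_notMem_vars
  intro h
  rw [rename_eq] at h
  have := vars_rename _ _ h
  rw [Finset.mem_image] at this
  obtain ⟨i, _, hi⟩ := this
  fin_cases i <;> simp at hi

theorem eval_up (G : MvPolynomial (Fin 3) K) (x : Fin 5 → K) :
    eval x (up G) = eval ![x 2, x 3, x 4] G := by
  have := aeval_up G x
  rwa [MvPolynomial.aeval_eq_eval, MvPolynomial.aeval_eq_eval] at this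

theorem F1_pd (a : Fin 3 → K) (G : MvPolynomial (Fin 3) K) (x : Fin 5 → K) :
    (eval x (F1 a G) = 0 ∧ ∀ i : Fin 5, eval x (pderiv i (F1 a G)) = 0) ↔
    (x 0 ^ 3 + x 1 ^ 3 + eval x (up G) = x 0 * x 1 * (a 0 * x 2 + a 1 * x 3 + a 2 * x 4) ∧
    3 * x 0 ^ 2 = x 1 * (a 0 * x 2 + a 1 * x 3 + a 2 * x 4) ∧
    3 * x 1 ^ 2 = x 0 * (a 0 * x 2 + a 1 * x 3 + a 2 * x 4) ∧
    eval x (pderiv 2 (up G)) = a 0 * (x 0 * x 1) ∧
    eval x (pderiv 3 (up G)) = a 1 * (x 0 * x 1) ∧
    eval x (pderiv 4 (up G)) = a 2 * (x 0 * x 1)) := by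
  have e0 : eval x (pderiv 0 (F1 a G)) =
      3 * x 0 ^ 2 - x 1 * (a 0 * x 2 + a 1 * x 3 + a 2 * x 4) := by
    simp only [F1, lf3, map_add, map_sub, pd_up0, Derivation.leibniz, Derivation.leibniz_pow,
      pderiv_X, pderiv_C, Pi.single_apply, smul_eq_mul, eval_add, eval_mul, eval_pow, eval_X,
      eval_C, map_mul, map_pow, map_zero, nsmul_eq_mul, map_natCast]
    simp
    ring
  have e1 : eval x (pderiv 1 (F1 a G)) =
      3 * x 1 ^ 2 - x 0 * (a 0 * x 2 + a 1 * x 3 + a 2 * x 4) := by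
    simp only [F1, lf3, map_add, map_sub, pd_up1, Derivation.leibniz, Derivation.leibniz_pow,
      pderiv_X, pderiv_C, Pi.single_apply, smul_eq_mul, eval_add, eval_mul, eval_pow, eval_X,
      eval_C, map_mul, map_pow, map_zero, nsmul_eq_mul, map_natCast]
    simp
    ring
  have e2 : eval x (pderiv 2 (F1 a G)) = eval x (pderiv 2 (up G)) - a 0 * (x 0 * x 1) := by
    simp only [F1, lf3, map_add, map_sub, Derivation.leibniz, Derivation.leibniz_pow,
      pderiv_X, pderiv_C, Pi.single_apply, smul_eq_mul, eval_add, eval_mul, eval_pow, eval_X,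
      eval_C, map_mul, map_pow, map_zero, nsmul_eq_mul, map_natCast]
    simp
    ring
  have e3 : eval x (pderiv 3 (F1 a G)) = eval x (pderiv 3 (up G)) - a 1 * (x 0 * x 1) := by
    simp only [F1, lf3, map_add, map_sub, Derivation.leibniz, Derivation.leibniz_pow,
      pderiv_X, pderiv_C, Pi.single_apply, smul_eq_mul, eval_add, eval_mul, eval_pow, eval_X,
      eval_C, map_mul, map_pow, map_zero, nsmul_eq_mul, map_natCast]
    simp
    ring
  have e4 : eval x (pderiv 4 (F1 a G)) = eval x (pderiv 4 (up G)) - a 2 * (x 0 * x 1) := by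
    simp only [F1, lf3, map_add, map_sub, Derivation.leibniz, Derivation.leibniz_pow,
      pderiv_X, pderiv_C, Pi.single_apply, smul_eq_mul, eval_add, eval_mul, eval_pow, eval_X,
      eval_C, map_mul, map_pow, map_zero, nsmul_eq_mul, map_natCast]
    simp
    ring
  have e5 : eval x (F1 a G) = x 0 ^ 3 + x 1 ^ 3 + eval x (up G) -
      x 0 * x 1 * (a 0 * x 2 + a 1 * x 3 + a 2 * x 4) := by
    simp only [F1, lf3, map_add, map_sub, map_mul, map_pow, eval_X, eval_C]
  rw [Fin.forall_fin_succ, Fin.forall_fin_succ, Fin.forall_fin_succ, Fin.forall_fin_succ,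
    Fin.forall_fin_one, e5, e0]
  constructor
  · rintro ⟨h5, h0, h1, h2, h3, h4⟩
    change eval x (pderiv 1 (F1 a G)) = 0 at h1
    change eval x (pderiv 2 (F1 a G)) = 0 at h2
    change eval x (pderiv 3 (F1 a G)) = 0 at h3
    change eval x (pderiv 4 (F1 a G)) = 0 at h4
    rw [e1] at h1
    rw [e2] at h2
    rw [e3] at h3
    rw [e4] at h4
    exact ⟨sub_eq_zero.1 h5, sub_eq_zero.1 h0, sub_eq_zero.1 h1, sub_eq_zero.1 h2,
      sub_eq_zero.1 h3, sub_eq_zero.1 h4⟩
  · rintro ⟨h5, h0, h1, h2, h3, h4⟩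
    refine ⟨sub_eq_zero.2 h5, sub_eq_zero.2 h0, ?_, ?_, ?_, ?_⟩
    · change eval x (pderiv 1 (F1 a G)) = 0
      rw [e1]; exact sub_eq_zero.2 h1
    · change eval x (pderiv 2 (F1 a G)) = 0
      rw [e2]; exact sub_eq_zero.2 h2
    · change eval x (pderiv 3 (F1 a G)) = 0
      rw [e3]; exact sub_eq_zero.2 h3
    · change eval x (pderiv 4 (F1 a G)) = 0
      rw [e4]; exact sub_eq_zero.2 h4

theorem F2_pd (a : Fin 3 → K) (G : MvPolynomial (Fin 3) K) (x : Fin 5 → K) :
    (eval x (F2 a G) = 0 ∧ ∀ i : Fin 5, eval x (pderiv i (F2 a G)) = 0) ↔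
    (eval x (up G) = x 0 * x 1 * (a 0 * x 2 + a 1 * x 3 + a 2 * x 4 - x 0 - x 1) ∧
    x 1 * (a 0 * x 2 + a 1 * x 3 + a 2 * x 4) = x 1 * (2 * x 0 + x 1) ∧
    x 0 * (a 0 * x 2 + a 1 * x 3 + a 2 * x 4) = x 0 * (x 0 + 2 * x 1) ∧
    eval x (pderiv 2 (up G)) = a 0 * (x 0 * x 1) ∧
    eval x (pderiv 3 (up G)) = a 1 * (x 0 * x 1) ∧
    eval x (pderiv 4 (up G)) = a 2 * (x 0 * x 1)) := by
  have e0 : eval x (pderiv 0 (F2 a G)) =
      x 1 * (a 0 * x 2 + a 1 * x 3 + a 2 * x 4) - x 1 * (2 * x 0 + x 1) := by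
    simp only [F2, lf3, map_add, map_sub, pd_up0, Derivation.leibniz, Derivation.leibniz_pow,
      pderiv_X, pderiv_C, Pi.single_apply, smul_eq_mul, eval_add, eval_mul, eval_pow, eval_X,
      eval_C, map_mul, map_pow, map_zero, nsmul_eq_mul, map_natCast]
    simp
    ring
  have e1 : eval x (pderiv 1 (F2 a G)) =
      x 0 * (a 0 * x 2 + a 1 * x 3 + a 2 * x 4) - x 0 * (x 0 + 2 * x 1) := by
    simp only [F2, lf3, map_add, map_sub, pd_up1, Derivation.leibniz, Derivation.leibniz_pow,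
      pderiv_X, pderiv_C, Pi.single_apply, smul_eq_mul, eval_add, eval_mul, eval_pow, eval_X,
      eval_C, map_mul, map_pow, map_zero, nsmul_eq_mul, map_natCast]
    simp
    ring
  have e2 : eval x (pderiv 2 (F2 a G)) = a 0 * (x 0 * x 1) - eval x (pderiv 2 (up G)) := by
    simp only [F2, lf3, map_add, map_sub, Derivation.leibniz, Derivation.leibniz_pow,
      pderiv_X, pderiv_C, Pi.single_apply, smul_eq_mul, eval_add, eval_mul, eval_pow, eval_X,
      eval_C, map_mul, map_pow, map_zero, nsmul_eq_mul, map_natCast]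
    simp
    ring
  have e3 : eval x (pderiv 3 (F2 a G)) = a 1 * (x 0 * x 1) - eval x (pderiv 3 (up G)) := by
    simp only [F2, lf3, map_add, map_sub, Derivation.leibniz, Derivation.leibniz_pow,
      pderiv_X, pderiv_C, Pi.single_apply, smul_eq_mul, eval_add, eval_mul, eval_pow, eval_X,
      eval_C, map_mul, map_pow, map_zero, nsmul_eq_mul, map_natCast]
    simp
    ring
  have e4 : eval x (pderiv 4 (F2 a G)) = a 2 * (x 0 * x 1) - eval x (pderiv 4 (up G)) := by
    simp only [F2, lf3, map_add, map_sub, Derivation.leibniz, Derivation.leibniz_pow,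
      pderiv_X, pderiv_C, Pi.single_apply, smul_eq_mul, eval_add, eval_mul, eval_pow, eval_X,
      eval_C, map_mul, map_pow, map_zero, nsmul_eq_mul, map_natCast]
    simp
    ring
  have e5 : eval x (F2 a G) =
      x 0 * x 1 * (a 0 * x 2 + a 1 * x 3 + a 2 * x 4 - x 0 - x 1) - eval x (up G) := by
    simp only [F2, lf3, map_add, map_sub, map_mul, map_pow, eval_X, eval_C]
  rw [Fin.forall_fin_succ, Fin.forall_fin_succ, Fin.forall_fin_succ, Fin.forall_fin_succ,
    Fin.forall_fin_one, e5, e0]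
  constructor
  · rintro ⟨h5, h0, h1, h2, h3, h4⟩
    change eval x (pderiv 1 (F2 a G)) = 0 at h1
    change eval x (pderiv 2 (F2 a G)) = 0 at h2
    change eval x (pderiv 3 (F2 a G)) = 0 at h3
    change eval x (pderiv 4 (F2 a G)) = 0 at h4
    rw [e1] at h1
    rw [e2] at h2
    rw [e3] at h3
    rw [e4] at h4
    exact ⟨(sub_eq_zero.1 h5).symm, sub_eq_zero.1 h0, sub_eq_zero.1 h1, (sub_eq_zero.1 h2).symm,
      (sub_eq_zero.1 h3).symm, (sub_eq_zero.1 h4).symm⟩
  · rintro ⟨h5, h0, h1, h2, h3, h4⟩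
    refine ⟨sub_eq_zero.2 h5.symm, sub_eq_zero.2 h0, ?_, ?_, ?_, ?_⟩
    · change eval x (pderiv 1 (F2 a G)) = 0
      rw [e1]; exact sub_eq_zero.2 h1
    · change eval x (pderiv 2 (F2 a G)) = 0
      rw [e2]; exact sub_eq_zero.2 h2.symm
    · change eval x (pderiv 3 (F2 a G)) = 0
      rw [e3]; exact sub_eq_zero.2 h3.symm
    · change eval x (pderiv 4 (F2 a G)) = 0
      rw [e4]; exact sub_eq_zero.2 h4.symm

/-- the form `up H` at two points with the same last three coordinates -/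
theorem eval_up_congr (H : MvPolynomial (Fin 3) K) (x y : Fin 5 → K) (h2 : x 2 = y 2)
    (h3 : x 3 = y 3) (h4 : x 4 = y 4) : eval x (up H) = eval y (up H) := by
  rw [eval_up, eval_up, h2, h3, h4]

theorem pd_up (G : MvPolynomial (Fin 3) K) (i : Fin 3) :
    pderiv (![2, 3, 4] i : Fin 5) (up G) = up (pderiv i G) := by
  rw [rename_eq, rename_eq]
  exact pderiv_rename (by decide) _ _ 

theorem sing_iff (h3 : (3 : K) ≠ 0) (a : Fin 3 → K) (G : MvPolynomial (Fin 3) K)
    (hG : G.IsHomogeneous 3) :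
    (∃ x : Fin 5 → K, x ≠ 0 ∧
      (eval x (F1 a G) = 0 ∧ ∀ i : Fin 5, eval x (pderiv i (F1 a G)) = 0)) ↔
    (∃ x : Fin 5 → K, x ≠ 0 ∧
      (eval x (F2 a G) = 0 ∧ ∀ i : Fin 5, eval x (pderiv i (F2 a G)) = 0)) := by
  have p2 := pd_up G 0
  have p3 := pd_up G 1
  have p4 := pd_up G 2
  simp only [Matrix.cons_val_zero, Matrix.cons_val_one, Matrix.cons_val] at p2 p3 p4
  constructor
  · rintro ⟨x, hx, h⟩
    rw [F1_pd] at h
    obtain ⟨h5, e0, e1, e2, e3, e4⟩ := h
    set L := a 0 * x 2 + a 1 * x 3 + a 2 * x 4 with hL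
    by_cases hP : x 0 * x 1 = 0
    · -- then `x 0 = x 1 = 0`
      have hx0 : x 0 = 0 := by
        have : 3 * x 0 ^ 3 = 0 := by linear_combination x 0 * e0 + L * hP
        exact pow_eq_zero_iff (three_ne_zero) |>.1 ((mul_eq_zero.1 this).resolve_left h3)
      have hx1 : x 1 = 0 := by
        have : 3 * x 1 ^ 3 = 0 := by linear_combination x 1 * e1 + L * hP
        exact pow_eq_zero_iff (three_ne_zero) |>.1 ((mul_eq_zero.1 this).resolve_left h3)
      refine ⟨x, hx, ?_⟩
      rw [F2_pd]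
      refine ⟨?_, ?_, ?_, e2, e3, e4⟩
      · rw [hx0, hx1] at h5
        rw [hx0, hx1]
        linear_combination h5
      · rw [hx1]; ring
      · rw [hx0]; ring
    · have hL2 : L ^ 2 = 9 * (x 0 * x 1) := by
        have : (x 0 * x 1) * (L ^ 2 - 9 * (x 0 * x 1)) = 0 := by
          linear_combination (-3 * x 1 ^ 2) * e0 - (x 1 * L) * e1
        exact sub_eq_zero.1 ((mul_eq_zero.1 this).resolve_left hP)
      have hGv : 3 * eval x (up G) = (x 0 * x 1) * L := by
        linear_combination 3 * h5 - x 0 * e0 - x 1 * e1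
      have hi : (3 : K) * 3⁻¹ = 1 := mul_inv_cancel₀ h3
      have hP9 : (L * 3⁻¹) * (L * 3⁻¹) = x 0 * x 1 := by
        linear_combination (3⁻¹ ^ 2) * hL2 + (x 0 * x 1) * (3 * 3⁻¹ + 1) * hi
      refine ⟨![L * 3⁻¹, L * 3⁻¹, x 2, x 3, x 4], ?_, ?_⟩
      · intro h0
        have h00 : L * 3⁻¹ = 0 := congrFun h0 0
        rw [h00] at hP9
        apply hP
        rw [← hP9]; ring
      · rw [F2_pd]
        have u0 : eval (![L * 3⁻¹, L * 3⁻¹, x 2, x 3, x 4] : Fin 5 → K) (up G) =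
            eval x (up G) := eval_up_congr G _ _ rfl rfl rfl
        have u2 : eval (![L * 3⁻¹, L * 3⁻¹, x 2, x 3, x 4] : Fin 5 → K) (pderiv 2 (up G)) =
            eval x (pderiv 2 (up G)) := by rw [p2]; exact eval_up_congr _ _ _ rfl rfl rfl
        have u3 : eval (![L * 3⁻¹, L * 3⁻¹, x 2, x 3, x 4] : Fin 5 → K) (pderiv 3 (up G)) =
            eval x (pderiv 3 (up G)) := by rw [p3]; exact eval_up_congr _ _ _ rfl rfl rfl
        have u4 : eval (![L * 3⁻¹, L * 3⁻¹, x 2, x 3, x 4] : Fin 5 → K) (pderiv 4 (up G)) =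
            eval x (pderiv 4 (up G)) := by rw [p4]; exact eval_up_congr _ _ _ rfl rfl rfl
        rw [u0, u2, u3, u4]
        simp only [Matrix.cons_val_zero, Matrix.cons_val_one, Matrix.cons_val]
        rw [← hL, hP9]
        refine ⟨?_, ?_, ?_, e2, e3, e4⟩
        · have : L - L * 3⁻¹ - L * 3⁻¹ = L * 3⁻¹ := by linear_combination (-L) * hi
          rw [this]
          linear_combination (3⁻¹) * hGv - (eval x (up G)) * hi
        · linear_combination (-(L * 3⁻¹) * L) * hi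
        · linear_combination (-(L * 3⁻¹) * L) * hi
  · rintro ⟨x, hx, h⟩
    rw [F2_pd] at h
    obtain ⟨h5, e0, e1, e2, e3, e4⟩ := h
    set L := a 0 * x 2 + a 1 * x 3 + a 2 * x 4 with hL
    by_cases hP : x 0 * x 1 = 0
    · -- then the point `(0, 0, x 2, x 3, x 4)` is singular
      have hG0 : eval x (up G) = 0 := by rw [h5, hP]; ring
      rw [hP] at e2 e3 e4
      refine ⟨![0, 0, x 2, x 3, x 4], ?_, ?_⟩
      · intro h0
        have z2 : x 2 = 0 := congrFun h0 2
        have z3 : x 3 = 0 := congrFun h0 3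
        have z4 : x 4 = 0 := congrFun h0 4
        have hL0 : L = 0 := by rw [hL, z2, z3, z4]; ring
        rw [hL0] at e0 e1
        have z1 : x 1 = 0 := by
          have : x 1 ^ 2 = 0 := by linear_combination -e0 - 2 * hP
          exact pow_eq_zero_iff (two_ne_zero) |>.1 this
        have z0 : x 0 = 0 := by
          have : x 0 ^ 2 = 0 := by linear_combination -e1 - 2 * hP
          exact pow_eq_zero_iff (two_ne_zero) |>.1 this
        apply hx
        funext i
        fin_cases i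
        · exact z0
        · exact z1
        · exact z2
        · exact z3
        · exact z4
      · rw [F1_pd]
        have u0 : eval (![0, 0, x 2, x 3, x 4] : Fin 5 → K) (up G) =
            eval x (up G) := eval_up_congr G _ _ rfl rfl rfl
        have u2 : eval (![0, 0, x 2, x 3, x 4] : Fin 5 → K) (pderiv 2 (up G)) =
            eval x (pderiv 2 (up G)) := by rw [p2]; exact eval_up_congr _ _ _ rfl rfl rfl
        have u3 : eval (![0, 0, x 2, x 3, x 4] : Fin 5 → K) (pderiv 3 (up G)) =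
            eval x (pderiv 3 (up G)) := by rw [p3]; exact eval_up_congr _ _ _ rfl rfl rfl
        have u4 : eval (![0, 0, x 2, x 3, x 4] : Fin 5 → K) (pderiv 4 (up G)) =
            eval x (pderiv 4 (up G)) := by rw [p4]; exact eval_up_congr _ _ _ rfl rfl rfl
        rw [u0, u2, u3, u4, hG0, e2, e3, e4]
        simp
    · have hx0 : x 0 ≠ 0 := left_ne_zero_of_mul hP
      have hx1 : x 1 ≠ 0 := right_ne_zero_of_mul hP
      have f0 : L = 2 * x 0 + x 1 := mul_left_cancel₀ hx1 e0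
      have f1 : L = x 0 + 2 * x 1 := mul_left_cancel₀ hx0 e1
      have f2 : x 1 = x 0 := by linear_combination f0 - f1
      refine ⟨x, hx, ?_⟩
      rw [F1_pd]
      refine ⟨?_, ?_, ?_, e2, e3, e4⟩
      · rw [h5, ← hL, f0, f2]; ring
      · rw [← hL, f0, f2]; ring
      · rw [← hL, f0, f2]; ring

theorem up_dual (a : Fin 3 → K) (G : MvPolynomial (Fin 3) K) :
    up (dual a G) = C (1 / 27) * lf3 a ^ 3 - up G := by
  rw [up, dual, map_sub, map_mul, map_pow, map_add, map_add, map_mul, map_mul, map_mul]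
  simp only [aeval_C, aeval_X, MvPolynomial.algebraMap_eq]
  rfl

/-- a singular point of `X(a, G)` gives one of `X(a, a^3/27 - G)` -/
theorem sing_dual (h3 : (3 : K) ≠ 0) (a : Fin 3 → K) (G : MvPolynomial (Fin 3) K)
    (h : ∃ x : Fin 5 → K, x ≠ 0 ∧
      (eval x (F1 a G) = 0 ∧ ∀ i : Fin 5, eval x (pderiv i (F1 a G)) = 0)) :
    ∃ x : Fin 5 → K, x ≠ 0 ∧
      (eval x (F1 a (dual a G)) = 0 ∧
        ∀ i : Fin 5, eval x (pderiv i (F1 a (dual a G))) = 0) := by
  have h27 : (27 : K) = 3 ^ 3 := by norm_num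
  have hi : (3 : K) * 3⁻¹ = 1 := mul_inv_cancel₀ h3
  have hi27 : (1 / 27 : K) = 3⁻¹ ^ 3 := by rw [h27, one_div, inv_pow]
  have h9 : (27 : K)⁻¹ * 3 = (3 ^ 2)⁻¹ := by
    rw [h27, ← inv_pow, ← inv_pow]
    linear_combination (3⁻¹ ^ 2) * hi
  have q0 : ∀ x : Fin 5 → K, eval x (up (dual a G)) =
      3⁻¹ ^ 3 * (a 0 * x 2 + a 1 * x 3 + a 2 * x 4) ^ 3 - eval x (up G) := by
    intro x
    rw [up_dual]
    simp only [lf3, map_sub, map_mul, map_pow, map_add, eval_C, eval_X, hi27]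
  have q2 : ∀ x : Fin 5 → K, eval x (pderiv 2 (up (dual a G))) =
      3⁻¹ ^ 2 * (a 0 * x 2 + a 1 * x 3 + a 2 * x 4) ^ 2 * a 0 - eval x (pderiv 2 (up G)) := by
    intro x
    rw [up_dual]
    simp only [lf3, map_add, map_sub, Derivation.leibniz, Derivation.leibniz_pow,
      pderiv_X, pderiv_C, Pi.single_apply, smul_eq_mul, eval_mul, eval_pow, eval_X,
      eval_C, map_mul, map_pow, map_zero, nsmul_eq_mul, map_natCast]
    simp
    linear_combination ((a 0 * x 2 + a 1 * x 3 + a 2 * x 4) ^ 2 * a 0) * h9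
  have q3 : ∀ x : Fin 5 → K, eval x (pderiv 3 (up (dual a G))) =
      3⁻¹ ^ 2 * (a 0 * x 2 + a 1 * x 3 + a 2 * x 4) ^ 2 * a 1 - eval x (pderiv 3 (up G)) := by
    intro x
    rw [up_dual]
    simp only [lf3, map_add, map_sub, Derivation.leibniz, Derivation.leibniz_pow,
      pderiv_X, pderiv_C, Pi.single_apply, smul_eq_mul, eval_mul, eval_pow, eval_X,
      eval_C, map_mul, map_pow, map_zero, nsmul_eq_mul, map_natCast]
    simp
    linear_combination ((a 0 * x 2 + a 1 * x 3 + a 2 * x 4) ^ 2 * a 1) * h9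
  have q4 : ∀ x : Fin 5 → K, eval x (pderiv 4 (up (dual a G))) =
      3⁻¹ ^ 2 * (a 0 * x 2 + a 1 * x 3 + a 2 * x 4) ^ 2 * a 2 - eval x (pderiv 4 (up G)) := by
    intro x
    rw [up_dual]
    simp only [lf3, map_add, map_sub, Derivation.leibniz, Derivation.leibniz_pow,
      pderiv_X, pderiv_C, Pi.single_apply, smul_eq_mul, eval_mul, eval_pow, eval_X,
      eval_C, map_mul, map_pow, map_zero, nsmul_eq_mul, map_natCast]
    simp
    linear_combination ((a 0 * x 2 + a 1 * x 3 + a 2 * x 4) ^ 2 * a 2) * h9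
  have p2 := pd_up G 0
  have p3 := pd_up G 1
  have p4 := pd_up G 2
  simp only [Matrix.cons_val_zero, Matrix.cons_val_one, Matrix.cons_val] at p2 p3 p4
  obtain ⟨x, hx, h⟩ := h
  rw [F1_pd] at h
  obtain ⟨h5, e0, e1, e2, e3, e4⟩ := h
  set L := a 0 * x 2 + a 1 * x 3 + a 2 * x 4 with hL
  by_cases hP : x 0 * x 1 = 0
  · -- then `x 0 = x 1 = 0`
    have hx0 : x 0 = 0 := by
      have : 3 * x 0 ^ 3 = 0 := by linear_combination x 0 * e0 + L * hP
      exact pow_eq_zero_iff (three_ne_zero) |>.1 ((mul_eq_zero.1 this).resolve_left h3)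
    have hx1 : x 1 = 0 := by
      have : 3 * x 1 ^ 3 = 0 := by linear_combination x 1 * e1 + L * hP
      exact pow_eq_zero_iff (three_ne_zero) |>.1 ((mul_eq_zero.1 this).resolve_left h3)
    have hG0 : eval x (up G) = 0 := by
      rw [hx0, hx1] at h5
      linear_combination h5
    rw [hP, mul_zero] at e2 e3 e4
    refine ⟨![L * 3⁻¹, L * 3⁻¹, x 2, x 3, x 4], ?_, ?_⟩
    · intro h0
      apply hx
      funext i
      fin_cases i
      · exact hx0
      · exact hx1
      · exact congrFun h0 2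
      · exact congrFun h0 3
      · exact congrFun h0 4
    · rw [F1_pd]
      have u0 : eval (![L * 3⁻¹, L * 3⁻¹, x 2, x 3, x 4] : Fin 5 → K) (up G) =
          eval x (up G) := eval_up_congr G _ _ rfl rfl rfl
      have u2 : eval (![L * 3⁻¹, L * 3⁻¹, x 2, x 3, x 4] : Fin 5 → K) (pderiv 2 (up G)) =
          eval x (pderiv 2 (up G)) := by rw [p2]; exact eval_up_congr _ _ _ rfl rfl rfl
      have u3 : eval (![L * 3⁻¹, L * 3⁻¹, x 2, x 3, x 4] : Fin 5 → K) (pderiv 3 (up G)) =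
          eval x (pderiv 3 (up G)) := by rw [p3]; exact eval_up_congr _ _ _ rfl rfl rfl
      have u4 : eval (![L * 3⁻¹, L * 3⁻¹, x 2, x 3, x 4] : Fin 5 → K) (pderiv 4 (up G)) =
          eval x (pderiv 4 (up G)) := by rw [p4]; exact eval_up_congr _ _ _ rfl rfl rfl
      rw [q0, q2, q3, q4, u0, u2, u3, u4, hG0, e2, e3, e4]
      simp only [Matrix.cons_val_zero, Matrix.cons_val_one, Matrix.cons_val]
      rw [← hL]
      refine ⟨?_, ?_, ?_, ?_, ?_, ?_⟩
      · linear_combination (L ^ 3 * 3⁻¹ ^ 2) * hi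
      · linear_combination (L ^ 2 * 3⁻¹) * hi
      · linear_combination (L ^ 2 * 3⁻¹) * hi
      · ring
      · ring
      · ring
  · have hL2 : L ^ 2 = 9 * (x 0 * x 1) := by
      have : (x 0 * x 1) * (L ^ 2 - 9 * (x 0 * x 1)) = 0 := by
        linear_combination (-3 * x 1 ^ 2) * e0 - (x 1 * L) * e1
      exact sub_eq_zero.1 ((mul_eq_zero.1 this).resolve_left hP)
    have hGv : 3 * eval x (up G) = (x 0 * x 1) * L := by
      linear_combination 3 * h5 - x 0 * e0 - x 1 * e1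
    have hP9 : (L * 3⁻¹) * (L * 3⁻¹) = x 0 * x 1 := by
      linear_combination (3⁻¹ ^ 2) * hL2 + (x 0 * x 1) * (3 * 3⁻¹ + 1) * hi
    refine ⟨![0, 0, x 2, x 3, x 4], ?_, ?_⟩
    · intro h0
      have z2 : x 2 = 0 := congrFun h0 2
      have z3 : x 3 = 0 := congrFun h0 3
      have z4 : x 4 = 0 := congrFun h0 4
      have hL0 : L = 0 := by rw [hL, z2, z3, z4]; ring
      rw [hL0] at hP9
      apply hP
      rw [← hP9]; ring
    · rw [F1_pd]
      have u0 : eval (![0, 0, x 2, x 3, x 4] : Fin 5 → K) (up G) =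
          eval x (up G) := eval_up_congr G _ _ rfl rfl rfl
      have u2 : eval (![0, 0, x 2, x 3, x 4] : Fin 5 → K) (pderiv 2 (up G)) =
          eval x (pderiv 2 (up G)) := by rw [p2]; exact eval_up_congr _ _ _ rfl rfl rfl
      have u3 : eval (![0, 0, x 2, x 3, x 4] : Fin 5 → K) (pderiv 3 (up G)) =
          eval x (pderiv 3 (up G)) := by rw [p3]; exact eval_up_congr _ _ _ rfl rfl rfl
      have u4 : eval (![0, 0, x 2, x 3, x 4] : Fin 5 → K) (pderiv 4 (up G)) =
          eval x (pderiv 4 (up G)) := by rw [p4]; exact eval_up_congr _ _ _ rfl rfl rfl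
      rw [q0, q2, q3, q4, u0, u2, u3, u4, e2, e3, e4]
      simp only [Matrix.cons_val_zero, Matrix.cons_val_one, Matrix.cons_val]
      rw [← hL]
      refine ⟨?_, ?_, ?_, ?_, ?_, ?_⟩
      · linear_combination (L * 3⁻¹) * hP9 - 3⁻¹ * hGv + (eval x (up G)) * hi
      · ring
      · ring
      · linear_combination (a 0) * hP9
      · linear_combination (a 1) * hP9
      · linear_combination (a 2) * hP9

/-- the isogeny, in terms of the one family `X(a, G)` -/
theorem all_dual (w : K) (hw : w ^ 2 + w + 1 = 0) (h3 : (3 : K) ≠ 0) (a : Fin 3 → K)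
    (G : MvPolynomial (Fin 3) K) (hG : G.IsHomogeneous 3) (hG0 : G ≠ 0) (n : ℕ) (hn : n ≠ 0)
    (h : HasAll (F1 a G) n) : HasAll (F1 a (dual a G)) (3 * n) := by
  intro A hA
  have h1 := all_forward w hw h3 a G hG hG0 n hn h (mat w a * A)
    (by rw [Matrix.det_mul]; exact (mat_det w hw h3 a).mul hA)
  rwa [← linSub_comp, linSub_mat w hw h3] at h1

end Pool.Agent.Work.CubicOdd.DI
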